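import Pool.Agent.MP_fafc5c_gt.Forward

set_option autoImplicit false
set_option linter.unusedVariables false

namespace Pool.Agent.MP_fafc5c_gt

/-- orientation preserving integral affine maps `v ↦ vA + t` -/
structure SAff where
  a : ℤ
  b : ℤ
  c : ℤ
  d : ℤ
  det : a * d - b * c = 1
  t : ℝ × ℝ

namespace SAff

/-- linear part -/
def lin (T : SAff) (u : ℝ × ℝ) : ℝ × ℝ := (u.1 * T.a + u.2 * T.c, u.1 * T.b + u.2 * T.d)
/-- linear part on integer vectors -/
def linZ (T : SAff) (u : ℤ × ℤ) : ℤ × ℤ := (u.1 * T.a + u.2 * T.c, u.1 * T.b + u.2 * T.d)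
/-- the map -/
def map (T : SAff) (u : ℝ × ℝ) : ℝ × ℝ := T.lin u + T.t

/-- inverse -/
def inv (T : SAff) : SAff where
  a := T.d
  b := -T.b
  c := -T.c
  d := T.a
  det := by have := T.det; linarith
  t := -(T.t.1 * T.d + T.t.2 * -T.c, T.t.1 * -T.b + T.t.2 * T.a)

variable (T : SAff)

lemma detR : (T.a : ℝ) * T.d - T.b * T.c = 1 := by exact_mod_cast T.det

lemma lin_add (u v : ℝ × ℝ) : T.lin (u + v) = T.lin u + T.lin v := by
  ext <;> simp [lin] <;> ring
lemma lin_sub (u v : ℝ × ℝ) : T.lin (u - v) = T.lin u - T.lin v := by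
  ext <;> simp [lin] <;> ring
lemma lin_smul (s : ℝ) (u : ℝ × ℝ) : T.lin (s • u) = s • T.lin u := by
  ext <;> simp [lin] <;> ring
lemma lin_neg (u : ℝ × ℝ) : T.lin (-u) = -T.lin u := by
  ext <;> simp [lin] <;> ring
lemma linZ_add (u v : ℤ × ℤ) : T.linZ (u + v) = T.linZ u + T.linZ v := by
  ext <;> simp [linZ] <;> ring
lemma linZ_sub (u v : ℤ × ℤ) : T.linZ (u - v) = T.linZ u - T.linZ v := by
  ext <;> simp [linZ] <;> ring
lemma linZ_smul (s : ℤ) (u : ℤ × ℤ) : T.linZ (s • u) = s • T.linZ u := by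
  ext <;> simp [linZ] <;> ring
lemma linZ_neg (u : ℤ × ℤ) : T.linZ (-u) = -T.linZ u := by
  ext <;> simp [linZ] <;> ring
lemma toR_linZ (u : ℤ × ℤ) : toR (T.linZ u) = T.lin (toR u) := by
  ext <;> simp [linZ, lin, toR]
lemma det2_lin (u v : ℝ × ℝ) : det2 (T.lin u) (T.lin v) = det2 u v := by
  have h := T.detR
  simp only [det2, lin]
  linear_combination (u.1 * v.2 - u.2 * v.1) * h
lemma detZ_linZ (u v : ℤ × ℤ) : detZ (T.linZ u) (T.linZ v) = detZ u v := by
  have h := T.det
  simp only [detZ, linZ]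
  linear_combination (u.1 * v.2 - u.2 * v.1) * h
lemma map_sub (u v : ℝ × ℝ) : T.map u - T.map v = T.lin (u - v) := by
  rw [map, map, lin_sub]; abel
lemma map_add (u w : ℝ × ℝ) : T.map (u + w) = T.map u + T.lin w := by
  rw [map, map, lin_add]; abel

lemma map_sub_lin (u w : ℝ × ℝ) : T.map (u - w) = T.map u - T.lin w := by
  rw [map, map, lin_sub]; abel

lemma inv_lin_lin (u : ℝ × ℝ) : T.inv.lin (T.lin u) = u := by
  have h := T.detR
  ext
  · simp only [inv, lin]; push_cast; linear_combination u.1 * h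
  · simp only [inv, lin]; push_cast; linear_combination u.2 * h
lemma lin_inv_lin (u : ℝ × ℝ) : T.lin (T.inv.lin u) = u := by
  have h := T.detR
  ext
  · simp only [inv, lin]; push_cast; linear_combination u.1 * h
  · simp only [inv, lin]; push_cast; linear_combination u.2 * h
lemma inv_linZ_linZ (u : ℤ × ℤ) : T.inv.linZ (T.linZ u) = u := by
  have h := T.det
  ext
  · simp only [inv, linZ]; linear_combination u.1 * h
  · simp only [inv, linZ]; linear_combination u.2 * h
lemma linZ_inv_linZ (u : ℤ × ℤ) : T.linZ (T.inv.linZ u) = u := by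
  have h := T.det
  ext
  · simp only [inv, linZ]; linear_combination u.1 * h
  · simp only [inv, linZ]; linear_combination u.2 * h

lemma inv_t : T.inv.t = -T.inv.lin T.t := by
  ext <;> simp [inv, lin]

lemma inv_map_map (u : ℝ × ℝ) : T.inv.map (T.map u) = u := by
  rw [map, map, lin_add, inv_lin_lin, inv_t]; abel
lemma map_inv_map (u : ℝ × ℝ) : T.map (T.inv.map u) = u := by
  rw [map, map, lin_add, lin_inv_lin, inv_t, lin_neg, lin_inv_lin]; abel

lemma continuous_map : Continuous T.map := by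
  unfold map lin; fun_prop

/-- the homeomorphism -/
def homeo : (ℝ × ℝ) ≃ₜ (ℝ × ℝ) where
  toFun := T.map
  invFun := T.inv.map
  left_inv := T.inv_map_map
  right_inv := T.map_inv_map
  continuous_toFun := T.continuous_map
  continuous_invFun := T.inv.continuous_map

lemma interior_image (S : Set (ℝ × ℝ)) : interior (T.map '' S) = T.map '' interior S :=
  (T.homeo.image_interior S).symm

lemma mem_image_iff (S : Set (ℝ × ℝ)) (u : ℝ × ℝ) : T.map u ∈ T.map '' S ↔ u ∈ S :=
  T.homeo.injective.mem_set_image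

lemma coprime_linZ {u : ℤ × ℤ} (hu : IsCoprime u.1 u.2) :
    IsCoprime (T.linZ u).1 (T.linZ u).2 := by
  rw [coprime_iff_exists_det] at hu ⊢
  obtain ⟨w, hw⟩ := hu
  exact ⟨T.linZ w, by rw [detZ_linZ, hw]⟩

lemma par_linZ {u v : ℤ × ℤ} (h : (2:ℤ) ∣ u.1 - v.1 ∧ (2:ℤ) ∣ u.2 - v.2) :
    (2:ℤ) ∣ (T.linZ u).1 - (T.linZ v).1 ∧ (2:ℤ) ∣ (T.linZ u).2 - (T.linZ v).2 := by
  obtain ⟨⟨m, hm⟩, ⟨n, hn⟩⟩ := h
  constructor
  · exact ⟨m * T.a + n * T.c, by
      simp only [linZ]
      linear_combination T.a * hm + T.c * hn⟩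
  · exact ⟨m * T.b + n * T.d, by
      simp only [linZ]
      linear_combination T.b * hm + T.d * hn⟩

/-- action on diagrams -/
def act (D : Diagram) : Diagram where
  region := T.map '' D.region
  node i := ⟨T.map (D.node i).pos, T.linZ (D.node i).dir⟩

/-- action on generalised quadrilaterals -/
def actG (G : GQuad) : GQuad where
  h k := T.linZ (G.h k)
  e k := T.linZ (G.e k)
  p := G.p
  v k := T.map (G.v k)
  l := G.l
  T := {
    hprim := fun k => T.coprime_linZ (G.T.hprim k)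
    eprim := fun k => T.coprime_linZ (G.T.eprim k)
    pne := G.T.pne
    hdiff := fun k => by rw [G.T.hdiff k, linZ_add, linZ_smul]
    hdet := fun k => by rw [detZ_linZ, G.T.hdet k] }
  ppos := G.ppos
  lnn := G.lnn
  hv k := by rw [G.hv k, map_add, lin_smul, toR_linZ]
  hk k hl := by rw [detZ_linZ]; exact G.hk k hl
  hone := G.hone
  even j k := T.par_linZ (G.even j k)

lemma region_actG (G : GQuad) : (T.actG G).region = T.map '' G.region := by
  ext u
  obtain ⟨w, rfl⟩ := T.homeo.surjective u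
  show T.map w ∈ _ ↔ T.map w ∈ _
  rw [mem_image_iff]
  have : ∀ k, (T.actG G).lam k (T.map w) = G.lam k w := by
    intro k
    show det2 (toR (T.linZ (G.h k))) (T.map w - T.map (G.v k)) = _
    rw [map_sub, toR_linZ, det2_lin]; rfl
  constructor
  · intro h k; rw [← this]; exact h k
  · intro h k; rw [this]; exact h k

lemma per_actG (G : GQuad) : (T.actG G).per = G.per := rfl

lemma models_act {D : Diagram} {G : GQuad} {σ : Equiv.Perm (Fin 4)} (M : Models D G σ) :
    Models (T.act D) (T.actG G) σ where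
  region := by rw [region_actG, ← M.region]; rfl
  dir k := by
    show T.linZ (D.node (σ k)).dir = -T.linZ (G.e k)
    rw [M.dir, linZ_neg]
  pos k := by
    obtain ⟨s, hs, hpos⟩ := M.pos k
    refine ⟨s, hs, ?_⟩
    show T.map (D.node (σ k)).pos = T.map (G.v k) + s • toR (T.linZ (G.e k))
    rw [hpos, map_add, lin_smul, toR_linZ]
  int k := by
    rw [region_actG, interior_image]
    exact ⟨_, M.int k, rfl⟩

lemma mem_clockSide (n : ℝ × ℝ) (e : ℤ × ℤ) (u : ℝ × ℝ) :
    T.map u ∈ clockSide (T.map n) (T.linZ e) ↔ u ∈ clockSide n e := by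
  simp only [clockSide, Set.mem_ofPred_eq, map_sub, toR_linZ, det2_lin]
lemma mem_antiSide (n : ℝ × ℝ) (e : ℤ × ℤ) (u : ℝ × ℝ) :
    T.map u ∈ antiSide (T.map n) (T.linZ e) ↔ u ∈ antiSide n e := by
  simp only [antiSide, Set.mem_ofPred_eq, map_sub, toR_linZ, det2_lin]
lemma phiInv_map (n : ℝ × ℝ) (e : ℤ × ℤ) (u : ℝ × ℝ) :
    phiInv (T.map n) (T.linZ e) (T.map u) = T.map (phiInv n e u) := by
  rw [phiInv, phiInv, map_sub, toR_linZ, det2_lin, map_sub_lin, lin_smul]
lemma phi_map (n : ℝ × ℝ) (e : ℤ × ℤ) (u : ℝ × ℝ) :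
    phi (T.map n) (T.linZ e) (T.map u) = T.map (phi n e u) := by
  rw [phi, phi, map_sub, toR_linZ, det2_lin, map_add, lin_smul]
lemma monoInvZ_linZ (e v : ℤ × ℤ) : monoInvZ (T.linZ e) (T.linZ v) = T.linZ (monoInvZ e v) := by
  rw [monoInvZ, monoInvZ, detZ_linZ, linZ_sub, linZ_smul]
lemma monoZ_linZ (e v : ℤ × ℤ) : monoZ (T.linZ e) (T.linZ v) = T.linZ (monoZ e v) := by
  rw [monoZ, monoZ, detZ_linZ, linZ_add, linZ_smul]

lemma cut_act (D : Diagram) (j : Fin 4) : (T.act D).cut j = T.map '' D.cut j := by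
  ext u
  obtain ⟨w, rfl⟩ := T.homeo.surjective u
  show T.map w ∈ _ ↔ T.map w ∈ _
  rw [mem_image_iff]
  constructor
  · rintro ⟨h1, t, ht, h2⟩
    refine ⟨(T.mem_image_iff _ _).mp h1, t, ht, ?_⟩
    apply T.homeo.injective
    show T.map w = T.map _
    rw [h2]
    show T.map (D.node j).pos + t • toR (T.linZ (D.node j).dir) = _
    rw [map_add, lin_smul, toR_linZ]
  · rintro ⟨h1, t, ht, h2⟩
    refine ⟨(T.mem_image_iff _ _).mpr h1, t, ht, ?_⟩
    show T.map w = T.map (D.node j).pos + t • toR (T.linZ (D.node j).dir)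
    rw [h2, map_add, lin_smul, toR_linZ]

lemma act_slide {D D' : Diagram} (H : Slide D D') : Slide (T.act D) (T.act D') := by
  refine ⟨by show T.map '' _ = T.map '' _; rw [H.1], fun i => ?_⟩
  obtain ⟨h1, h2, t, h3⟩ := H.2 i
  refine ⟨by show T.linZ _ = T.linZ _; rw [h1], ?_, t, ?_⟩
  · show T.map _ ∈ interior (T.map '' _)
    rw [interior_image]; exact ⟨_, h2, rfl⟩
  · show T.map (D'.node i).pos = T.map (D.node i).pos + t • toR (T.linZ (D.node i).dir)
    rw [h3, map_add, lin_smul, toR_linZ]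

lemma image_inter_clock (S : Set (ℝ × ℝ)) (n : ℝ × ℝ) (e : ℤ × ℤ) :
    T.map '' S ∩ clockSide (T.map n) (T.linZ e) = T.map '' (S ∩ clockSide n e) := by
  ext u
  obtain ⟨w, rfl⟩ := T.homeo.surjective u
  show T.map w ∈ _ ↔ T.map w ∈ _
  rw [mem_image_iff, Set.mem_inter_iff, mem_image_iff, mem_clockSide]; rfl
lemma image_inter_anti (S : Set (ℝ × ℝ)) (n : ℝ × ℝ) (e : ℤ × ℤ) :
    T.map '' S ∩ antiSide (T.map n) (T.linZ e) = T.map '' (S ∩ antiSide n e) := by
  ext u
  obtain ⟨w, rfl⟩ := T.homeo.surjective u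
  show T.map w ∈ _ ↔ T.map w ∈ _
  rw [mem_image_iff, Set.mem_inter_iff, mem_image_iff, mem_antiSide]; rfl
lemma phiInv_image (S : Set (ℝ × ℝ)) (n : ℝ × ℝ) (e : ℤ × ℤ) :
    phiInv (T.map n) (T.linZ e) '' (T.map '' S) = T.map '' (phiInv n e '' S) := by
  rw [Set.image_image, Set.image_image]
  congr 1; ext u <;> rw [phiInv_map]
lemma phi_image (S : Set (ℝ × ℝ)) (n : ℝ × ℝ) (e : ℤ × ℤ) :
    phi (T.map n) (T.linZ e) '' (T.map '' S) = T.map '' (phi n e '' S) := by
  rw [Set.image_image, Set.image_image]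
  congr 1; ext u <;> rw [phi_map]

lemma act_anti {D D' : Diagram} {i : Fin 4} (H : MutateAnti D i D') :
    MutateAnti (T.act D) i (T.act D') := by
  refine ⟨?_, ?_, ?_⟩
  · show T.map '' D'.region = (T.map '' D.region ∩ clockSide (T.map _) (T.linZ _)) ∪
      phiInv (T.map _) (T.linZ _) '' (T.map '' D.region ∩ antiSide (T.map _) (T.linZ _))
    rw [image_inter_clock, image_inter_anti, phiInv_image, ← Set.image_union, H.1]
  · show (⟨T.map (D'.node i).pos, T.linZ (D'.node i).dir⟩ : Node) =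
      ⟨T.map (D.node i).pos, -T.linZ (D.node i).dir⟩
    rw [H.2.1, linZ_neg]
  · intro j hj
    rcases H.2.2 j hj with ⟨h1, h2⟩ | ⟨h1, h2⟩
    · left
      refine ⟨?_, ?_⟩
      · rw [cut_act]
        rintro _ ⟨w, hw, rfl⟩
        exact (T.mem_clockSide _ _ _).mpr (h1 hw)
      · show (⟨T.map (D'.node j).pos, T.linZ (D'.node j).dir⟩ : Node) = _
        rw [h2]; rfl
    · right
      refine ⟨?_, ?_⟩
      · rw [cut_act]
        rintro _ ⟨w, hw, rfl⟩
        exact (T.mem_antiSide _ _ _).mpr (h1 hw)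
      · show (⟨T.map (D'.node j).pos, T.linZ (D'.node j).dir⟩ : Node) =
          ⟨phiInv (T.map _) (T.linZ _) (T.map _), monoInvZ (T.linZ _) (T.linZ _)⟩
        rw [h2, phiInv_map, monoInvZ_linZ]

lemma act_clock {D D' : Diagram} {i : Fin 4} (H : MutateClock D i D') :
    MutateClock (T.act D) i (T.act D') := by
  refine ⟨?_, ?_, ?_⟩
  · show T.map '' D'.region = phi (T.map _) (T.linZ _) ''
      (T.map '' D.region ∩ clockSide (T.map _) (T.linZ _)) ∪
      (T.map '' D.region ∩ antiSide (T.map _) (T.linZ _))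
    rw [image_inter_clock, image_inter_anti, phi_image, ← Set.image_union, H.1]
  · show (⟨T.map (D'.node i).pos, T.linZ (D'.node i).dir⟩ : Node) =
      ⟨T.map (D.node i).pos, -T.linZ (D.node i).dir⟩
    rw [H.2.1, linZ_neg]
  · intro j hj
    rcases H.2.2 j hj with ⟨h1, h2⟩ | ⟨h1, h2⟩
    · left
      refine ⟨?_, ?_⟩
      · rw [cut_act]
        rintro _ ⟨w, hw, rfl⟩
        exact (T.mem_antiSide _ _ _).mpr (h1 hw)
      · show (⟨T.map (D'.node j).pos, T.linZ (D'.node j).dir⟩ : Node) = _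
        rw [h2]; rfl
    · right
      refine ⟨?_, ?_⟩
      · rw [cut_act]
        rintro _ ⟨w, hw, rfl⟩
        exact (T.mem_clockSide _ _ _).mpr (h1 hw)
      · show (⟨T.map (D'.node j).pos, T.linZ (D'.node j).dir⟩ : Node) =
          ⟨phi (T.map _) (T.linZ _) (T.map _), monoZ (T.linZ _) (T.linZ _)⟩
        rw [h2, phi_map, monoZ_linZ]

lemma act_step {D D' : Diagram} (H : Step D D') : Step (T.act D) (T.act D') := by
  rcases H with h | ⟨i, h | h⟩
  · exact Or.inl (T.act_slide h)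
  · exact Or.inr ⟨i, Or.inl (T.act_anti h)⟩
  · exact Or.inr ⟨i, Or.inr (T.act_clock h)⟩

lemma act_nonCrossing {D : Diagram} (H : NonCrossing D) : NonCrossing (T.act D) := by
  intro i j hij v hv hi hj
  rw [cut_act] at hi hj
  show detZ (T.linZ _) (T.linZ _) = 0
  rw [detZ_linZ]
  obtain ⟨w, hw, rfl⟩ := hi
  rw [mem_image_iff] at hj
  refine H i j hij w ?_ hw hj
  have : T.map w ∈ interior (T.map '' D.region) := hv
  rw [interior_image, mem_image_iff] at this
  exact this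

lemma map_convex (p q : ℝ × ℝ) (t : ℝ) :
    T.map ((1 - t) • p + t • q) = (1 - t) • T.map p + t • T.map q := by
  rw [map, map, map, lin_add, lin_smul, lin_smul, smul_add, smul_add]
  have : (1 - t) • T.lin p + (1 - t) • T.t + (t • T.lin q + t • T.t) =
      (1 - t) • T.lin p + t • T.lin q + ((1 - t) • T.t + t • T.t) := by abel
  rw [this, ← add_smul, sub_add_cancel, one_smul]

lemma act_slideAt (D D' : Diagram) (t : ℝ) :
    T.act (slideAt D D' t) = slideAt (T.act D) (T.act D') t := by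
  simp only [act, slideAt, map_convex]

lemma act_stepNC {D D' : Diagram} (H : StepNC D D') : StepNC (T.act D) (T.act D') := by
  obtain ⟨h1, h2, h3⟩ := H
  refine ⟨T.act_nonCrossing h1, T.act_nonCrossing h2, ?_⟩
  rcases h3 with ⟨h3, h4⟩ | ⟨i, h | h⟩
  · refine Or.inl ⟨T.act_slide h3, fun t ht0 ht1 => ?_⟩
    rw [← act_slideAt]
    exact T.act_nonCrossing (h4 t ht0 ht1)
  · exact Or.inr ⟨i, Or.inl (T.act_anti h)⟩
  · exact Or.inr ⟨i, Or.inr (T.act_clock h)⟩

/-- the affine map `φ` as an element of `SAff` -/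
def ofPhi (n : ℝ × ℝ) (e : ℤ × ℤ) : SAff where
  a := 1 + e.1 * e.2
  b := e.2 * e.2
  c := -(e.1 * e.1)
  d := 1 - e.1 * e.2
  det := by ring
  t := -(det2 n (toR e) • toR e)

lemma ofPhi_map (n : ℝ × ℝ) (e : ℤ × ℤ) (u : ℝ × ℝ) : (ofPhi n e).map u = phi n e u := by
  ext
  · simp only [ofPhi, map, lin, phi, det2, toR, Prod.fst_add, Prod.fst_sub, Prod.snd_sub,
      Prod.smul_fst, Prod.fst_neg, smul_eq_mul]
    push_cast; ring
  · simp only [ofPhi, map, lin, phi, det2, toR, Prod.snd_add, Prod.fst_sub, Prod.snd_sub,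
      Prod.smul_snd, Prod.snd_neg, smul_eq_mul]
    push_cast; ring

lemma ofPhi_linZ (n : ℝ × ℝ) (e : ℤ × ℤ) (u : ℤ × ℤ) : (ofPhi n e).linZ u = monoZ e u := by
  ext
  · simp only [ofPhi, linZ, monoZ, detZ, Prod.fst_add, Prod.smul_fst, smul_eq_mul]
    ring
  · simp only [ofPhi, linZ, monoZ, detZ, Prod.snd_add, Prod.smul_snd, smul_eq_mul]
    ring

lemma phiInv_phi (n : ℝ × ℝ) (e : ℤ × ℤ) (u : ℝ × ℝ) : phiInv n e (phi n e u) = u := by
  ext
  · simp only [phi, phiInv, det2, toR, Prod.fst_add, Prod.fst_sub, Prod.snd_sub,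
      Prod.smul_fst, Prod.snd_add, Prod.smul_snd, smul_eq_mul]
    ring
  · simp only [phi, phiInv, det2, toR, Prod.fst_add, Prod.fst_sub, Prod.snd_sub,
      Prod.smul_fst, Prod.snd_add, Prod.smul_snd, smul_eq_mul]
    ring
lemma phi_phiInv (n : ℝ × ℝ) (e : ℤ × ℤ) (u : ℝ × ℝ) : phi n e (phiInv n e u) = u := by
  ext
  · simp only [phi, phiInv, det2, toR, Prod.fst_add, Prod.fst_sub, Prod.snd_sub,
      Prod.smul_fst, Prod.snd_add, Prod.smul_snd, smul_eq_mul]
    ring
  · simp only [phi, phiInv, det2, toR, Prod.fst_add, Prod.fst_sub, Prod.snd_sub,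
      Prod.smul_fst, Prod.snd_add, Prod.smul_snd, smul_eq_mul]
    ring
lemma monoInvZ_monoZ (e u : ℤ × ℤ) : monoInvZ e (monoZ e u) = u := by
  ext
  · simp only [monoZ, monoInvZ, detZ, Prod.fst_add, Prod.fst_sub, Prod.snd_sub,
      Prod.smul_fst, Prod.snd_add, Prod.smul_snd, smul_eq_mul]
    ring
  · simp only [monoZ, monoInvZ, detZ, Prod.fst_add, Prod.fst_sub, Prod.snd_sub,
      Prod.smul_fst, Prod.snd_add, Prod.smul_snd, smul_eq_mul]
    ring
lemma monoZ_monoInvZ (e u : ℤ × ℤ) : monoZ e (monoInvZ e u) = u := by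
  ext
  · simp only [monoZ, monoInvZ, detZ, Prod.fst_add, Prod.fst_sub, Prod.snd_sub,
      Prod.smul_fst, Prod.snd_add, Prod.smul_snd, smul_eq_mul]
    ring
  · simp only [monoZ, monoInvZ, detZ, Prod.fst_add, Prod.fst_sub, Prod.snd_sub,
      Prod.smul_fst, Prod.snd_add, Prod.smul_snd, smul_eq_mul]
    ring

lemma ofPhi_inv_map (n : ℝ × ℝ) (e : ℤ × ℤ) (u : ℝ × ℝ) :
    (ofPhi n e).inv.map u = phiInv n e u := by
  rw [← phi_phiInv n e u, ← ofPhi_map, inv_map_map, ofPhi_map, phi_phiInv]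
lemma ofPhi_inv_linZ (n : ℝ × ℝ) (e : ℤ × ℤ) (u : ℤ × ℤ) :
    (ofPhi n e).inv.linZ u = monoInvZ e u := by
  rw [← monoZ_monoInvZ e u, ← ofPhi_linZ n, inv_linZ_linZ, ofPhi_linZ, monoZ_monoInvZ]

lemma clock_to_anti {D D' : Diagram} {i : Fin 4} (H : MutateClock D i D') :
    MutateAnti D i ((ofPhi (D.node i).pos (D.node i).dir).inv.act D') := by
  set n := (D.node i).pos
  set e := (D.node i).dir
  have hm : (ofPhi n e).inv.map = phiInv n e := funext (ofPhi_inv_map n e)
  refine ⟨?_, ?_, ?_⟩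
  · show (ofPhi n e).inv.map '' D'.region = _
    rw [H.1, hm, Set.image_union, Set.image_image]
    congr 1
    have : (fun x => phiInv n e (phi n e x)) = id := funext (phiInv_phi n e)
    rw [this, Set.image_id]
  · show (⟨(ofPhi n e).inv.map (D'.node i).pos, (ofPhi n e).inv.linZ (D'.node i).dir⟩ : Node) = _
    rw [H.2.1, ofPhi_inv_map, ofPhi_inv_linZ]
    have e1 : phiInv n e (D.node i).pos = n := by simp [phiInv, n, det2]
    have e2 : monoInvZ e (-(D.node i).dir) = -e := by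
      show monoInvZ e (-e) = -e
      rw [monoInvZ, detZ_neg_left, detZ_self]; simp
    rw [e1, e2]
  · intro j hj
    rcases H.2.2 j hj with ⟨h1, h2⟩ | ⟨h1, h2⟩
    · right
      refine ⟨h1, ?_⟩
      show (⟨(ofPhi n e).inv.map (D'.node j).pos, (ofPhi n e).inv.linZ (D'.node j).dir⟩ : Node) = _
      rw [h2, ofPhi_inv_map, ofPhi_inv_linZ]
    · left
      refine ⟨h1, ?_⟩
      show (⟨(ofPhi n e).inv.map (D'.node j).pos, (ofPhi n e).inv.linZ (D'.node j).dir⟩ : Node) = _
      rw [h2, ofPhi_inv_map, ofPhi_inv_linZ, phiInv_phi, monoInvZ_monoZ]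

lemma act_act_inv (D : Diagram) : T.act (T.inv.act D) = D := by
  obtain ⟨R, nd⟩ := D
  simp only [act]
  congr 1
  · rw [Set.image_image]
    have : (fun x => T.map (T.inv.map x)) = id := funext T.map_inv_map
    rw [this, Set.image_id]
  · funext i
    rw [map_inv_map, linZ_inv_linZ]

end SAff

/-- every move keeps a modelled diagram modelled, with the same affine perimeter -/
theorem forward_step {D D' : Diagram} {G : GQuad} {σ : Equiv.Perm (Fin 4)} (M : Models D G σ)
    (H : Step D D') : ∃ (G' : GQuad) (σ' : Equiv.Perm (Fin 4)), Models D' G' σ' ∧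
      G'.per = G.per := by
  rcases H with h | ⟨i, h | h⟩
  · exact ⟨G, σ, M.forward_slide h, rfl⟩
  · exact M.forward_anti h
  · obtain ⟨G', σ', M', hper⟩ := M.forward_anti (SAff.clock_to_anti h)
    refine ⟨(SAff.ofPhi (D.node i).pos (D.node i).dir).actG G', σ', ?_, hper⟩
    have := (SAff.ofPhi (D.node i).pos (D.node i).dir).models_act M'
    rwa [SAff.act_act_inv] at this

end Pool.Agent.MP_fafc5c_gt
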