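import Pool.Agent.MP_fafc5c_gt.Small

set_option autoImplicit false
set_option linter.unusedVariables false

namespace Pool.Agent.MP_fafc5c_gt

open Filter Topology

lemma monoZ_neg (e u : ℤ × ℤ) : monoZ (-e) u = monoZ e u := by
  rw [monoZ, monoZ, detZ_neg_right, smul_neg, neg_smul, neg_neg]

lemma phi_neg (n : ℝ × ℝ) (e : ℤ × ℤ) (u : ℝ × ℝ) : phi n (-e) u = phi n e u := by
  rw [phi, phi, toR_neg, det2_neg_right, smul_neg, neg_smul, neg_neg]

lemma clockSide_neg (n : ℝ × ℝ) (e : ℤ × ℤ) : clockSide n (-e) = antiSide n e := by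
  ext u
  simp only [clockSide, antiSide, Set.mem_ofPred_eq, toR_neg, det2_neg_left]
  constructor <;> intro h <;> linarith

lemma antiSide_neg (n : ℝ × ℝ) (e : ℤ × ℤ) : antiSide n (-e) = clockSide n e := by
  ext u
  simp only [clockSide, antiSide, Set.mem_ofPred_eq, toR_neg, det2_neg_left]
  constructor <;> intro h <;> linarith

namespace GQuad

variable {G : GQuad}

lemma seg_nonpos {k : Fin 4} {s r : ℝ} (h0 : G.g (G.v k) ≤ 0)
    (h1 : G.g (G.v k + s • toR (G.e k)) ≤ 0) (hr0 : 0 ≤ r) (hr : r ≤ s) :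
    G.g (G.v k + r • toR (G.e k)) ≤ 0 := by
  rw [G.g_ray] at h1 ⊢
  rcases le_total 0 (detZ (G.e 0) (G.e k) : ℝ) with h | h
  · have := mul_le_mul_of_nonneg_right hr h
    linarith
  · have := mul_nonpos_of_nonneg_of_nonpos hr0 h
    linarith

lemma seg_nonneg {k : Fin 4} {s r : ℝ} (h0 : 0 ≤ G.g (G.v k))
    (h1 : 0 ≤ G.g (G.v k + s • toR (G.e k))) (hr0 : 0 ≤ r) (hr : r ≤ s) :
    0 ≤ G.g (G.v k + r • toR (G.e k)) := by
  rw [G.g_ray] at h1 ⊢
  rcases le_total 0 (detZ (G.e 0) (G.e k) : ℝ) with h | h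
  · have := mul_nonneg hr0 h
    linarith
  · have := mul_le_mul_of_nonpos_right hr h
    linarith

end GQuad

namespace Models

variable {D D' : Diagram} {G G' : GQuad} {σ σ' : Equiv.Perm (Fin 4)}

lemma cut_anti (M : Models D G σ) (k : Fin 4) (h0 : G.g (G.v k) ≤ 0)
    (h1 : G.g (D.node (σ k)).pos ≤ 0) :
    D.cut (σ k) ⊆ antiSide (D.node (σ 0)).pos (D.node (σ 0)).dir := by
  obtain ⟨s, hs, hpos⟩ := M.pos k
  rw [hpos] at h1
  intro u hu
  rw [M.mem_cut k hs hpos] at hu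
  obtain ⟨r, hr0, hr, rfl⟩ := hu
  rw [M.antiSide_eq]
  exact GQuad.seg_nonpos h0 h1 hr0 hr

lemma cut_clock (M : Models D G σ) (k : Fin 4) (h0 : 0 ≤ G.g (G.v k))
    (h1 : 0 ≤ G.g (D.node (σ k)).pos) :
    D.cut (σ k) ⊆ clockSide (D.node (σ 0)).pos (D.node (σ 0)).dir := by
  obtain ⟨s, hs, hpos⟩ := M.pos k
  rw [hpos] at h1
  intro u hu
  rw [M.mem_cut k hs hpos] at hu
  obtain ⟨r, hr0, hr, rfl⟩ := hu
  rw [M.clockSide_eq]
  exact GQuad.seg_nonneg h0 h1 hr0 hr

lemma small_anti {s : ℝ} (hs : G.Small s) (k : Fin 4) (h0 : G.g (G.v k) ≤ 0)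
    (hz : G.g (G.v k) = 0 → detZ (G.e 0) (G.e k) ≤ 0) :
    (G.mk' σ s).cut (σ k) ⊆
      antiSide ((G.mk' σ s).node (σ 0)).pos ((G.mk' σ s).node (σ 0)).dir := by
  refine (G.models_mk' σ hs).cut_anti k h0 ?_
  rw [G.mk'_node]
  rcases h0.lt_or_eq with h | h
  · exact (hs.sneg k h s hs.pos.le le_rfl).le
  · show G.g (G.v k + s • toR (G.e k)) ≤ 0
    rw [G.g_ray, h, zero_add]
    have : (detZ (G.e 0) (G.e k) : ℝ) ≤ 0 := by exact_mod_cast hz h
    exact mul_nonpos_of_nonneg_of_nonpos hs.pos.le this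

lemma small_clock {s : ℝ} (hs : G.Small s) (k : Fin 4) (h0 : 0 ≤ G.g (G.v k))
    (hz : G.g (G.v k) = 0 → 0 ≤ detZ (G.e 0) (G.e k)) :
    (G.mk' σ s).cut (σ k) ⊆
      clockSide ((G.mk' σ s).node (σ 0)).pos ((G.mk' σ s).node (σ 0)).dir := by
  refine (G.models_mk' σ hs).cut_clock k h0 ?_
  rw [G.mk'_node]
  rcases h0.lt_or_eq with h | h
  · exact (hs.spos k h s hs.pos.le le_rfl).le
  · show 0 ≤ G.g (G.v k + s • toR (G.e k))
    rw [G.g_ray, ← h, zero_add]
    have : (0:ℝ) ≤ (detZ (G.e 0) (G.e k) : ℝ) := by exact_mod_cast hz h.symm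
    exact mul_nonneg hs.pos.le this

lemma exists_anti_L (C : G.LC) {s : ℝ} (hs : G.Small s) (σ : Equiv.Perm (Fin 4)) :
    ∃ D', MutateAnti (G.mk' σ s) (σ 0) D' := by
  apply exists_mutateAnti
  intro j hj
  obtain ⟨k, rfl⟩ := σ.surjective j
  have hk : k ≠ 0 := fun h => hj (by rw [h])
  fin_cases k
  · exact absurd rfl hk
  · exact Or.inr (small_anti hs 1 (g1_data G).1 (g1_data G).2)
  · exact Or.inl (small_clock hs 2 (g2_data_L C).1 (g2_data_L C).2)
  · exact Or.inl (small_clock hs 3 (g3_data G).1 (g3_data G).2)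

lemma exists_anti_R (C : G.RC) {s : ℝ} (hs : G.Small s) (σ : Equiv.Perm (Fin 4)) :
    ∃ D', MutateAnti (G.mk' σ s) (σ 0) D' := by
  apply exists_mutateAnti
  intro j hj
  obtain ⟨k, rfl⟩ := σ.surjective j
  have hk : k ≠ 0 := fun h => hj (by rw [h])
  fin_cases k
  · exact absurd rfl hk
  · exact Or.inr (small_anti hs 1 (g1_data G).1 (g1_data G).2)
  · exact Or.inr (small_anti hs 2 (g2_data_R C).1 (g2_data_R C).2)
  · exact Or.inl (small_clock hs 3 (g3_data G).1 (g3_data G).2)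

/-- the region part of the inverse mutation -/
lemma inverse_region (M : Models D G σ) (H : MutateAnti D (σ 0) D')
    (hR : G.MutRegion D'.region) :
    D.region = phi (D'.node (σ 0)).pos (D'.node (σ 0)).dir ''
        (D'.region ∩ clockSide (D'.node (σ 0)).pos (D'.node (σ 0)).dir) ∪
      (D'.region ∩ antiSide (D'.node (σ 0)).pos (D'.node (σ 0)).dir) := by
  rw [H.2.1]
  show D.region = phi (D.node (σ 0)).pos (-(D.node (σ 0)).dir) ''
        (D'.region ∩ clockSide (D.node (σ 0)).pos (-(D.node (σ 0)).dir)) ∪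
      (D'.region ∩ antiSide (D.node (σ 0)).pos (-(D.node (σ 0)).dir))
  have hphi : phi (D.node (σ 0)).pos (-(D.node (σ 0)).dir) = G.shf := by
    funext u
    rw [phi_neg, M.phi_eq]
  rw [clockSide_neg, antiSide_neg, M.clockSide_eq, M.antiSide_eq, hphi, M.region]
  ext u
  constructor
  · intro hu
    rcases le_total 0 (G.g u) with h | h
    · exact Or.inr ⟨(hR u).mpr (Or.inl ⟨h, hu⟩), h⟩
    · left
      refine ⟨G.shr u, ⟨(hR _).mpr (Or.inr ⟨?_, ?_⟩), ?_⟩, G.shf_shr u⟩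
      · rw [G.g_shr]; exact h
      · rw [G.shf_shr]; exact hu
      · show G.g (G.shr u) ≤ 0
        rw [G.g_shr]; exact h
  · rintro (⟨w, ⟨h1, h2⟩, rfl⟩ | ⟨h1, h2⟩)
    · rcases (hR w).mp h1 with ⟨h3, h4⟩ | ⟨h3, h4⟩
      · have h5 : G.g w = 0 := le_antisymm h2 h3
        rw [GQuad.shf, h5, zero_smul, sub_zero]
        exact h4
      · exact h4
    · rcases (hR u).mp h1 with ⟨h3, h4⟩ | ⟨h3, h4⟩
      · exact h4
      · have h5 : G.g u = 0 := le_antisymm h3 h2
        rw [GQuad.shf, h5, zero_smul, sub_zero] at h4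
        exact h4

/-- the node part of the inverse mutation, for a node that is not moved -/
lemma inverse_unmoved (M : Models D G σ) (M' : Models D' G' σ') (H : MutateAnti D (σ 0) D')
    {c k : Fin 4} (hσ : σ' c = σ k) (hn : D'.node (σ k) = D.node (σ k))
    (hv : G'.v c = G.v k) (he : G'.e c = G.e k) (h0 : 0 ≤ G.g (G.v k))
    (h1 : 0 ≤ G.g (D.node (σ k)).pos) :
    (D'.cut (σ k) ⊆ antiSide (D'.node (σ 0)).pos (D'.node (σ 0)).dir ∧
        D.node (σ k) = D'.node (σ k)) := by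
  refine ⟨?_, hn.symm⟩
  rw [H.2.1]
  show D'.cut (σ k) ⊆ antiSide (D.node (σ 0)).pos (-(D.node (σ 0)).dir)
  rw [antiSide_neg, M.clockSide_eq]
  obtain ⟨s, hs, hpos⟩ := M.pos k
  have hpos' : (D'.node (σ' c)).pos = G'.v c + s • toR (G'.e c) := by
    rw [hσ, hn, hv, he, hpos]
  intro u hu
  rw [← hσ, M'.mem_cut c hs hpos'] at hu
  obtain ⟨r, hr0, hr, rfl⟩ := hu
  rw [hv, he]
  rw [hpos] at h1
  exact GQuad.seg_nonneg h0 h1 hr0 hr

/-- the node part of the inverse mutation, for a node that is moved -/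
lemma inverse_moved (M : Models D G σ) (M' : Models D' G' σ') (H : MutateAnti D (σ 0) D')
    {c k : Fin 4} (hσ : σ' c = σ k)
    (hn : D'.node (σ k) = ⟨G.shr (D.node (σ k)).pos, -monoInvZ (G.e 0) (G.e k)⟩)
    (hv : G'.v c = G.shr (G.v k)) (he : G'.e c = monoInvZ (G.e 0) (G.e k))
    (h0 : G.g (G.v k) ≤ 0) (h1 : G.g (D.node (σ k)).pos ≤ 0) :
    (D'.cut (σ k) ⊆ clockSide (D'.node (σ 0)).pos (D'.node (σ 0)).dir ∧
        D.node (σ k) = ⟨phi (D'.node (σ 0)).pos (D'.node (σ 0)).dir (D'.node (σ k)).pos,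
          monoZ (D'.node (σ 0)).dir (D'.node (σ k)).dir⟩) := by
  obtain ⟨s, hs, hpos⟩ := M.pos k
  constructor
  · rw [H.2.1]
    show D'.cut (σ k) ⊆ clockSide (D.node (σ 0)).pos (-(D.node (σ 0)).dir)
    rw [clockSide_neg, M.antiSide_eq]
    have hpos' : (D'.node (σ' c)).pos = G'.v c + s • toR (G'.e c) := by
      rw [hσ, hn, hv, he, hpos, G.shr_ray]
    intro u hu
    rw [← hσ, M'.mem_cut c hs hpos'] at hu
    obtain ⟨r, hr0, hr, rfl⟩ := hu
    rw [hv, he, ← G.shr_ray]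
    show G.g (G.shr (G.v k + r • toR (G.e k))) ≤ 0
    rw [G.g_shr]
    rw [hpos] at h1
    exact GQuad.seg_nonpos h0 h1 hr0 hr
  · rw [H.2.1]
    show D.node (σ k) = ⟨phi (D.node (σ 0)).pos (-(D.node (σ 0)).dir) (D'.node (σ k)).pos,
          monoZ (-(D.node (σ 0)).dir) (D'.node (σ k)).dir⟩
    rw [phi_neg, monoZ_neg, M.phi_eq, hn, G.shf_shr]
    have e1 : monoZ (D.node (σ 0)).dir (-monoInvZ (G.e 0) (G.e k)) = (D.node (σ k)).dir := by
      rw [M.dir, M.dir, monoZ_neg]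
      have : -monoInvZ (G.e 0) (G.e k) = monoInvZ (G.e 0) (-(G.e k)) := by
        rw [monoInvZ, monoInvZ, detZ_neg_left, neg_smul]; abel
      rw [this, SAff.monoZ_monoInvZ]
    rw [e1]

lemma inverse_L (M : Models D G σ) (C : G.LC) (H : MutateAnti D (σ 0) D') :
    MutateClock D' (σ 0) D := by
  have M' := M.forward_L C H
  have hR : G.MutRegion D'.region := by
    rw [M'.region]; exact GQuad.mutRegion_L C
  obtain ⟨n1, g1⟩ := M.node_moved H (k := 1) (by decide) (g1_data G).1 (g1_data G).2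
  obtain ⟨n2, g2⟩ := M.node_unmoved H (k := 2) (by decide) (g2_data_L C).1 (g2_data_L C).2
  obtain ⟨n3, g3⟩ := M.node_unmoved H (k := 3) (by decide) (g3_data G).1 (g3_data G).2
  rw [M.moved_node_eq] at n1
  refine ⟨M.inverse_region H hR, ?_, ?_⟩
  · rw [H.2.1]
    show D.node (σ 0) = ⟨(D.node (σ 0)).pos, -(-(D.node (σ 0)).dir)⟩
    rw [neg_neg]
  · intro j hj
    obtain ⟨k, rfl⟩ := σ.surjective j
    have hk : k ≠ 0 := fun h => hj (by rw [h])
    fin_cases k
    · exact absurd rfl hk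
    · right
      exact M.inverse_moved M' H (c := 0) (k := 1) (by show σ (permL 0) = _; rw [permL0]) n1
        G.shr_v1.symm rfl (g1_data G).1 g1
    · left
      exact M.inverse_unmoved M' H (c := 2) (k := 2) (by show σ (permL 2) = _; rw [permL2]) n2
        rfl rfl (g2_data_L C).1 g2
    · left
      exact M.inverse_unmoved M' H (c := 3) (k := 3) (by show σ (permL 3) = _; rw [permL3]) n3
        rfl rfl (g3_data G).1 g3

lemma Rv1_eq (C : G.RC) : (GQuad.Rmove C).v 1 = G.shr (G.v 2) := by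
  show G.v 0 + G.l 0 • toR (G.h 3) + G.l 1 • toR (monoInvZ (G.e 0) (G.h 1)) = _
  rw [G.v2, G.shr_add, G.shr_v1, toR_monoInv (G.e 0) (G.h 1), det2_smul_left, smul_sub, smul_smul]

lemma inverse_R (M : Models D G σ) (C : G.RC) (H : MutateAnti D (σ 0) D') :
    MutateClock D' (σ 0) D := by
  have M' := M.forward_R C H
  have hR : G.MutRegion D'.region := by
    rw [M'.region]; exact GQuad.mutRegion_R C
  obtain ⟨n1, g1⟩ := M.node_moved H (k := 1) (by decide) (g1_data G).1 (g1_data G).2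
  obtain ⟨n2, g2⟩ := M.node_moved H (k := 2) (by decide) (g2_data_R C).1 (g2_data_R C).2
  obtain ⟨n3, g3⟩ := M.node_unmoved H (k := 3) (by decide) (g3_data G).1 (g3_data G).2
  rw [M.moved_node_eq] at n1 n2
  refine ⟨M.inverse_region H hR, ?_, ?_⟩
  · rw [H.2.1]
    show D.node (σ 0) = ⟨(D.node (σ 0)).pos, -(-(D.node (σ 0)).dir)⟩
    rw [neg_neg]
  · intro j hj
    obtain ⟨k, rfl⟩ := σ.surjective j
    have hk : k ≠ 0 := fun h => hj (by rw [h])
    fin_cases k
    · exact absurd rfl hk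
    · right
      exact M.inverse_moved M' H (c := 0) (k := 1) (by show σ (permR 0) = _; rw [permR0]) n1
        G.shr_v1.symm rfl (g1_data G).1 g1
    · right
      exact M.inverse_moved M' H (c := 1) (k := 2) (by show σ (permR 1) = _; rw [permR1]) n2
        (Rv1_eq C) rfl (g2_data_R C).1 g2
    · left
      exact M.inverse_unmoved M' H (c := 3) (k := 3) (by show σ (permR 3) = _; rw [permR3]) n3
        rfl rfl (g3_data G).1 g3

/-- all nodes except the one at the corner `1` keep their parameter -/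
lemma pos_L (M : Models D G σ) (C : G.LC) (H : MutateAnti D (σ 0) D') {s : ℝ}
    (hpos : ∀ k, k ≠ 0 → (D.node (σ k)).pos = G.v k + s • toR (G.e k)) {c : Fin 4} (hc : c ≠ 1) :
    (D'.node ((permL.trans σ) c)).pos =
      (GQuad.Lmove C).v c + s • toR ((GQuad.Lmove C).e c) := by
  obtain ⟨n1, g1⟩ := M.node_moved H (k := 1) (by decide) (g1_data G).1 (g1_data G).2
  obtain ⟨n2, g2⟩ := M.node_unmoved H (k := 2) (by decide) (g2_data_L C).1 (g2_data_L C).2
  obtain ⟨n3, g3⟩ := M.node_unmoved H (k := 3) (by decide) (g3_data G).1 (g3_data G).2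
  rw [M.moved_node_eq] at n1
  fin_cases c
  · show (D'.node (σ (permL 0))).pos = G.v 0 + G.l 0 • toR (G.h 3) +
        s • toR (monoInvZ (G.e 0) (G.e 1))
    rw [permL0, n1, hpos 1 (by decide), G.shr_ray, G.shr_v1]
  · exact absurd rfl hc
  · show (D'.node (σ (permL 2))).pos = G.v 2 + s • toR (G.e 2)
    rw [permL2, n2, hpos 2 (by decide)]
  · show (D'.node (σ (permL 3))).pos = G.v 3 + s • toR (G.e 3)
    rw [permL3, n3, hpos 3 (by decide)]

/-- all nodes except the one at the corner `2` keep their parameter -/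
lemma pos_R (M : Models D G σ) (C : G.RC) (H : MutateAnti D (σ 0) D') {s : ℝ}
    (hpos : ∀ k, k ≠ 0 → (D.node (σ k)).pos = G.v k + s • toR (G.e k)) {c : Fin 4} (hc : c ≠ 2) :
    (D'.node ((permR.trans σ) c)).pos =
      (GQuad.Rmove C).v c + s • toR ((GQuad.Rmove C).e c) := by
  obtain ⟨n1, g1⟩ := M.node_moved H (k := 1) (by decide) (g1_data G).1 (g1_data G).2
  obtain ⟨n2, g2⟩ := M.node_moved H (k := 2) (by decide) (g2_data_R C).1 (g2_data_R C).2
  obtain ⟨n3, g3⟩ := M.node_unmoved H (k := 3) (by decide) (g3_data G).1 (g3_data G).2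
  rw [M.moved_node_eq] at n1 n2
  fin_cases c
  · show (D'.node (σ (permR 0))).pos = G.v 0 + G.l 0 • toR (G.h 3) +
        s • toR (monoInvZ (G.e 0) (G.e 1))
    rw [permR0, n1, hpos 1 (by decide), G.shr_ray, G.shr_v1]
  · show (D'.node (σ (permR 1))).pos = (GQuad.Rmove C).v 1 + s • toR (monoInvZ (G.e 0) (G.e 2))
    rw [permR1, n2, hpos 2 (by decide), G.shr_ray, Rv1_eq]
  · exact absurd rfl hc
  · show (D'.node (σ (permR 3))).pos = G.v 3 + s • toR (G.e 3)
    rw [permR3, n3, hpos 3 (by decide)]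

/-- shrinking all cuts keeps them apart -/
lemma nonCrossing_mono {D₁ D₂ : Diagram} (M₁ : Models D₁ G σ) (M₂ : Models D₂ G σ)
    (h : ∀ k, D₂.cut (σ k) ⊆ D₁.cut (σ k)) (hn : NonCrossing D₁) : NonCrossing D₂ := by
  intro i j hij u hu hi hj
  obtain ⟨a, rfl⟩ := σ.surjective i
  obtain ⟨b, rfl⟩ := σ.surjective j
  rw [M₂.dir, M₂.dir, ← M₁.dir, ← M₁.dir]
  rw [M₂.region, ← M₁.region] at hu
  exact hn _ _ hij u hu (h a hi) (h b hj)

lemma cut_subset {D₁ D₂ : Diagram} (M₁ : Models D₁ G σ) (M₂ : Models D₂ G σ) {k : Fin 4}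
    {s s' : ℝ} (hs : 0 < s) (hs' : 0 < s')
    (hpos : (D₁.node (σ k)).pos = G.v k + s • toR (G.e k))
    (hpos' : (D₂.node (σ k)).pos = G.v k + s' • toR (G.e k)) (hle : s' ≤ s) :
    D₂.cut (σ k) ⊆ D₁.cut (σ k) := by
  intro u hu
  rw [M₂.mem_cut k hs' hpos'] at hu
  obtain ⟨r, hr0, hr, rfl⟩ := hu
  rw [M₁.mem_cut k hs hpos]
  exact ⟨r, hr0, hr.trans hle, rfl⟩

lemma slideAt_pos {D₁ D₂ : Diagram} {k : Fin 4} {s s' : ℝ}
    (hpos : (D₁.node (σ k)).pos = G.v k + s • toR (G.e k))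
    (hpos' : (D₂.node (σ k)).pos = G.v k + s' • toR (G.e k)) (t : ℝ) :
    ((slideAt D₁ D₂ t).node (σ k)).pos = G.v k + ((1 - t) * s + t * s') • toR (G.e k) := by
  show (1 - t) • (D₁.node (σ k)).pos + t • (D₂.node (σ k)).pos = _
  rw [hpos, hpos', smul_add, smul_add, smul_smul, smul_smul, add_smul]
  have : (1 - t) • G.v k + ((1 - t) * s) • toR (G.e k) + (t • G.v k + (t * s') • toR (G.e k)) =
      ((1 - t) • G.v k + t • G.v k) + (((1 - t) * s) • toR (G.e k) + (t * s') • toR (G.e k)) := by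
    abel
  rw [this, ← add_smul (1 - t) t, sub_add_cancel, one_smul]

lemma models_slideAt {D₁ D₂ : Diagram} (M₁ : Models D₁ G σ) (M₂ : Models D₂ G σ) {t : ℝ}
    (ht0 : 0 ≤ t) (ht1 : t ≤ 1) : Models (slideAt D₁ D₂ t) G σ where
  region := M₁.region
  dir := M₁.dir
  pos k := by
    obtain ⟨s, hs, hpos⟩ := M₁.pos k
    obtain ⟨s', hs', hpos'⟩ := M₂.pos k
    refine ⟨(1 - t) * s + t * s', ?_, slideAt_pos hpos hpos' t⟩
    rcases ht0.lt_or_eq with h | h
    · have := mul_pos h hs'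
      have := mul_nonneg (sub_nonneg.mpr ht1) hs.le
      linarith
    · rw [← h]; simpa using hs
  int k := by
    have := G.convex_region.interior (M₁.int k) (M₂.int k) (sub_nonneg.mpr ht1) ht0 (by ring)
    exact this

/-- shrinking the cuts by a slide, and the reverse slide -/
lemma shrink {D₁ D₂ : Diagram} (M₁ : Models D₁ G σ) (M₂ : Models D₂ G σ)
    (h : ∀ k, ∃ s s' : ℝ, 0 < s ∧ 0 < s' ∧ (D₁.node (σ k)).pos = G.v k + s • toR (G.e k) ∧
      (D₂.node (σ k)).pos = G.v k + s' • toR (G.e k) ∧ s' ≤ s) (hn : NonCrossing D₁) :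
    StepNC D₁ D₂ ∧ StepNC D₂ D₁ := by
  have hc : ∀ k, D₂.cut (σ k) ⊆ D₁.cut (σ k) := by
    intro k
    obtain ⟨s, s', hs, hs', hpos, hpos', hle⟩ := h k
    exact cut_subset M₁ M₂ hs hs' hpos hpos' hle
  have hn₂ := nonCrossing_mono M₁ M₂ hc hn
  have key : ∀ t, 0 ≤ t → t ≤ 1 → NonCrossing (slideAt D₁ D₂ t) := by
    intro t ht0 ht1
    have M := models_slideAt M₁ M₂ ht0 ht1
    refine nonCrossing_mono M₁ M (fun k => ?_) hn
    obtain ⟨s, s', hs, hs', hpos, hpos', hle⟩ := h k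
    have h1 := mul_le_mul_of_nonneg_left hle ht0
    have h3 : 0 < (1 - t) * s + t * s' := by
      rcases ht0.lt_or_eq with h | h
      · have := mul_pos h hs'
        have := mul_nonneg (sub_nonneg.mpr ht1) hs.le
        linarith
      · rw [← h]; simpa using hs
    exact cut_subset M₁ M hs h3 hpos (slideAt_pos hpos hpos' t) (by linarith)
  refine ⟨⟨hn, hn₂, Or.inl ⟨M₁.slide M₂, key⟩⟩, ⟨hn₂, hn, Or.inl ⟨M₂.slide M₁, ?_⟩⟩⟩
  intro t ht0 ht1
  have M := models_slideAt M₂ M₁ ht0 ht1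
  refine nonCrossing_mono M₁ M (fun k => ?_) hn
  obtain ⟨s, s', hs, hs', hpos, hpos', hle⟩ := h k
  have h1 := mul_le_mul_of_nonneg_left hle (sub_nonneg.mpr ht1)
  have h3 : 0 < (1 - t) * s' + t * s := by
    rcases ht0.lt_or_eq with h | h
    · have := mul_pos h hs
      have := mul_nonneg (sub_nonneg.mpr ht1) hs'.le
      linarith
    · rw [← h]; simpa using hs'
  exact cut_subset M₁ M hs h3 hpos (slideAt_pos hpos' hpos t) (by linarith)

/-- two diagrams without crossing cuts that are modelled in the same way are joined by two slides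
without crossing cuts -/
lemma slide_path {D₁ D₂ : Diagram} (M₁ : Models D₁ G σ) (M₂ : Models D₂ G σ)
    (h₁ : NonCrossing D₁) (h₂ : NonCrossing D₂) :
    Relation.ReflTransGen StepNC D₁ D₂ := by
  choose s hs hpos using M₁.pos
  choose s' hs' hpos' using M₂.pos
  set D₃ : Diagram := ⟨G.region, fun j =>
    ⟨G.v (σ.symm j) + min (s (σ.symm j)) (s' (σ.symm j)) • toR (G.e (σ.symm j)),
      -G.e (σ.symm j)⟩⟩ with hD₃
  have hnode : ∀ k, D₃.node (σ k) = ⟨G.v k + min (s k) (s' k) • toR (G.e k), -G.e k⟩ := by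
    intro k; simp [hD₃]
  have M₃ : Models D₃ G σ := {
    region := rfl
    dir := fun k => by rw [hnode]
    pos := fun k => ⟨min (s k) (s' k), lt_min (hs k) (hs' k), by rw [hnode]⟩
    int := fun k => by
      rw [hnode]
      show G.v k + min (s k) (s' k) • toR (G.e k) ∈ _
      rcases min_choice (s k) (s' k) with h | h
      · rw [h, ← hpos]; exact M₁.int k
      · rw [h, ← hpos']; exact M₂.int k }
  have a := (shrink M₁ M₃ (fun k => ⟨s k, min (s k) (s' k), hs k, lt_min (hs k) (hs' k), hpos k,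
    by rw [hnode], min_le_left _ _⟩) h₁).1
  have b := (shrink M₂ M₃ (fun k => ⟨s' k, min (s k) (s' k), hs' k, lt_min (hs k) (hs' k), hpos' k,
    by rw [hnode], min_le_right _ _⟩) h₂).2
  exact (Relation.ReflTransGen.single a).tail b

end Models

/-- the realisation of the two kinds of moves, backwards -/
lemma realise_L {G : GQuad} (C : G.LC) (σ : Equiv.Perm (Fin 4)) :
    ∃ D D' : Diagram, Models D G σ ∧ Models D' (GQuad.Lmove C) (Models.permL.trans σ) ∧
      NonCrossing D ∧ NonCrossing D' ∧ MutateClock D' (σ 0) D := by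
  obtain ⟨s, hs, hs'⟩ := (G.ev_small.and ((GQuad.Lmove C).rotBy 1).ev_small).exists
  have M := G.models_mk' σ hs
  obtain ⟨D', H⟩ := Models.exists_anti_L C hs σ
  have M' := M.forward_L C H
  refine ⟨_, D', M, M', ?_, ?_, M.inverse_L C H⟩
  · exact M.nonCrossing_of_small hs (fun k _ => by rw [G.mk'_node])
  · refine (M'.rotBy 1).nonCrossing_of_small hs' (fun k hk => ?_)
    show (D'.node ((Models.permL.trans σ) (k + 1))).pos =
      (GQuad.Lmove C).v (k + 1) + s • toR ((GQuad.Lmove C).e (k + 1))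
    exact M.pos_L C H (fun k _ => by rw [G.mk'_node]) (fun h => hk (by simpa using h))

lemma realise_R {G : GQuad} (C : G.RC) (σ : Equiv.Perm (Fin 4)) :
    ∃ D D' : Diagram, Models D G σ ∧ Models D' (GQuad.Rmove C) (Models.permR.trans σ) ∧
      NonCrossing D ∧ NonCrossing D' ∧ MutateClock D' (σ 0) D := by
  obtain ⟨s, hs, hs'⟩ := (G.ev_small.and ((GQuad.Rmove C).rotBy 2).ev_small).exists
  have M := G.models_mk' σ hs
  obtain ⟨D', H⟩ := Models.exists_anti_R C hs σ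
  have M' := M.forward_R C H
  refine ⟨_, D', M, M', ?_, ?_, M.inverse_R C H⟩
  · exact M.nonCrossing_of_small hs (fun k _ => by rw [G.mk'_node])
  · refine (M'.rotBy 2).nonCrossing_of_small hs' (fun k hk => ?_)
    show (D'.node ((Models.permR.trans σ) (k + 2))).pos =
      (GQuad.Rmove C).v (k + 2) + s • toR ((GQuad.Rmove C).e (k + 2))
    exact M.pos_R C H (fun k _ => by rw [G.mk'_node]) (fun h => hk (by simpa using h))

end Pool.Agent.MP_fafc5c_gt
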