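import Mathlib

set_option autoImplicit false

/-!
Almost toric base diagrams with four nodes, nodal slides and mutations,
as used in the problem MP_fafc5c_gt.
-/

namespace Pool.Agent.MP_fafc5c_gt

/-- `det2 u v = u₁ v₂ - u₂ v₁` for real vectors. -/
def det2 (u v : ℝ × ℝ) : ℝ := u.1 * v.2 - u.2 * v.1

/-- `detZ u v = u₁ v₂ - u₂ v₁` for integer vectors. -/
def detZ (u v : ℤ × ℤ) : ℤ := u.1 * v.2 - u.2 * v.1

/-- An integer vector seen as a real vector. -/
def toR (e : ℤ × ℤ) : ℝ × ℝ := ((e.1 : ℝ), (e.2 : ℝ))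

/-- The affine map `φ` fixing `n` whose linear part is the monodromy
`M_e(v) = v + (v₁ e₂ - v₂ e₁) e`. -/
def phi (n : ℝ × ℝ) (e : ℤ × ℤ) (v : ℝ × ℝ) : ℝ × ℝ :=
  v + det2 (v - n) (toR e) • toR e

/-- The inverse of `phi n e`. -/
def phiInv (n : ℝ × ℝ) (e : ℤ × ℤ) (v : ℝ × ℝ) : ℝ × ℝ :=
  v - det2 (v - n) (toR e) • toR e

/-- `M_e` on integer vectors. -/
def monoZ (e v : ℤ × ℤ) : ℤ × ℤ := v + detZ v e • e

/-- The inverse of `M_e` on integer vectors. -/
def monoInvZ (e v : ℤ × ℤ) : ℤ × ℤ := v - detZ v e • e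

/-- A base-node: its position and its primitive integer eigenvector.  As `M_e = M_{-e}`, an
eigenvector is only defined up to sign; we choose the sign for which the branch cut leaves the
node in the direction `dir`. -/
structure Node where
  pos : ℝ × ℝ
  dir : ℤ × ℤ

/-- A base diagram with four nodes: the underlying region and the nodes. -/
structure Diagram where
  region : Set (ℝ × ℝ)
  node : Fin 4 → Node

/-- The branch cut of the `i`-th node: the part in the region of the ray that starts at the node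
and has direction `dir`. -/
def Diagram.cut (D : Diagram) (i : Fin 4) : Set (ℝ × ℝ) :=
  {v | v ∈ D.region ∧ ∃ t : ℝ, 0 ≤ t ∧ v = (D.node i).pos + t • toR (D.node i).dir}

/-- The closed half plane clockwise of the cut at `n` with direction `e`. -/
def clockSide (n : ℝ × ℝ) (e : ℤ × ℤ) : Set (ℝ × ℝ) := {v | det2 (toR e) (v - n) ≤ 0}

/-- The closed half plane anticlockwise of the cut at `n` with direction `e`. -/
def antiSide (n : ℝ × ℝ) (e : ℤ × ℤ) : Set (ℝ × ℝ) := {v | 0 ≤ det2 (toR e) (v - n)}

/-- Nodal slide: every node may move along its eigenline inside the region. -/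
def Slide (D D' : Diagram) : Prop :=
  D'.region = D.region ∧ ∀ i, (D'.node i).dir = (D.node i).dir ∧
    (D'.node i).pos ∈ interior D.region ∧
    ∃ t : ℝ, (D'.node i).pos = (D.node i).pos + t • toR (D.node i).dir

/-- Mutation at the node `i`, turning its cut by 180 degrees anticlockwise: the new region is
`D₁ ∪ φ⁻¹(D₂)`.  The cut of every other node lies on one of the two sides of the eigenline of the
node `i`, and the node moves with that side. -/
def MutateAnti (D : Diagram) (i : Fin 4) (D' : Diagram) : Prop :=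
  D'.region = (D.region ∩ clockSide (D.node i).pos (D.node i).dir) ∪
      phiInv (D.node i).pos (D.node i).dir ''
        (D.region ∩ antiSide (D.node i).pos (D.node i).dir) ∧
    D'.node i = ⟨(D.node i).pos, -(D.node i).dir⟩ ∧
    ∀ j, j ≠ i →
      (D.cut j ⊆ clockSide (D.node i).pos (D.node i).dir ∧ D'.node j = D.node j) ∨
      (D.cut j ⊆ antiSide (D.node i).pos (D.node i).dir ∧
        D'.node j = ⟨phiInv (D.node i).pos (D.node i).dir (D.node j).pos,
          monoInvZ (D.node i).dir (D.node j).dir⟩)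

/-- Mutation at the node `i`, turning its cut by 180 degrees clockwise: the new region is
`φ(D₁) ∪ D₂`. -/
def MutateClock (D : Diagram) (i : Fin 4) (D' : Diagram) : Prop :=
  D'.region = phi (D.node i).pos (D.node i).dir ''
        (D.region ∩ clockSide (D.node i).pos (D.node i).dir) ∪
      (D.region ∩ antiSide (D.node i).pos (D.node i).dir) ∧
    D'.node i = ⟨(D.node i).pos, -(D.node i).dir⟩ ∧
    ∀ j, j ≠ i →
      (D.cut j ⊆ antiSide (D.node i).pos (D.node i).dir ∧ D'.node j = D.node j) ∨
      (D.cut j ⊆ clockSide (D.node i).pos (D.node i).dir ∧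
        D'.node j = ⟨phi (D.node i).pos (D.node i).dir (D.node j).pos,
          monoZ (D.node i).dir (D.node j).dir⟩)

/-- One move: a nodal slide or a mutation in either sense. -/
def Step (D D' : Diagram) : Prop :=
  Slide D D' ∨ ∃ i, MutateAnti D i D' ∨ MutateClock D i D'

/-- The corners of `R_{a,b}`. -/
def corner (a b : ℝ) : Fin 4 → ℝ × ℝ := ![(0, 0), (a, 0), (a, b), (0, b)]

/-- The vectors `(1,1)A` at the corners of `R_{a,b}`. -/
def diag : Fin 4 → ℤ × ℤ := ![(1, 1), (-1, 1), (-1, -1), (1, -1)]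

/-- `D` is `R_{a,b}` with nodal trades at all four corners. -/
def IsInitial (a b : ℝ) (D : Diagram) : Prop :=
  D.region = Set.Icc 0 a ×ˢ Set.Icc 0 b ∧
  ∃ σ : Equiv.Perm (Fin 4), ∀ k, (D.node (σ k)).dir = -diag k ∧
    (D.node (σ k)).pos ∈ interior D.region ∧
    ∃ s : ℝ, 0 < s ∧ (D.node (σ k)).pos = corner a b k + s • toR (diag k)

/-- `P` arises from `R_{a,b}`: some finite sequence of slides and mutations
yields a diagram with region `P`. -/
def Arises (a b : ℝ) (P : Set (ℝ × ℝ)) : Prop :=
  ∃ D₀ D : Diagram, IsInitial a b D₀ ∧ Relation.ReflTransGen Step D₀ D ∧ D.region = P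

/-- No two branch cuts cross: at a point of the interior of the region that lies on two cuts, the
two cuts have parallel directions. -/
def NonCrossing (D : Diagram) : Prop :=
  ∀ i j, i ≠ j → ∀ v ∈ interior D.region, v ∈ D.cut i → v ∈ D.cut j →
    detZ (D.node i).dir (D.node j).dir = 0

/-- The diagram at time `t` of the slide from `D` to `D'` in which every node moves with constant
speed. -/
def slideAt (D D' : Diagram) (t : ℝ) : Diagram where
  region := D.region
  node i := ⟨(1 - t) • (D.node i).pos + t • (D'.node i).pos, (D.node i).dir⟩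

/-- One move during which no two branch cuts cross: a mutation between two diagrams without
crossing cuts, or a slide without crossing cuts at any time. -/
def StepNC (D D' : Diagram) : Prop :=
  NonCrossing D ∧ NonCrossing D' ∧
    ((Slide D D' ∧ ∀ t : ℝ, 0 ≤ t → t ≤ 1 → NonCrossing (slideAt D D' t)) ∨
      ∃ i, MutateAnti D i D' ∨ MutateClock D i D')

/-- `P` arises from `R_{a,b}` in the strict sense that no two branch cuts ever cross. -/
def ArisesNC (a b : ℝ) (P : Set (ℝ × ℝ)) : Prop :=
  ∃ D₀ D : Diagram, IsInitial a b D₀ ∧ NonCrossing D₀ ∧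
    Relation.ReflTransGen StepNC D₀ D ∧ D.region = P

/-- Integral affine equivalence: `v ↦ vA + c` with `A ∈ GL(2,ℤ)` carries `P` onto `Q`. -/
def IntAffEquiv (P Q : Set (ℝ × ℝ)) : Prop :=
  ∃ α β γ δ : ℤ, (α * δ - β * γ = 1 ∨ α * δ - β * γ = -1) ∧ ∃ c : ℝ × ℝ,
    (fun v : ℝ × ℝ => (v.1 * α + v.2 * γ + c.1, v.1 * β + v.2 * δ + c.2)) '' P = Q

/-- `P` is a (nondegenerate, closed) triangle. -/
def IsTriangle (P : Set (ℝ × ℝ)) : Prop :=
  ∃ v : Fin 3 → ℝ × ℝ, 0 < det2 (v 1 - v 0) (v 2 - v 0) ∧ P = convexHull ℝ (Set.range v)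

/-- `P` is a convex quadrilateral: the convex hull of four points in strictly convex position,
listed anticlockwise. -/
def IsQuadrilateral (P : Set (ℝ × ℝ)) : Prop :=
  ∃ v : Fin 4 → ℝ × ℝ,
    (∀ i, 0 < det2 (v (i + 1) - v i) (v (i + 2) - v (i + 1))) ∧ P = convexHull ℝ (Set.range v)

/-- The corner data of a polygon with four edges.  The `h i` are the primitive edge vectors in
anticlockwise order; at the corner between the edges `i` and `i + 1` one has
`det (h i, h (i+1)) = p² ` and `h (i+1) - h i = p e` with `e` primitive, `p = p (i+1) > 0`,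
`e = e (i+1)`.  (These are the corners of type `1/p² (1, pq-1)`; the standard corner has
`p = 1`, and `e` is the eigenvector of the node produced by a nodal trade at the corner.) -/
structure CornerData (h e : Fin 4 → ℤ × ℤ) (p : Fin 4 → ℤ) : Prop where
  hprim : ∀ i, IsCoprime (h i).1 (h i).2
  eprim : ∀ i, IsCoprime (e i).1 (e i).2
  ppos : ∀ i, 0 < p i
  diff : ∀ i, h (i + 1) - h i = p (i + 1) • e (i + 1)
  det : ∀ i, detZ (h i) (h (i + 1)) = p (i + 1) ^ 2

/-- `Q` is a quadrilateral with vertices `v i` (anticlockwise), affine edge lengths `ℓ i`, and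
corner data `h, e, p`, such that all `e i` agree modulo `2`, the affine perimeter is `2 (a + b)`
and the area is `a b`. -/
def Good (a b : ℝ) (Q : Set (ℝ × ℝ)) : Prop :=
  ∃ (v : Fin 4 → ℝ × ℝ) (ℓ : Fin 4 → ℝ) (h e : Fin 4 → ℤ × ℤ) (p : Fin 4 → ℤ),
    CornerData h e p ∧
    (∀ i, 0 < ℓ i ∧ v (i + 1) = v i + ℓ i • toR (h i)) ∧
    Q = convexHull ℝ (Set.range v) ∧
    (∀ i j, (2 : ℤ) ∣ (e i).1 - (e j).1 ∧ (2 : ℤ) ∣ (e i).2 - (e j).2) ∧
    ∑ i, ℓ i = 2 * (a + b) ∧
    MeasureTheory.volume Q = ENNReal.ofReal (a * b)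

end Pool.Agent.MP_fafc5c_gt
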