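import Pool.Agent.MP_fafc5c_gt.Reach

set_option autoImplicit false
set_option linter.unusedVariables false

namespace Pool.Agent.MP_fafc5c_gt

open MeasureTheory

/-- total weight -/
def GQuad.wsum (G : GQuad) : ℤ := ∑ k, G.p k

lemma GQuad.wsum_rotBy (G : GQuad) (i : Fin 4) : (G.rotBy i).wsum = G.wsum :=
  Equiv.sum_comp (Equiv.addRight i) G.p

lemma GQuad.wsum_nonneg (G : GQuad) : 0 ≤ G.wsum :=
  Finset.sum_nonneg fun k _ => (G.ppos k).le

lemma GQuad.wsum_L {G : GQuad} (C : G.LC) :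
    (Lmove C).wsum = G.wsum - G.p 0 + detZ (G.e 0) (G.h 1) := by
  rw [wsum, wsum, Fin.sum_univ_four, Fin.sum_univ_four]
  show G.p 1 + detZ (G.e 0) (G.h 1) + G.p 2 + G.p 3 = _
  ring

lemma GQuad.wsum_R {G : GQuad} (C : G.RC) :
    (Rmove C).wsum = G.wsum - G.p 0 + detZ (G.e 0) (G.h 2) := by
  rw [wsum, wsum, Fin.sum_univ_four, Fin.sum_univ_four]
  show G.p 1 + G.p 2 + detZ (G.e 0) (G.h 2) + G.p 3 = _
  ring

/-- `x` -/
def GQuad.X (G : GQuad) : ℤ := detZ (G.h 0) (G.h 2)
/-- `y` -/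
def GQuad.Y (G : GQuad) : ℤ := detZ (G.h 1) (G.h 3)

lemma GQuad.X_rot1 (G : GQuad) : (G.rotBy 1).X = G.Y := rfl
lemma GQuad.Y_rot1 (G : GQuad) : (G.rotBy 1).Y = -G.X := by
  show detZ (G.h 2) (G.h 0) = - detZ (G.h 0) (G.h 2)
  rw [detZ_swap]
lemma GQuad.X_rot2 (G : GQuad) : (G.rotBy 2).X = -G.X := by
  show detZ (G.h 2) (G.h 0) = - detZ (G.h 0) (G.h 2)
  rw [detZ_swap]
lemma GQuad.Y_rot2 (G : GQuad) : (G.rotBy 2).Y = -G.Y := by
  show detZ (G.h 3) (G.h 1) = - detZ (G.h 1) (G.h 3)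
  rw [detZ_swap]
lemma GQuad.X_rot3 (G : GQuad) : (G.rotBy 3).X = -G.Y := by
  show detZ (G.h 3) (G.h 1) = - detZ (G.h 1) (G.h 3)
  rw [detZ_swap]
lemma GQuad.Y_rot3 (G : GQuad) : (G.rotBy 3).Y = G.X := rfl

/-- the hypotheses carried through the induction -/
structure Adm (a b : ℝ) (G : GQuad) : Prop where
  per : G.per = 2 * (a + b)
  vol : volume G.region = ENNReal.ofReal (a * b)

lemma Adm.rotBy {a b : ℝ} {G : GQuad} (A : Adm a b G) (i : Fin 4) : Adm a b (G.rotBy i) :=
  ⟨by rw [G.per_rotBy, A.per], by rw [G.region_rotBy, A.vol]⟩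
lemma Adm.L {a b : ℝ} {G : GQuad} (A : Adm a b G) (C : G.LC) : Adm a b (GQuad.Lmove C) :=
  ⟨by rw [GQuad.per_Lmove, A.per], by rw [GQuad.volume_Lmove, A.vol]⟩
lemma Adm.R {a b : ℝ} {G : GQuad} (A : Adm a b G) (C : G.RC) : Adm a b (GQuad.Rmove C) :=
  ⟨by rw [GQuad.per_Rmove, A.per], by rw [GQuad.volume_Rmove, A.vol]⟩

/-- all weights are `1` -/
def AllOne (G : GQuad) : Prop := ∀ k, G.p k = 1

lemma AllOne.rotBy {G : GQuad} (A : AllOne G) (i : Fin 4) : AllOne (G.rotBy i) := fun k => A _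

lemma AllOne.xy {G : GQuad} (A : AllOne G) : G.X * G.Y = 0 := by
  have := G.T.pluecker
  rw [A 0, A 1, A 2, A 3] at this
  simpa [GQuad.X, GQuad.Y] using this

lemma AllOne.even_x {G : GQuad} (A : AllOne G) (hy : G.Y = 0) : (2:ℤ) ∣ G.X := by
  -- `e 1 - e 2 = 2 h 1 - h 0 - h 2`, pair with `h 1`, `h 0`
  have h1 := G.T.h1
  have h2 := G.T.h2
  rw [A 1, one_smul] at h1
  rw [A 2, one_smul] at h2
  have d01 := G.T.d01
  have d12 := G.T.d12
  rw [A 1] at d01
  rw [A 2] at d12
  obtain ⟨⟨m, hm⟩, ⟨n, hn⟩⟩ := G.even 1 2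
  rw [h1, h2] at hm hn
  simp only [Prod.fst_sub, Prod.snd_sub] at hm hn
  refine ⟨(G.h 0).2 * m - (G.h 0).1 * n + 1, ?_⟩
  unfold GQuad.X detZ
  unfold detZ at d01 d12
  linear_combination (-(G.h 0).1) * hn + (G.h 0).2 * hm + 2 * d01

/-- reduction of the smooth case -/
lemma reach_allOne {a b : ℝ} (ha : 0 < a) (hb : 0 < b) : ∀ (n : ℕ) (G : GQuad), AllOne G →
    G.X.natAbs + G.Y.natAbs = n → Adm a b G → Reach a b G := by
  intro n
  induction n using Nat.strong_induction_on with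
  | _ n ih =>
    -- the normalised case
    have key : ∀ G : GQuad, AllOne G → G.X.natAbs + G.Y.natAbs = n → Adm a b G →
        G.Y = 0 → 0 ≤ G.X → Reach a b G := by
      intro G A hn hA hy hx
      rcases hx.lt_or_eq with hx | hx
      · -- the short edge is the edge `1`, mutate at the corner `1`
        obtain ⟨q, hq⟩ := A.even_x hy
        have hx2 : 2 ≤ G.X := by omega
        have PL := G.T.PL1
        have PR := G.T.PR1
        rw [A 1, A 2, one_mul] at PL
        rw [A 1, A 0, one_mul] at PR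
        have hX : detZ (G.h 0) (G.h 2) = G.X := rfl
        have hY : detZ (G.h 1) (G.h 3) = 0 := hy
        rw [hX] at PL
        rw [hY] at PR
        apply reach_rot (i := 1)
        rcases (G.rotBy 1).LC_or_RC with C | C
        · exfalso
          have h1 : 0 < detZ (G.e 1) (G.h 2) := C.P
          rw [PL] at h1
          linarith
        · apply reach_R C
          have A' : AllOne (GQuad.Rmove C) := by
            intro k
            fin_cases k
            · exact A 2
            · exact A 3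
            · show detZ (G.e 1) (G.h 3) = 1
              rw [PR]; norm_num
            · exact A 0
          have hX' : (GQuad.Rmove C).X = 2 - G.X := by
            have := (G.rotBy 1).T.x'_eq
            have e0 : (G.rotBy 1).p 0 = 1 := A 1
            have e1 : (G.rotBy 1).p 1 = 1 := A 2
            have e2 : (G.rotBy 1).p 2 = 1 := A 3
            have e3 : (G.rotBy 1).p 3 = 1 := A 0
            have e4 : detZ ((G.rotBy 1).h 1) ((G.rotBy 1).h 3) = -G.X := G.Y_rot1
            have e5 : detZ ((G.rotBy 1).h 0) ((G.rotBy 1).h 2) = 0 := hy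
            rw [e0, e1, e2, e3, e4, e5] at this
            have e6 : (GQuad.Rmove C).X =
              detZ (monoInvZ ((G.rotBy 1).e 0) ((G.rotBy 1).h 1)) ((G.rotBy 1).h 2) := rfl
            rw [e6]; linarith
          have hY' : (GQuad.Rmove C).Y = 0 := by
            have := (G.rotBy 1).T.y'_eq
            have e5 : detZ ((G.rotBy 1).h 0) ((G.rotBy 1).h 2) = 0 := hy
            rw [e5, neg_zero] at this
            exact this
          refine ih _ ?_ _ A' rfl ((hA.rotBy 1).R C)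
          rw [hX', hY', ← hn, hy]
          omega
      · exact IsPara.reach' ⟨A, hx.symm, hy⟩ ha hb hA.per hA.vol
    intro G A hn hA
    -- rotate into the normalised case
    rcases mul_eq_zero.mp A.xy with hx | hy
    · rcases le_total 0 G.Y with h | h
      · apply reach_rot (i := 1)
        refine key _ (A.rotBy 1) ?_ (hA.rotBy 1) ?_ ?_
        · rw [G.X_rot1, G.Y_rot1]; omega
        · rw [G.Y_rot1, hx, neg_zero]
        · rw [G.X_rot1]; exact h
      · apply reach_rot (i := 3)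
        refine key _ (A.rotBy 3) ?_ (hA.rotBy 3) ?_ ?_
        · rw [G.X_rot3, G.Y_rot3]; omega
        · rw [G.Y_rot3, hx]
        · rw [G.X_rot3]; linarith
    · rcases le_total 0 G.X with h | h
      · exact key G A hn hA hy h
      · apply reach_rot (i := 2)
        refine key _ (A.rotBy 2) ?_ (hA.rotBy 2) ?_ ?_
        · rw [G.X_rot2, G.Y_rot2]; omega
        · rw [G.Y_rot2, hy, neg_zero]
        · rw [G.X_rot2]; linarith

lemma sq_one_or {p : ℤ} (hp : 0 < p) : p ^ 2 = 1 ∨ 4 ≤ p ^ 2 := by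
  rcases (by omega : p = 1 ∨ 2 ≤ p) with h | h
  · left; rw [h]; norm_num
  · right; nlinarith

lemma lt_of_mul_sq {p v w : ℤ} (hp : 0 < p) (h : p * v = w) (hw : w < p ^ 2) : v < p := by
  rw [← h, sq] at hw
  exact lt_of_mul_lt_mul_left hw hp.le

/-- the mutation at the corner `0` lowers the total weight -/
structure Dec (G : GQuad) : Prop where
  L : detZ (G.e 0) (G.h 1) < G.p 0
  R : detZ (G.e 0) (G.h 2) < G.p 0

/-- the main reduction -/
theorem exists_dec {G : GQuad} (hx : 0 ≤ G.X) (hy : 0 ≤ G.Y) (h1 : ¬ AllOne G) :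
    ∃ i, Dec (G.rotBy i) := by
  have hN := G.T.noether_zero
  have key := descent_lemma (sq_one_or (G.ppos 0)) (sq_one_or (G.ppos 1)) (sq_one_or (G.ppos 2))
    (sq_one_or (G.ppos 3)) hx hy (by
      have := G.T.pluecker
      show detZ (G.h 0) (G.h 2) * detZ (G.h 1) (G.h 3) = _
      rw [this]) hN (by
      rintro ⟨h0, h1', h2, h3⟩
      apply h1
      have aux : ∀ q : ℤ, 0 < q → q ^ 2 = 1 → q = 1 := by
        intro q hq h
        nlinarith
      intro k
      fin_cases k
      · exact aux _ (G.ppos 0) h0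
      · exact aux _ (G.ppos 1) h1'
      · exact aux _ (G.ppos 2) h2
      · exact aux _ (G.ppos 3) h3)
  rcases key with ⟨k1, k2⟩ | ⟨k1, k2⟩ | ⟨k1, k2⟩
  · refine ⟨1, ⟨?_, ?_⟩⟩
    · exact lt_of_mul_sq (G.ppos 1) G.T.PL1 k1
    · exact lt_of_mul_sq (G.ppos 1) G.T.PR1 (by rw [add_comm]; exact k2)
  · refine ⟨2, ⟨?_, ?_⟩⟩
    · exact lt_of_mul_sq (G.ppos 2) G.T.PL2 k1
    · exact lt_of_mul_sq (G.ppos 2) G.T.PR2 k2
  · refine ⟨3, ⟨?_, ?_⟩⟩
    · exact lt_of_mul_sq (G.ppos 3) G.T.PL3 k1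
    · exact lt_of_mul_sq (G.ppos 3) G.T.PR3 k2

lemma exists_rot_nonneg (G : GQuad) : ∃ i, 0 ≤ (G.rotBy i).X ∧ 0 ≤ (G.rotBy i).Y := by
  rcases le_total 0 G.X with hx | hx
  · rcases le_total 0 G.Y with hy | hy
    · refine ⟨0, ?_, ?_⟩
      · show 0 ≤ detZ (G.h (0 + 0)) (G.h (2 + 0))
        exact hx
      · show 0 ≤ detZ (G.h (1 + 0)) (G.h (3 + 0))
        exact hy
    · exact ⟨3, by rw [G.X_rot3]; linarith, by rw [G.Y_rot3]; exact hx⟩
  · rcases le_total 0 G.Y with hy | hy
    · exact ⟨1, by rw [G.X_rot1]; exact hy, by rw [G.Y_rot1]; linarith⟩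
    · exact ⟨2, by rw [G.X_rot2]; linarith, by rw [G.Y_rot2]; linarith⟩

theorem reach_all {a b : ℝ} (ha : 0 < a) (hb : 0 < b) : ∀ (n : ℕ) (G : GQuad),
    G.wsum.toNat = n → Adm a b G → Reach a b G := by
  intro n
  induction n using Nat.strong_induction_on with
  | _ n ih =>
    intro G hn hA
    by_cases h1 : AllOne G
    · exact reach_allOne ha hb _ G h1 rfl hA
    · obtain ⟨i, hx, hy⟩ := exists_rot_nonneg G
      apply reach_rot (i := i)
      have h1' : ¬ AllOne (G.rotBy i) := by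
        intro h
        apply h1
        intro k
        have := h (k - i)
        have e : (G.rotBy i).p (k - i) = G.p k := by
          show G.p (k - i + i) = _
          rw [sub_add_cancel]
        rwa [e] at this
      obtain ⟨j, hj⟩ := exists_dec hx hy h1'
      apply reach_rot (i := j)
      have hA' := (hA.rotBy i).rotBy j
      have hw : ((G.rotBy i).rotBy j).wsum = G.wsum := by
        rw [GQuad.wsum_rotBy, GQuad.wsum_rotBy]
      rcases ((G.rotBy i).rotBy j).LC_or_RC with C | C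
      · apply reach_L C
        refine ih _ ?_ _ rfl (hA'.L C)
        have h2 := GQuad.wsum_L C
        have h3 := (GQuad.Lmove C).wsum_nonneg
        have h4 := hj.L
        rw [← hn]
        rw [hw] at h2
        omega
      · apply reach_R C
        refine ih _ ?_ _ rfl (hA'.R C)
        have h2 := GQuad.wsum_R C
        have h3 := (GQuad.Rmove C).wsum_nonneg
        have h4 := hj.R
        rw [← hn]
        rw [hw] at h2
        omega

end Pool.Agent.MP_fafc5c_gt
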