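import Mathlib

set_option autoImplicit false

/-!
The arithmetic behind the reduction: if no corner of a T1-quadrilateral can be simplified then
all corners are smooth.
-/

namespace Pool.Agent.MP_fafc5c_gt

/-- the Noether (Markov type) expression -/
def noether (a b c d x y : ℤ) : ℤ :=
  2 * (b*c*d + a*c*d + a*b*d + a*b*c) + x * (b*c - a*d) + y * (c*d - a*b) - 8*a*b*c*d

lemma lemA_sub1 {a b c d x y : ℤ} (ha : 1 ≤ a) (hc : 1 ≤ c)
    (hx : 0 ≤ x) (hxy : x * y = b*d - a*c)
    (h1 : c + y ≤ d) (h3 : b ≤ a + y) :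
    x * (b*c - a*d) ≤ (b*d - a*c) * (c - a) := by
  have e1 : b*c - a*d ≤ y * (c - a) := by nlinarith
  calc x * (b*c - a*d) ≤ x * (y * (c - a)) := mul_le_mul_of_nonneg_left e1 hx
    _ = (b*d - a*c) * (c - a) := by rw [← hxy]; ring

lemma lemA_alpha {a b c d x y : ℤ} (ha : 1 ≤ a) (hb : b = 1 ∨ 4 ≤ b) (hc : c = 1 ∨ 4 ≤ c)
    (hd : 1 ≤ d) (hx : 0 ≤ x) (hy : 0 ≤ y) (hxy : x * y = b*d - a*c)
    (hN : noether a b c d x y = 0)
    (h1 : c + y ≤ d) (_h2 : d ≤ a + x) (h3 : b ≤ a + y) (hal : d ≤ 2 * a) :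
    a = 1 ∧ b = 1 ∧ c = 1 ∧ d = 1 := by
  have hc1 : 1 ≤ c := by omega
  have hb1 : 1 ≤ b := by omega
  have key := lemA_sub1 ha hc1 hx hxy h1 h3
  have hbd : a * c ≤ b * d := by nlinarith [mul_nonneg hx hy]
  unfold noether at hN
  have p1 : 0 < a * c * d := by positivity
  have p2 : 0 < b * c * d := by positivity
  have p3 : 0 < a * b * d := by positivity
  have p4 : 0 < a * b * c := by positivity
  have p5 : 0 < a * b * c * d := by positivity
  have p6 : 0 < c * c * d := by positivity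
  have hcd : 0 < c * d := by positivity
  have hab : 0 < a * b := by positivity
  -- y * (c d - a b) ≤ (2 a - c) c d
  have hy1 : y * (c*d - a*b) ≤ 2 * (a*c*d) - c*c*d := by
    have : y * (c * d) ≤ (2 * a - c) * (c * d) :=
      mul_le_mul_of_nonneg_right (by linarith) hcd.le
    nlinarith [mul_nonneg hy hab.le]
  rcases hb with hb | hb
  · -- b = 1
    subst hb
    have hc' : c = 1 := by
      rcases hc with hc | hc
      · exact hc
      · nlinarith
    subst hc'
    have hda : a ≤ d := by linarith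
    have e1 : y * (d - a) ≤ (d - 1) * (d - a) :=
      mul_le_mul_of_nonneg_right (by linarith) (by linarith)
    have e2 : (d - 1) * (d - a) ≤ (d - 1) * a :=
      mul_le_mul_of_nonneg_left (by linarith) (by linarith)
    have e3 : 0 ≤ x * (a * d - 1) := mul_nonneg hx (by nlinarith)
    have e4 : 0 ≤ a * (d - 1) := mul_nonneg (by linarith) (by linarith)
    have e5 : 0 ≤ d * (a - 1) := mul_nonneg (by linarith) (by linarith)
    have e6 : a * (d - 1) + 2 * (d * (a - 1)) ≤ 0 := by nlinarith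
    have e7 : a * (d - 1) = 0 := by linarith
    have e8 : d * (a - 1) = 0 := by linarith
    have e9 : d = 1 := by
      rcases mul_eq_zero.mp e7 with h | h <;> linarith
    have e10 : a = 1 := by
      rcases mul_eq_zero.mp e8 with h | h <;> linarith
    exact ⟨e10, rfl, rfl, e9⟩
  · exfalso
    have q1 : 0 ≤ (b - 4) * (a*c*d) := mul_nonneg (by linarith) p1.le
    have q2 : 0 ≤ (a - 1) * (b*c*d) := mul_nonneg (by linarith) p2.le
    have q3 : 0 ≤ (c - 1) * (a*b*d) := mul_nonneg (by linarith) p3.le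
    have q4 : 0 ≤ (d - 1) * (a*b*c) := mul_nonneg (by linarith) p4.le
    rcases le_or_gt a c with hac | hac
    · have e0 : 0 ≤ a * c * (c - a) := mul_nonneg (by positivity) (by linarith)
      linarith
    · have e1 : (b*d - a*c) * (c - a) ≤ 0 :=
        mul_nonpos_of_nonneg_of_nonpos (by linarith) (by linarith)
      linarith

lemma lemA_beta {a b c d x y : ℤ} (ha : a = 1 ∨ 4 ≤ a) (hb : b = 1 ∨ 4 ≤ b) (hc : 1 ≤ c)
    (hd : d = 1 ∨ 4 ≤ d) (hx : 0 ≤ x) (hy : 0 ≤ y) (hxy : x * y = b*d - a*c)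
    (hN : noether a b c d x y = 0)
    (h1 : c + y ≤ d) (h2 : d ≤ a + x) (h3 : b ≤ a + y) (hbe : 2 * a < d) :
    False := by
  have ha1 : 1 ≤ a := by omega
  have hb1 : 1 ≤ b := by omega
  have hd4 : 4 ≤ d := by omega
  have key := lemA_sub1 ha1 hc hx hxy h1 h3
  have hbd : a * c ≤ b * d := by nlinarith [mul_nonneg hx hy]
  unfold noether at hN
  have p1 : 0 < a * c * d := by positivity
  have p2 : 0 < b * c * d := by positivity
  have p3 : 0 < a * b * d := by positivity
  have p4 : 0 < a * b * c := by positivity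
  have p5 : 0 < a * b * c * d := by positivity
  have hcd : 0 < c * d := by positivity
  have hab : 0 < a * b := by positivity
  have hyx : (d - a) * y ≤ b*d - a*c := by
    rw [← hxy]; exact mul_le_mul_of_nonneg_right (by linarith) hy
  rcases ha with ha | ha
  · -- a = 1
    subst ha
    have hd0 : 0 ≤ d - 1 := by linarith
    have e1 : 0 ≤ c * (c - 1) := mul_nonneg (by linarith) (by linarith)
    have I : 5*(b*c*d) ≤ 2*(c*d) + b*d + 2*(b*c) + y*(c*d - b) := by linarith
    rcases le_or_gt b (c*d) with hbcd | hbcd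
    · have e2 : (d - 1) * (y * (c*d - b)) ≤ (b*d - c) * (c*d - b) := by
        have : (d-1)*y*(c*d-b) ≤ (b*d - 1*c) * (c*d - b) :=
          mul_le_mul_of_nonneg_right (by linarith) (by linarith)
        linarith
      have e3 : (d-1) * (5*(b*c*d)) ≤ (d-1)*(2*(c*d) + b*d + 2*(b*c)) + (b*d - c) * (c*d - b) := by
        have := mul_le_mul_of_nonneg_left I hd0
        linarith
      have e4 : 2*b*c*d ≤ b*b*d + c*c*d := by
        have := mul_nonneg (sq_nonneg (b-c)) (by linarith : (0:ℤ) ≤ d)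
        linarith
      have e5 : 0 ≤ (d-1)*((b-1)*(c*d)) :=
        mul_nonneg hd0 (mul_nonneg (by linarith) hcd.le)
      have e6 : 0 ≤ (d-1)*((c-1)*(b*d)) :=
        mul_nonneg hd0 (mul_nonneg (by linarith) (by positivity))
      have hbc : 0 < b*c := by positivity
      have e7 : 0 < b*c*((d-1)*(d-1)) := by
        have : 0 < d - 1 := by linarith
        positivity
      linarith
    · have e2 : y*(c*d - b) ≤ 0 := mul_nonpos_of_nonneg_of_nonpos hy (by linarith)
      have hb4 : 4 ≤ b := by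
        have : 0 ≤ (c - 1) * d := mul_nonneg (by linarith) (by linarith)
        linarith
      have f1 : 0 ≤ (b-4)*(c*d) := mul_nonneg (by linarith) hcd.le
      have f2 : 0 ≤ (c-1)*(b*d) := mul_nonneg (by linarith) (by positivity)
      have f3 : 0 ≤ (d-4)*(b*c) := mul_nonneg (by linarith) (by positivity)
      linarith
  · -- 4 ≤ a
    have hyd : y * d ≤ 2 * (b * d) := by
      have h0 : 0 ≤ (d - 2*a) * y := mul_nonneg (by linarith) hy
      have h1 : 0 ≤ a * c := by positivity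
      linarith
    have hyd' : y * (c*d - a*b) ≤ 2 * (b*c*d) := by
      have h0 : y * d * c ≤ 2 * (b*d) * c := mul_le_mul_of_nonneg_right hyd (by linarith)
      have h1 := mul_nonneg hy hab.le
      linarith
    have q1 : 0 ≤ (a - 4) * (b*c*d) := mul_nonneg (by linarith) p2.le
    have q2 : 0 ≤ (b - 1) * (a*c*d) := mul_nonneg (by linarith) p1.le
    have q3 : 0 ≤ (c - 1) * (a*b*d) := mul_nonneg (by linarith) p3.le
    have q4 : 0 ≤ (d - 9) * (a*b*c) := mul_nonneg (by linarith) p4.le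
    rcases le_or_gt a c with hac | hac
    · have e0 : 0 ≤ a * c * (c - a) := mul_nonneg (by positivity) (by linarith)
      linarith
    · have e1 : (b*d - a*c) * (c - a) ≤ 0 :=
        mul_nonpos_of_nonneg_of_nonpos (by linarith) (by linarith)
      linarith

lemma lemA {a b c d x y : ℤ} (ha : a = 1 ∨ 4 ≤ a) (hb : b = 1 ∨ 4 ≤ b) (hc : c = 1 ∨ 4 ≤ c)
    (hd : d = 1 ∨ 4 ≤ d) (hx : 0 ≤ x) (hy : 0 ≤ y) (hxy : x * y = b*d - a*c)
    (hN : noether a b c d x y = 0)
    (h1 : c + y ≤ d) (h2 : d ≤ a + x) (h3 : b ≤ a + y) :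
    a = 1 ∧ b = 1 ∧ c = 1 ∧ d = 1 := by
  rcases le_or_gt d (2*a) with h | h
  · exact lemA_alpha (by omega) hb hc (by omega) hx hy hxy hN h1 h2 h3 h
  · exact (lemA_beta ha hb (by omega) hd hx hy hxy hN h1 h2 h3 h).elim

/-- case `3a`, `4a` -/
lemma lemB {a b c d x y : ℤ} (ha : 1 ≤ a) (_hb : 1 ≤ b) (hc : 1 ≤ c) (_hd : 1 ≤ d)
    (hy : 0 ≤ y) (hxy : x * y = b*d - a*c)
    (hN : noether a b c d x y = 0)
    (h1 : c + y ≤ d) (h2 : d + y ≤ c) :
    a = 1 ∧ b = 1 ∧ c = 1 ∧ d = 1 := by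
  have hy0 : y = 0 := by linarith
  have hcd : c = d := by linarith
  subst hy0 hcd
  have hab : a = b := by
    have : (b - a) * c = 0 := by nlinarith
    rcases mul_eq_zero.mp this with h | h <;> linarith
  subst hab
  unfold noether at hN
  have e : 4 * (a*c) * (a*(c-1) + c*(a-1)) = 0 := by nlinarith
  have hac : 0 < a * c := by positivity
  have e2 : a*(c-1) + c*(a-1) = 0 := by
    rcases mul_eq_zero.mp e with h | h
    · linarith
    · exact h
  have e3 : 0 ≤ a*(c-1) := mul_nonneg (by linarith) (by linarith)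
  have e4 : 0 ≤ c*(a-1) := mul_nonneg (by linarith) (by linarith)
  have e5 : a*(c-1) = 0 := by linarith
  have e6 : c*(a-1) = 0 := by linarith
  have : c = 1 := by rcases mul_eq_zero.mp e5 with h | h <;> linarith
  have : a = 1 := by rcases mul_eq_zero.mp e6 with h | h <;> linarith
  omega

/-- case `3a`, `4b`, `2a` -/
lemma lemC {a b c d x y : ℤ} (_ha : 1 ≤ a) (hb : 1 ≤ b) (hc : 1 ≤ c) (hd : 1 ≤ d)
    (hx : 0 ≤ x) (hy : 0 ≤ y)
    (hN : noether a b c d x y = 0)
    (h1 : c + y ≤ d) (h2 : d ≤ a + x) (h3 : b + x ≤ c) :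
    a = 1 ∧ b = 1 ∧ c = 1 ∧ d = 1 := by
  have ha2 : b + y ≤ a := by linarith
  unfold noether at hN
  have e1 : x * (b*c - a*d) ≤ 0 :=
    mul_nonpos_of_nonneg_of_nonpos hx (by nlinarith)
  have e2 : y * (c*d) ≤ (a - b) * (c*d) :=
    mul_le_mul_of_nonneg_right (by linarith) (by positivity)
  have e3 : 0 ≤ y * (a*b) := mul_nonneg hy (by positivity)
  have p1 : 0 < a * c * d := by positivity
  have p2 : 0 < b * c * d := by positivity
  have p3 : 0 < a * b * d := by positivity
  have p4 : 0 < a * b * c := by positivity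
  have q1 : 0 ≤ (a-1)*(b*c*d) := mul_nonneg (by linarith) p2.le
  have q2 : 0 ≤ (b-1)*(a*c*d) := mul_nonneg (by linarith) p1.le
  have q3 : 0 ≤ (c-1)*(a*b*d) := mul_nonneg (by linarith) p3.le
  have q4 : 0 ≤ (d-1)*(a*b*c) := mul_nonneg (by linarith) p4.le
  have tot : (a-1)*(b*c*d) + 3*((b-1)*(a*c*d)) + 2*((c-1)*(a*b*d)) + 2*((d-1)*(a*b*c)) ≤ 0 := by
    nlinarith
  have r1 : (a-1)*(b*c*d) = 0 := by linarith
  have r2 : (b-1)*(a*c*d) = 0 := by linarith
  have r3 : (c-1)*(a*b*d) = 0 := by linarith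
  have r4 : (d-1)*(a*b*c) = 0 := by linarith
  refine ⟨?_, ?_, ?_, ?_⟩
  · rcases mul_eq_zero.mp r1 with h | h <;> linarith
  · rcases mul_eq_zero.mp r2 with h | h <;> linarith
  · rcases mul_eq_zero.mp r3 with h | h <;> linarith
  · rcases mul_eq_zero.mp r4 with h | h <;> linarith

lemma noether_symm (a b c d x y : ℤ) : noether a d c b y x = noether a b c d x y := by
  unfold noether; ring

/-- The descent lemma. -/
lemma descent_lemma {a b c d x y : ℤ} (ha : a = 1 ∨ 4 ≤ a) (hb : b = 1 ∨ 4 ≤ b)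
    (hc : c = 1 ∨ 4 ≤ c) (hd : d = 1 ∨ 4 ≤ d) (hx : 0 ≤ x) (hy : 0 ≤ y)
    (hxy : x * y = b*d - a*c) (hN : noether a b c d x y = 0)
    (hone : ¬ (a = 1 ∧ b = 1 ∧ c = 1 ∧ d = 1)) :
    (c - x < b ∧ a + y < b) ∨ (d - y < c ∧ b - x < c) ∨ (a + x < d ∧ c - y < d) := by
  by_contra hcon
  push Not at hcon
  obtain ⟨k1, k2, k3⟩ := hcon
  apply hone
  have ha1 : 1 ≤ a := by omega
  have hb1 : 1 ≤ b := by omega
  have hc1 : 1 ≤ c := by omega
  have hd1 : 1 ≤ d := by omega
  by_cases h3 : d - y < c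
  · -- 3b : b - x ≥ c
    have h3b := k2 h3
    have hxy' : y * x = d*b - a*c := by rw [mul_comm y x, hxy]; ring
    have hN' : noether a d c b y x = 0 := by rw [noether_symm]; exact hN
    by_cases h2 : c - x < b
    · have h2b := k1 h2
      by_cases h4 : a + x < d
      · have h4b := k3 h4
        -- mirror of lemC : c ≥ d + y
        obtain ⟨r1, r2, r3, r4⟩ := lemC (a := a) (b := d) (c := c) (d := b) (x := y) (y := x)
          ha1 hd1 hc1 hb1 hy hx hN' (by linarith) (by linarith) (by linarith)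
        exact ⟨r1, r4, r3, r2⟩
      · obtain ⟨r1, r2, r3, r4⟩ := lemA (a := a) (b := d) (c := c) (d := b) (x := y) (y := x)
          ha hd hc hb hy hx hxy' hN' (by linarith) (by linarith) (by linarith)
        exact ⟨r1, r4, r3, r2⟩
    · obtain ⟨r1, r2, r3, r4⟩ := lemB (a := a) (b := d) (c := c) (d := b) (x := y) (y := x)
          ha1 hd1 hc1 hb1 hx hxy' hN' (by linarith) (by linarith)
      exact ⟨r1, r4, r3, r2⟩
  · by_cases h4 : a + x < d
    · have h4b := k3 h4
      exact lemB ha1 hb1 hc1 hd1 hy hxy hN (by linarith) (by linarith)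
    · by_cases h2 : c - x < b
      · have h2b := k1 h2
        exact lemA ha hb hc hd hx hy hxy hN (by linarith) (by linarith) (by linarith)
      · exact lemC ha1 hb1 hc1 hd1 hx hy hN (by linarith) (by linarith) (by linarith)

end Pool.Agent.MP_fafc5c_gt
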