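import Pool.Agent.MP_fafc5c_gt.Descend

set_option autoImplicit false
set_option linter.unusedVariables false

namespace Pool.Agent.MP_fafc5c_gt

open MeasureTheory

lemma detZ_swap_swap (u w : ℤ × ℤ) : detZ u.swap w.swap = -detZ u w := by
  simp only [detZ, Prod.fst_swap, Prod.snd_swap]; ring

lemma idx1 : ∀ k : Fin 4, -(k + 1) - 1 + 1 = -k - 1 := by decide
lemma idx2 : ∀ k : Fin 4, -(k + 1) = -k - 1 := by decide
lemma idx3 : ∀ k : Fin 4, -k - 1 + 1 = -k := by decide

/-- the mirror image under `(x, y) ↦ (y, x)` -/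
def GQuad.mirror (G : GQuad) : GQuad where
  h k := -(G.h (-k - 1)).swap
  e k := (G.e (-k)).swap
  p k := G.p (-k)
  v k := (G.v (-k)).swap
  l k := G.l (-k - 1)
  T := {
    hprim := fun k => by
      have := (G.T.hprim (-k - 1)).symm.neg_neg
      exact this
    eprim := fun k => (G.T.eprim (-k)).symm
    pne := fun k => G.T.pne _
    hdiff := fun k => by
      have h := G.T.hdiff (-(k + 1) - 1)
      rw [idx1] at h
      rw [idx2 k] at h ⊢
      rw [h]
      ext <;> simp
    hdet := fun k => by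
      have h := G.T.hdet (-(k + 1) - 1)
      rw [idx1] at h
      rw [detZ_neg_left, detZ_neg_right, neg_neg, detZ_swap_swap, detZ_swap, h, neg_neg, idx2] }
  ppos k := G.ppos _
  lnn k := G.lnn _
  hv k := by
    have h := G.hv (-k - 1)
    rw [idx3] at h
    rw [idx2, h]
    ext <;> simp [toR]
  hk k hl := by
    have h := G.hk _ hl
    rw [idx3] at h
    rw [detZ_swap_swap, detZ_swap, idx2, neg_neg]
    exact h
  hone j k hj hk := by
    have := G.hone _ _ hj hk
    exact neg_injective (sub_left_injective this)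
  even j k := ⟨(G.even _ _).2, (G.even _ _).1⟩

lemma GQuad.region_mirror (G : GQuad) : G.mirror.region = Prod.swap '' G.region := by
  have key : ∀ (k : Fin 4) (u : ℝ × ℝ), G.mirror.lam k u.swap = G.lam (-k - 1) u := by
    intro k u
    have h := G.hv (-k - 1)
    rw [idx3] at h
    have e : u - G.v (-k - 1) = (u - G.v (-k)) + G.l (-k - 1) • toR (G.h (-k - 1)) := by
      rw [h]; abel
    rw [lam, lam, e, det2_add_right, det2_smul_right, det2_self, mul_zero, add_zero]
    show det2 (toR (-(G.h (-k - 1)).swap)) (u.swap - (G.v (-k)).swap) = _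
    simp only [det2, toR, Prod.fst_neg, Prod.snd_neg, Prod.fst_swap, Prod.snd_swap, Prod.fst_sub,
      Prod.snd_sub, Int.cast_neg]
    ring
  ext u
  constructor
  · intro hu
    refine ⟨u.swap, fun k => ?_, Prod.swap_swap u⟩
    have := hu (-k - 1)
    rw [← Prod.swap_swap u, key] at this
    have e : -(-k - 1) - 1 = k := by abel
    rwa [e] at this
  · rintro ⟨w, hw, rfl⟩ k
    rw [key]; exact hw _

/-- transport along an integral affine equivalence -/
lemma transport {G : GQuad} {Q : Set (ℝ × ℝ)} (H : IntAffEquiv G.region Q) :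
    ∃ G' : GQuad, G'.region = Q ∧ G'.per = G.per ∧ volume G'.region = volume G.region := by
  obtain ⟨α, β, γ, δ, hdet, c, hc⟩ := H
  have hvol : volume Q = volume G.region := by
    rw [← hc]; exact volume_affine_image α β γ δ hdet c _
  rcases hdet with h | h
  · set T : SAff := ⟨α, β, γ, δ, h, c⟩ with hT
    have hreg : (T.actG G).region = Q := by
      rw [T.region_actG, ← hc]
      rfl
    exact ⟨T.actG G, hreg, rfl, by rw [hreg, hvol]⟩
  · set T : SAff := ⟨γ, δ, α, β, by linarith, c⟩ with hT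
    have hreg : (T.actG G.mirror).region = Q := by
      rw [T.region_actG, G.region_mirror, Set.image_image, ← hc]
      congr 1
      funext u
      simp only [hT, SAff.map, SAff.lin, Prod.fst_swap, Prod.snd_swap]
      ext
      · simp only [Prod.fst_add]; ring
      · simp only [Prod.snd_add]; ring
    refine ⟨T.actG G.mirror, hreg, ?_, by rw [hreg, hvol]⟩
    show ∑ k, G.l (-k - 1) = ∑ k, G.l k
    rw [Fin.sum_univ_four, Fin.sum_univ_four]
    show G.l 3 + G.l 2 + G.l 1 + G.l 0 = _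
    ring

lemma intAffEquiv_map (T : SAff) (S : Set (ℝ × ℝ)) : IntAffEquiv (T.map '' S) S := by
  refine ⟨T.inv.a, T.inv.b, T.inv.c, T.inv.d, Or.inl T.inv.det, T.inv.t, ?_⟩
  have : (fun v : ℝ × ℝ => (v.1 * T.inv.a + v.2 * T.inv.c + T.inv.t.1,
      v.1 * T.inv.b + v.2 * T.inv.d + T.inv.t.2)) = T.inv.map := rfl
  rw [this, Set.image_image]
  have h2 : (fun x => T.inv.map (T.map x)) = id := funext T.inv_map_map
  rw [h2, Set.image_id]

lemma good_of_gquad {a b : ℝ} {G : GQuad} (A : Adm a b G) (hQ : IsQuadrilateral G.region) :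
    Good a b G.region :=
  ⟨G.v, G.l, G.h, G.e, G.p, ⟨G.T.hprim, G.T.eprim, G.ppos,
    fun i => by rw [G.T.hdiff i]; abel, G.T.hdet⟩, fun i => ⟨G.pos_of_quad hQ i, G.hv i⟩,
    G.region_eq_hull, G.even, A.per, A.vol⟩

lemma CornerData.t1 {h e : Fin 4 → ℤ × ℤ} {p : Fin 4 → ℤ} (C : CornerData h e p) : T1 h e p where
  hprim := C.hprim
  eprim := C.eprim
  pne k := (C.ppos k).ne'
  hdiff k := by rw [← C.diff k]; abel
  hdet := C.det

lemma gquad_of_good {a b : ℝ} {Q : Set (ℝ × ℝ)} (H : Good a b Q) :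
    ∃ G : GQuad, G.region = Q ∧ Adm a b G := by
  obtain ⟨v, ℓ, h, e, p, C, hl, hQ, he, hper, hvol⟩ := H
  set G : GQuad := {
    h := h
    e := e
    p := p
    v := v
    l := ℓ
    T := C.t1
    ppos := C.ppos
    lnn := fun k => (hl k).1.le
    hv := fun k => (hl k).2
    hk := fun k hk => absurd hk (hl k).1.ne'
    hone := fun j k hj _ => absurd hj (hl j).1.ne'
    even := he } with hG
  have hreg : G.region = Q := by rw [hQ]; exact G.region_eq_hull
  exact ⟨G, hreg, ⟨hper, by rw [hreg]; exact hvol⟩⟩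

lemma step_of_stepNC {D D' : Diagram} (H : StepNC D D') : Step D D' := by
  obtain ⟨_, _, h | h⟩ := H
  · exact Or.inl h.1
  · exact Or.inr h

lemma arises_of_arisesNC {a b : ℝ} {P : Set (ℝ × ℝ)} (H : ArisesNC a b P) : Arises a b P := by
  obtain ⟨D₀, D, h0, _, hp, hr⟩ := H
  exact ⟨D₀, D, h0, Relation.ReflTransGen.mono (fun _ _ => step_of_stepNC) _ _ hp, hr⟩

lemma models_of_arises {a b : ℝ} (ha : 0 < a) (hb : 0 < b) {P : Set (ℝ × ℝ)}
    (H : Arises a b P) : ∃ G : GQuad, G.region = P ∧ Adm a b G := by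
  obtain ⟨D₀, D, h0, hp, rfl⟩ := H
  obtain ⟨σ, M⟩ := models_of_initial ha hb h0
  obtain ⟨G, σ', M', h1, h2⟩ := forward_path hp M
  exact ⟨G, M'.region.symm, ⟨by rw [h1, per_rectG], by rw [h2, volume_rectG]⟩⟩

lemma arises_of_reach {a b : ℝ} {G : GQuad} (H : Reach a b G) :
    ∃ P, ArisesNC a b P ∧ IntAffEquiv P G.region := by
  obtain ⟨T, D₀, D, σ, h0, hn, hp, M, _⟩ := H
  refine ⟨T.map '' G.region, ⟨T.act D₀, T.act D, h0, T.act_nonCrossing hn, ?_, ?_⟩,
    intAffEquiv_map T _⟩
  · exact hp.lift T.act fun _ _ h => T.act_stepNC h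
  · show T.map '' D.region = _
    rw [M.region]

theorem main {a b : ℝ} (ha : 0 < a) (hb : 0 < b) :
    (∀ P, Arises a b P → IsTriangle P ∨ IsQuadrilateral P) ∧
    (∀ Q, IsQuadrilateral Q → List.TFAE
      [∃ P, Arises a b P ∧ IntAffEquiv P Q,
       ∃ P, ArisesNC a b P ∧ IntAffEquiv P Q,
       Good a b Q]) := by
  refine ⟨?_, ?_⟩
  · intro P hP
    obtain ⟨G, rfl, _⟩ := models_of_arises ha hb hP
    exact G.triangle_or_quadrilateral
  · intro Q hQ
    tfae_have 2 → 1 := fun ⟨P, h1, h2⟩ => ⟨P, arises_of_arisesNC h1, h2⟩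
    tfae_have 1 → 3 := by
      rintro ⟨P, h1, h2⟩
      obtain ⟨G, rfl, A⟩ := models_of_arises ha hb h1
      obtain ⟨G', hreg, hper, hvol⟩ := transport h2
      subst hreg
      exact good_of_gquad ⟨by rw [hper, A.per], by rw [hvol, A.vol]⟩ hQ
    tfae_have 3 → 2 := by
      intro h
      obtain ⟨G, rfl, A⟩ := gquad_of_good h
      exact arises_of_reach (reach_all ha hb _ G rfl A)
    tfae_finish

end Pool.Agent.MP_fafc5c_gt
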