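import Pool.Agent.MP_fafc5c_gt.Models

set_option autoImplicit false
set_option linter.unusedVariables false

namespace Pool.Agent.MP_fafc5c_gt

namespace GQuad

/-- affine perimeter -/
def per (G : GQuad) : ℝ := ∑ k, G.l k

lemma per_rotBy (G : GQuad) (i : Fin 4) : (G.rotBy i).per = G.per :=
  Equiv.sum_comp (Equiv.addRight i) G.l

lemma per_Lmove {G : GQuad} (C : G.LC) : (Lmove C).per = G.per := by
  unfold per
  rw [Fin.sum_univ_four, Fin.sum_univ_four]
  show G.l 0 * G.p 0 / (detZ (G.e 0) (G.h 1) : ℝ) +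
    (G.l 1 - G.l 0 * G.p 0 / (detZ (G.e 0) (G.h 1) : ℝ)) + G.l 2 + (G.l 3 + G.l 0) = _
  ring

lemma per_Rmove {G : GQuad} (C : G.RC) : (Rmove C).per = G.per := by
  unfold per
  rw [Fin.sum_univ_four, Fin.sum_univ_four]
  show G.l 1 + (G.l 2 - G.l 3 * G.p 0 / (detZ (G.e 0) (G.h 2) : ℝ)) +
    G.l 3 * G.p 0 / (detZ (G.e 0) (G.h 2) : ℝ) + (G.l 3 + G.l 0) = _
  ring

lemma mutRegion_L {G : GQuad} (C : G.LC) : G.MutRegion (Lmove C).region := region_Lmove C
lemma mutRegion_R {G : GQuad} (C : G.RC) : G.MutRegion (Rmove C).region := region_Rmove C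

end GQuad

namespace Models

variable {D D' : Diagram} {G : GQuad} {σ : Equiv.Perm (Fin 4)}

lemma region_of_mut (M : Models D G σ) {R' : Set (ℝ × ℝ)} (hR : G.MutRegion R') :
    (D.region ∩ clockSide (D.node (σ 0)).pos (D.node (σ 0)).dir) ∪
      phiInv (D.node (σ 0)).pos (D.node (σ 0)).dir ''
        (D.region ∩ antiSide (D.node (σ 0)).pos (D.node (σ 0)).dir) = R' := by
  rw [M.clockSide_eq, M.antiSide_eq, M.region]
  ext u
  rw [hR u]
  constructor
  · rintro (⟨h1, h2⟩ | ⟨w, ⟨h1, h2⟩, rfl⟩)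
    · exact Or.inl ⟨h2, h1⟩
    · right
      rw [M.phiInv_eq, G.g_shr, G.shf_shr]
      exact ⟨h2, h1⟩
  · rintro (⟨h1, h2⟩ | ⟨h1, h2⟩)
    · exact Or.inl ⟨h2, h1⟩
    · right
      refine ⟨G.shf u, ⟨h2, ?_⟩, ?_⟩
      · show G.g (G.shf u) ≤ 0
        rw [G.g_shf]; exact h1
      · rw [M.phiInv_eq, G.shr_shf]

lemma g_pos_node (M : Models D G σ) (k : Fin 4) {s : ℝ}
    (hpos : (D.node (σ k)).pos = G.v k + s • toR (G.e k)) :
    G.g (D.node (σ k)).pos = G.g (G.v k) + s * (detZ (G.e 0) (G.e k) : ℝ) := by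
  rw [hpos, G.g_ray]

lemma moved_eq_of_line (M : Models D G σ) (k : Fin 4) (h1 : G.g (D.node (σ k)).pos = 0)
    (h2 : detZ (G.e 0) (G.e k) = 0) :
    (⟨phiInv (D.node (σ 0)).pos (D.node (σ 0)).dir (D.node (σ k)).pos,
      monoInvZ (D.node (σ 0)).dir (D.node (σ k)).dir⟩ : Node) = D.node (σ k) := by
  have e1 : phiInv (D.node (σ 0)).pos (D.node (σ 0)).dir (D.node (σ k)).pos =
      (D.node (σ k)).pos := by
    rw [M.phiInv_eq, G.shr_of_g_zero h1]
  have e2 : monoInvZ (D.node (σ 0)).dir (D.node (σ k)).dir = (D.node (σ k)).dir := by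
    rw [M.dir, M.dir, monoInvZ, detZ_neg_left, detZ_neg_right, detZ_swap, h2]; simp
  rw [e1, e2]

lemma node_unmoved (M : Models D G σ) (H : MutateAnti D (σ 0) D') {k : Fin 4} (hk : k ≠ 0)
    (hg : 0 ≤ G.g (G.v k)) (hz : G.g (G.v k) = 0 → 0 ≤ detZ (G.e 0) (G.e k)) :
    D'.node (σ k) = D.node (σ k) ∧ 0 ≤ G.g (D.node (σ k)).pos := by
  rcases H.2.2 (σ k) (fun h => hk (σ.injective h)) with ⟨hc, h⟩ | ⟨hc, h⟩
  · rw [M.clockSide_eq] at hc
    exact ⟨h, hc (M.pos_mem_cut k)⟩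
  · rw [h]
    rw [M.antiSide_eq] at hc
    have c1 : G.g (G.v k) ≤ 0 := hc (M.v_mem_cut k)
    have c2 : G.g (D.node (σ k)).pos ≤ 0 := hc (M.pos_mem_cut k)
    have c3 : G.g (G.v k) = 0 := le_antisymm c1 hg
    obtain ⟨s, hs, hpos⟩ := M.pos k
    have c4 := M.g_pos_node k hpos
    rw [c3, zero_add] at c4
    have c5 : (0:ℝ) ≤ (detZ (G.e 0) (G.e k) : ℝ) := by exact_mod_cast hz c3
    have c6 := mul_nonneg hs.le c5
    have c7 : G.g (D.node (σ k)).pos = 0 := le_antisymm c2 (by rw [c4]; exact c6)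
    have c8 : (detZ (G.e 0) (G.e k) : ℝ) = 0 := by
      rw [c7] at c4
      rcases mul_eq_zero.mp c4.symm with h | h
      · exact absurd h hs.ne'
      · exact h
    exact ⟨M.moved_eq_of_line k c7 (by exact_mod_cast c8), c7.ge⟩

lemma node_moved (M : Models D G σ) (H : MutateAnti D (σ 0) D') {k : Fin 4} (hk : k ≠ 0)
    (hg : G.g (G.v k) ≤ 0) (hz : G.g (G.v k) = 0 → detZ (G.e 0) (G.e k) ≤ 0) :
    D'.node (σ k) = ⟨phiInv (D.node (σ 0)).pos (D.node (σ 0)).dir (D.node (σ k)).pos,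
      monoInvZ (D.node (σ 0)).dir (D.node (σ k)).dir⟩ ∧ G.g (D.node (σ k)).pos ≤ 0 := by
  rcases H.2.2 (σ k) (fun h => hk (σ.injective h)) with ⟨hc, h⟩ | ⟨hc, h⟩
  · rw [h]
    rw [M.clockSide_eq] at hc
    have c1 : 0 ≤ G.g (G.v k) := hc (M.v_mem_cut k)
    have c2 : 0 ≤ G.g (D.node (σ k)).pos := hc (M.pos_mem_cut k)
    have c3 : G.g (G.v k) = 0 := le_antisymm hg c1
    obtain ⟨s, hs, hpos⟩ := M.pos k
    have c4 := M.g_pos_node k hpos
    rw [c3, zero_add] at c4
    have c5 : (detZ (G.e 0) (G.e k) : ℝ) ≤ 0 := by exact_mod_cast hz c3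
    have c6 := mul_nonpos_of_nonneg_of_nonpos hs.le c5
    have c7 : G.g (D.node (σ k)).pos = 0 := le_antisymm (by rw [c4]; exact c6) c2
    have c8 : (detZ (G.e 0) (G.e k) : ℝ) = 0 := by
      rw [c7] at c4
      rcases mul_eq_zero.mp c4.symm with h | h
      · exact absurd h hs.ne'
      · exact h
    exact ⟨(M.moved_eq_of_line k c7 (by exact_mod_cast c8)).symm, c7.le⟩
  · rw [M.antiSide_eq] at hc
    exact ⟨h, hc (M.pos_mem_cut k)⟩

/-- what a node at the corner `k` looks like after the mutation -/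
lemma moved_node_eq (M : Models D G σ) (k : Fin 4) :
    (⟨phiInv (D.node (σ 0)).pos (D.node (σ 0)).dir (D.node (σ k)).pos,
      monoInvZ (D.node (σ 0)).dir (D.node (σ k)).dir⟩ : Node) =
    ⟨G.shr (D.node (σ k)).pos, -monoInvZ (G.e 0) (G.e k)⟩ := by
  have e2 : monoInvZ (D.node (σ 0)).dir (D.node (σ k)).dir = -monoInvZ (G.e 0) (G.e k) := by
    rw [M.dir, M.dir, monoInvZ, monoInvZ, detZ_neg_left, detZ_neg_right, neg_neg, smul_neg,
      sub_neg_eq_add, neg_sub, sub_eq_add_neg]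
    abel
  rw [M.phiInv_eq, e2]

/-- sign data at the corners `1` and `3` -/
lemma g1_data (G : GQuad) : G.g (G.v 1) ≤ 0 ∧
    (G.g (G.v 1) = 0 → detZ (G.e 0) (G.e 1) ≤ 0) := by
  have p0 := G.p0R
  have l0 := G.lnn 0
  rw [G.g_v1]
  constructor
  · have := mul_nonneg l0 p0.le
    linarith
  · intro h
    have : G.l 0 * G.p 0 = 0 := by linarith
    rcases mul_eq_zero.mp this with h' | h'
    · have := G.hk 0 h'
      simpa using this
    · exact absurd h' p0.ne'

lemma g3_data (G : GQuad) : 0 ≤ G.g (G.v 3) ∧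
    (G.g (G.v 3) = 0 → 0 ≤ detZ (G.e 0) (G.e 3)) := by
  have p0 := G.p0R
  have l3 := G.lnn 3
  rw [G.g_v3]
  constructor
  · exact mul_nonneg l3 p0.le
  · intro h
    rcases mul_eq_zero.mp h with h' | h'
    · have := G.hk 3 h'
      simp only [Fin.reduceAdd] at this
      rw [detZ_swap]; linarith
    · exact absurd h' p0.ne'

lemma g2_data_L {G : GQuad} (C : G.LC) : 0 ≤ G.g (G.v 2) ∧
    (G.g (G.v 2) = 0 → 0 ≤ detZ (G.e 0) (G.e 2)) := by
  rw [G.g_v2]
  exact ⟨by linarith [C.le], fun h => C.wall (by linarith)⟩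

lemma g2_data_R {G : GQuad} (C : G.RC) : G.g (G.v 2) ≤ 0 ∧
    (G.g (G.v 2) = 0 → detZ (G.e 0) (G.e 2) ≤ 0) := by
  rw [G.g_v2']
  exact ⟨by linarith [C.le], fun h => C.wall (by linarith)⟩

/-- permutation of the labels in the first case -/
def permL : Equiv.Perm (Fin 4) := Equiv.swap 0 1
/-- permutation of the labels in the second case -/
def permR : Equiv.Perm (Fin 4) := Equiv.swap 0 1 * Equiv.swap 1 2

lemma permL0 : permL 0 = 1 := by decide
lemma permL1 : permL 1 = 0 := by decide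
lemma permL2 : permL 2 = 2 := by decide
lemma permL3 : permL 3 = 3 := by decide
lemma permR0 : permR 0 = 1 := by decide
lemma permR1 : permR 1 = 2 := by decide
lemma permR2 : permR 2 = 0 := by decide
lemma permR3 : permR 3 = 3 := by decide

/-- end point of the eigenline, first case -/
lemma Lv1_eq {G : GQuad} (C : G.LC) :
    (GQuad.Lmove C).v 1 = G.v 0 + (G.l 0 * (G.p 1 : ℝ)^2 / (detZ (G.e 0) (G.h 1) : ℝ)) •
      toR (G.e 0) := by
  have hP : (0:ℝ) < (detZ (G.e 0) (G.h 1) : ℝ) := by exact_mod_cast C.P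
  have h1 := G.coord ((GQuad.Lmove C).v 1)
  have hg : G.g ((GQuad.Lmove C).v 1) = 0 := by
    show G.g (G.v 1 + (G.l 0 * G.p 0 / (detZ (G.e 0) (G.h 1) : ℝ)) • toR (G.h 1)) = 0
    have : G.v 1 + (G.l 0 * G.p 0 / (detZ (G.e 0) (G.h 1) : ℝ)) • toR (G.h 1) - G.v 0 =
      (G.v 1 - G.v 0) + (G.l 0 * G.p 0 / (detZ (G.e 0) (G.h 1) : ℝ)) • toR (G.h 1) := by abel
    rw [GQuad.g, this, det2_add_right, det2_smul_right, det2_toR, div_mul_cancel₀ _ hP.ne']
    have := G.g_v1
    rw [GQuad.g] at this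
    rw [this]; ring
  have hl : G.lam 1 ((GQuad.Lmove C).v 1) = 0 := by
    rw [← GQuad.Llam1 C]; exact (GQuad.Lmove C).lam_v_self 1
  have hc := G.lam1_coord ((GQuad.Lmove C).v 1)
  rw [hl, hg, neg_zero, zero_div, zero_mul, add_zero] at hc
  rw [hg, neg_zero, zero_div, zero_smul, zero_add] at h1
  have h2 : G.lam 3 ((GQuad.Lmove C).v 1) / (G.p 0 : ℝ) =
      G.l 0 * (G.p 1 : ℝ)^2 / (detZ (G.e 0) (G.h 1) : ℝ) := by
    rw [eq_div_iff hP.ne']; linarith
  rw [h2] at h1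
  rw [← h1]; abel

/-- end point of the eigenline, second case -/
lemma Rv2_eq {G : GQuad} (C : G.RC) :
    (GQuad.Rmove C).v 2 = G.v 0 + (G.l 3 * (G.p 3 : ℝ)^2 / (detZ (G.e 0) (G.h 2) : ℝ)) •
      toR (G.e 0) := by
  have hP : (0:ℝ) < (detZ (G.e 0) (G.h 2) : ℝ) := by exact_mod_cast C.P
  have h1 := G.coord ((GQuad.Rmove C).v 2)
  have hg : G.g ((GQuad.Rmove C).v 2) = 0 := by
    show G.g (G.v 2 + (G.l 2 - G.l 3 * G.p 0 / (detZ (G.e 0) (G.h 2) : ℝ)) • toR (G.h 2)) = 0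
    have : G.v 2 + (G.l 2 - G.l 3 * G.p 0 / (detZ (G.e 0) (G.h 2) : ℝ)) • toR (G.h 2) - G.v 0 =
      (G.v 2 - G.v 0) + (G.l 2 - G.l 3 * G.p 0 / (detZ (G.e 0) (G.h 2) : ℝ)) • toR (G.h 2) := by
        abel
    rw [GQuad.g, this, det2_add_right, det2_smul_right, det2_toR, sub_mul,
      div_mul_cancel₀ _ hP.ne']
    have := G.g_v2'
    rw [GQuad.g] at this
    rw [this]; ring
  have hl : G.lam 2 ((GQuad.Rmove C).v 2) = 0 := by
    rw [← GQuad.Rlam2 C]; exact (GQuad.Rmove C).lam_v_self 2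
  have hc := G.lam2_coord ((GQuad.Rmove C).v 2)
  rw [hl, hg, neg_zero, zero_div, zero_mul, add_zero] at hc
  rw [hg, neg_zero, zero_div, zero_smul, zero_add] at h1
  have h2 : G.lam 3 ((GQuad.Rmove C).v 2) / (G.p 0 : ℝ) =
      G.l 3 * (G.p 3 : ℝ)^2 / (detZ (G.e 0) (G.h 2) : ℝ) := by
    rw [eq_div_iff hP.ne']; linarith
  rw [h2] at h1
  rw [← h1]; abel

lemma lam_pos_of_interior {G : GQuad} {u : ℝ × ℝ} (hu : u ∈ interior G.region) (k : Fin 4) :
    0 < G.lam k u := by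
  have hp : (0:ℝ) < G.p k := by exact_mod_cast G.ppos k
  have hcont : Continuous fun t : ℝ => u - t • toR (G.e k) := by fun_prop
  have hnear : ∀ᶠ t in nhds (0:ℝ), u - t • toR (G.e k) ∈ interior G.region := by
    apply hcont.continuousAt.eventually_mem
    rw [zero_smul, sub_zero]
    exact isOpen_interior.mem_nhds hu
  obtain ⟨ε, hε, hball⟩ := Metric.eventually_nhds_iff.mp hnear
  have h1 : u - (ε / 2) • toR (G.e k) ∈ interior G.region := by
    apply hball
    rw [Real.dist_eq, sub_zero, abs_of_pos (by linarith)]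
    linarith
  have h2 := interior_subset h1 k
  have h3 : G.lam k (u - (ε / 2) • toR (G.e k)) = G.lam k u - (ε / 2) * G.p k := by
    have : u - (ε / 2) • toR (G.e k) - G.v k = (u - G.v k) - (ε / 2) • toR (G.e k) := by abel
    rw [GQuad.lam, this, det2_sub_right, det2_smul_right, det2_toR, G.T.dhe]; rfl
  rw [h3] at h2
  have := mul_pos (half_pos hε) hp
  linarith

lemma forward_L (M : Models D G σ) (C : G.LC) (H : MutateAnti D (σ 0) D') :
    Models D' (GQuad.Lmove C) (permL.trans σ) := by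
  have hP : (0:ℝ) < (detZ (G.e 0) (G.h 1) : ℝ) := by exact_mod_cast C.P
  have hR := GQuad.mutRegion_L C
  have hreg : D'.region = (GQuad.Lmove C).region := by
    rw [H.1]; exact M.region_of_mut hR
  obtain ⟨n1, g1⟩ := M.node_moved H (k := 1) (by decide) (g1_data G).1 (g1_data G).2
  obtain ⟨n2, g2⟩ := M.node_unmoved H (k := 2) (by decide) (g2_data_L C).1 (g2_data_L C).2
  obtain ⟨n3, g3⟩ := M.node_unmoved H (k := 3) (by decide) (g3_data G).1 (g3_data G).2
  rw [M.moved_node_eq] at n1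
  have n0 := H.2.1
  refine ⟨hreg, ?_, ?_, ?_⟩
  · intro k
    fin_cases k
    · show (D'.node (σ (permL 0))).dir = -(monoInvZ (G.e 0) (G.e 1))
      rw [permL0, n1]
    · show (D'.node (σ (permL 1))).dir = -(-(G.e 0))
      rw [permL1, n0, M.dir]
    · show (D'.node (σ (permL 2))).dir = -(G.e 2)
      rw [permL2, n2, M.dir]
    · show (D'.node (σ (permL 3))).dir = -(G.e 3)
      rw [permL3, n3, M.dir]
  · intro k
    fin_cases k
    · obtain ⟨s, hs, hpos⟩ := M.pos 1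
      refine ⟨s, hs, ?_⟩
      show (D'.node (σ (permL 0))).pos = G.v 0 + G.l 0 • toR (G.h 3) +
        s • toR (monoInvZ (G.e 0) (G.e 1))
      rw [permL0, n1, hpos, G.shr_ray, G.shr_v1]
    · obtain ⟨s, hs, hpos⟩ := M.pos 0
      refine ⟨G.l 0 * (G.p 1 : ℝ)^2 / (detZ (G.e 0) (G.h 1) : ℝ) - s, ?_, ?_⟩
      · have h1 := lam_pos_of_interior (M.int 0) 1
        rw [hpos, G.lam_coord, G.lam1_v0] at h1
        have h2 : G.g (G.v 0 + s • toR (G.e 0)) = 0 := by
          rw [G.g_ray, G.g_v0, detZ_self]; simp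
        have h3 : G.lam 3 (G.v 0 + s • toR (G.e 0)) = s * G.p 0 := by
          have e1 : G.lam 0 (G.v 0 + s • toR (G.e 0)) = s * G.p 0 := G.lam_ray 0 s
          rw [G.lam0_eq, h2, mul_zero, add_zero] at e1
          exact e1
        rw [h2, h3, neg_zero, zero_div, zero_mul, add_zero, mul_div_cancel_right₀ _ G.p0R.ne',
          G.DE1] at h1
        rw [sub_pos, lt_div_iff₀ hP]
        linarith
      · show (D'.node (σ (permL 1))).pos = (GQuad.Lmove C).v 1 + _ • toR (-(G.e 0))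
        rw [permL1, n0, Lv1_eq, toR_neg]
        show (D.node (σ 0)).pos = _
        rw [hpos, smul_neg, sub_smul]; abel
    · obtain ⟨s, hs, hpos⟩ := M.pos 2
      refine ⟨s, hs, ?_⟩
      show (D'.node (σ (permL 2))).pos = G.v 2 + s • toR (G.e 2)
      rw [permL2, n2, hpos]
    · obtain ⟨s, hs, hpos⟩ := M.pos 3
      refine ⟨s, hs, ?_⟩
      show (D'.node (σ (permL 3))).pos = G.v 3 + s • toR (G.e 3)
      rw [permL3, n3, hpos]
  · intro k
    fin_cases k
    · show (D'.node (σ (permL 0))).pos ∈ _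
      rw [permL0, n1]
      exact GQuad.interior_moved hR (M.int 1) g1
    · show (D'.node (σ (permL 1))).pos ∈ _
      rw [permL1, n0]
      obtain ⟨s, hs, hpos⟩ := M.pos 0
      exact GQuad.interior_unmoved hR (M.int 0) (by
        rw [hpos, G.g_ray, G.g_v0, detZ_self]; simp)
    · show (D'.node (σ (permL 2))).pos ∈ _
      rw [permL2, n2]
      exact GQuad.interior_unmoved hR (M.int 2) g2
    · show (D'.node (σ (permL 3))).pos ∈ _
      rw [permL3, n3]
      exact GQuad.interior_unmoved hR (M.int 3) g3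

lemma forward_R (M : Models D G σ) (C : G.RC) (H : MutateAnti D (σ 0) D') :
    Models D' (GQuad.Rmove C) (permR.trans σ) := by
  have hP : (0:ℝ) < (detZ (G.e 0) (G.h 2) : ℝ) := by exact_mod_cast C.P
  have hR := GQuad.mutRegion_R C
  have hreg : D'.region = (GQuad.Rmove C).region := by
    rw [H.1]; exact M.region_of_mut hR
  obtain ⟨n1, g1⟩ := M.node_moved H (k := 1) (by decide) (g1_data G).1 (g1_data G).2
  obtain ⟨n2, g2⟩ := M.node_moved H (k := 2) (by decide) (g2_data_R C).1 (g2_data_R C).2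
  obtain ⟨n3, g3⟩ := M.node_unmoved H (k := 3) (by decide) (g3_data G).1 (g3_data G).2
  rw [M.moved_node_eq] at n1 n2
  have n0 := H.2.1
  refine ⟨hreg, ?_, ?_, ?_⟩
  · intro k
    fin_cases k
    · show (D'.node (σ (permR 0))).dir = -(monoInvZ (G.e 0) (G.e 1))
      rw [permR0, n1]
    · show (D'.node (σ (permR 1))).dir = -(monoInvZ (G.e 0) (G.e 2))
      rw [permR1, n2]
    · show (D'.node (σ (permR 2))).dir = -(-(G.e 0))
      rw [permR2, n0, M.dir]
    · show (D'.node (σ (permR 3))).dir = -(G.e 3)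
      rw [permR3, n3, M.dir]
  · intro k
    fin_cases k
    · obtain ⟨s, hs, hpos⟩ := M.pos 1
      refine ⟨s, hs, ?_⟩
      show (D'.node (σ (permR 0))).pos = G.v 0 + G.l 0 • toR (G.h 3) +
        s • toR (monoInvZ (G.e 0) (G.e 1))
      rw [permR0, n1, hpos, G.shr_ray, G.shr_v1]
    · obtain ⟨s, hs, hpos⟩ := M.pos 2
      refine ⟨s, hs, ?_⟩
      show (D'.node (σ (permR 1))).pos = (G.v 0 + G.l 0 • toR (G.h 3) +
        G.l 1 • toR (monoInvZ (G.e 0) (G.h 1))) + s • toR (monoInvZ (G.e 0) (G.e 2))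
      rw [permR1, n2, hpos, G.shr_ray, G.v2, G.shr_add, G.shr_v1, toR_monoInv (G.e 0) (G.h 1),
        det2_smul_left, smul_sub, smul_smul]
    · obtain ⟨s, hs, hpos⟩ := M.pos 0
      refine ⟨G.l 3 * (G.p 3 : ℝ)^2 / (detZ (G.e 0) (G.h 2) : ℝ) - s, ?_, ?_⟩
      · have h1 := lam_pos_of_interior (M.int 0) 2
        rw [hpos, G.lam_coord, G.lam2_v0] at h1
        have h2 : G.g (G.v 0 + s • toR (G.e 0)) = 0 := by
          rw [G.g_ray, G.g_v0, detZ_self]; simp
        have h3 : G.lam 3 (G.v 0 + s • toR (G.e 0)) = s * G.p 0 := by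
          have e1 : G.lam 0 (G.v 0 + s • toR (G.e 0)) = s * G.p 0 := G.lam_ray 0 s
          rw [G.lam0_eq, h2, mul_zero, add_zero] at e1
          exact e1
        rw [h2, h3, neg_zero, zero_div, zero_mul, add_zero, mul_div_cancel_right₀ _ G.p0R.ne',
          G.DE2] at h1
        rw [sub_pos, lt_div_iff₀ hP]
        linarith
      · show (D'.node (σ (permR 2))).pos = (GQuad.Rmove C).v 2 + _ • toR (-(G.e 0))
        rw [permR2, n0, Rv2_eq, toR_neg]
        show (D.node (σ 0)).pos = _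
        rw [hpos, smul_neg, sub_smul]; abel
    · obtain ⟨s, hs, hpos⟩ := M.pos 3
      refine ⟨s, hs, ?_⟩
      show (D'.node (σ (permR 3))).pos = G.v 3 + s • toR (G.e 3)
      rw [permR3, n3, hpos]
  · intro k
    fin_cases k
    · show (D'.node (σ (permR 0))).pos ∈ _
      rw [permR0, n1]
      exact GQuad.interior_moved hR (M.int 1) g1
    · show (D'.node (σ (permR 1))).pos ∈ _
      rw [permR1, n2]
      exact GQuad.interior_moved hR (M.int 2) g2
    · show (D'.node (σ (permR 2))).pos ∈ _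
      rw [permR2, n0]
      obtain ⟨s, hs, hpos⟩ := M.pos 0
      exact GQuad.interior_unmoved hR (M.int 0) (by
        rw [hpos, G.g_ray, G.g_v0, detZ_self]; simp)
    · show (D'.node (σ (permR 3))).pos ∈ _
      rw [permR3, n3]
      exact GQuad.interior_unmoved hR (M.int 3) g3

/-- a mutation (anticlockwise) of a modelled diagram is modelled -/
theorem forward_anti (M : Models D G σ) {i : Fin 4} (H : MutateAnti D i D') :
    ∃ (G' : GQuad) (σ' : Equiv.Perm (Fin 4)), Models D' G' σ' ∧ G'.per = G.per := by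
  obtain ⟨k, rfl⟩ := σ.surjective i
  have M' := M.rotBy k
  have hk : ((Equiv.addRight k).trans σ) 0 = σ k := by simp
  rw [← hk] at H
  rcases (G.rotBy k).LC_or_RC with C | C
  · exact ⟨_, _, M'.forward_L C H, by rw [GQuad.per_Lmove, GQuad.per_rotBy]⟩
  · exact ⟨_, _, M'.forward_R C H, by rw [GQuad.per_Rmove, GQuad.per_rotBy]⟩

/-- slides -/
theorem forward_slide (M : Models D G σ) (H : Slide D D') : Models D' G σ where
  region := by rw [H.1]; exact M.region
  dir k := by rw [(H.2 (σ k)).1]; exact M.dir k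
  int k := by rw [← M.region]; exact (H.2 (σ k)).2.1
  pos k := by
    obtain ⟨_, hint, t, ht⟩ := H.2 (σ k)
    obtain ⟨s, hs, hpos⟩ := M.pos k
    rw [hpos, M.dir, toR_neg] at ht
    have e1 : (D'.node (σ k)).pos = G.v k + (s - t) • toR (G.e k) := by
      rw [ht, sub_smul, smul_neg]; abel
    refine ⟨s - t, ?_, e1⟩
    rw [M.region] at hint
    have h1 := lam_pos_of_interior hint k
    rw [e1, G.lam_ray] at h1
    have hp : (0:ℝ) < G.p k := by exact_mod_cast G.ppos k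
    by_contra hc
    push Not at hc
    have := mul_nonpos_of_nonpos_of_nonneg hc hp.le
    linarith

end Models

end Pool.Agent.MP_fafc5c_gt
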