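import Pool.Agent.MP_fafc5c_gt.Geom

set_option autoImplicit false
set_option linter.unusedVariables false

namespace Pool.Agent.MP_fafc5c_gt

lemma toR_monoInv (e u : ℤ × ℤ) :
    toR (monoInvZ e u) = toR u - det2 (toR u) (toR e) • toR e := by
  rw [monoInvZ, toR_sub, toR_smul, det2_toR]

namespace GQuad

variable (G : GQuad)

/-- the eigenline at the corner `0` ends on the edge `1` -/
structure LC : Prop where
  l0 : 0 < G.l 0
  P : 0 < detZ (G.e 0) (G.h 1)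
  le : G.l 0 * G.p 0 ≤ G.l 1 * (detZ (G.e 0) (G.h 1) : ℝ)
  wall : G.l 0 * G.p 0 = G.l 1 * (detZ (G.e 0) (G.h 1) : ℝ) → 0 ≤ detZ (G.e 0) (G.e 2)

/-- the eigenline at the corner `0` ends on the edge `2` -/
structure RC : Prop where
  l3 : 0 < G.l 3
  P : 0 < detZ (G.e 0) (G.h 2)
  le : G.l 3 * G.p 0 ≤ G.l 2 * (detZ (G.e 0) (G.h 2) : ℝ)
  wall : G.l 3 * G.p 0 = G.l 2 * (detZ (G.e 0) (G.h 2) : ℝ) → detZ (G.e 0) (G.e 2) ≤ 0

lemma P1_neg (h0 : G.l 0 = 0) : detZ (G.e 0) (G.h 1) < 0 := by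
  have h1 := G.hk 0 h0
  simp only [zero_add] at h1
  rw [G.T.h1', detZ_add_right, detZ_smul_right, detZ_swap, G.T.dhe0]
  have := G.ppos 0
  have := G.ppos 1
  nlinarith

lemma P2_neg (h3 : G.l 3 = 0) : detZ (G.e 0) (G.h 2) < 0 := by
  have h1 := G.hk 3 h3
  simp only [Fin.reduceAdd] at h1
  have : G.h 2 = G.h 3 - G.p 3 • G.e 3 := by rw [G.T.h3]; abel
  rw [this, detZ_sub_right, detZ_smul_right, detZ_swap, G.T.dhe3, detZ_swap (G.e 0) (G.e 3)]
  have := G.ppos 0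
  have := G.ppos 3
  nlinarith

lemma LC_or_RC : G.LC ∨ G.RC := by
  have g2 := G.g_v2
  have g2' := G.g_v2'
  have p0 : (0:ℝ) < G.p 0 := by exact_mod_cast G.ppos 0
  have l0 := G.lnn 0
  have l1 := G.lnn 1
  have l2 := G.lnn 2
  have l3 := G.lnn 3
  have n0 : G.l 0 = 0 → ((detZ (G.e 0) (G.h 1) : ℤ) : ℝ) < 0 := fun h => by
    exact_mod_cast G.P1_neg h
  have n3 : G.l 3 = 0 → ((detZ (G.e 0) (G.h 2) : ℤ) : ℝ) < 0 := fun h => by
    exact_mod_cast G.P2_neg h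
  have LP : 0 < G.l 0 → G.l 0 * G.p 0 ≤ G.l 1 * (detZ (G.e 0) (G.h 1) : ℝ) →
      0 < detZ (G.e 0) (G.h 1) := by
    intro h1 h2
    by_contra hc
    push Not at hc
    have hc' : ((detZ (G.e 0) (G.h 1) : ℤ) : ℝ) ≤ 0 := by exact_mod_cast hc
    have := mul_pos h1 p0
    have := mul_nonpos_of_nonneg_of_nonpos l1 hc'
    linarith
  have RP : 0 < G.l 3 → G.l 3 * G.p 0 ≤ G.l 2 * (detZ (G.e 0) (G.h 2) : ℝ) →
      0 < detZ (G.e 0) (G.h 2) := by
    intro h1 h2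
    by_contra hc
    push Not at hc
    have hc' : ((detZ (G.e 0) (G.h 2) : ℤ) : ℝ) ≤ 0 := by exact_mod_cast hc
    have := mul_pos h1 p0
    have := mul_nonpos_of_nonneg_of_nonpos l2 hc'
    linarith
  rcases lt_trichotomy (G.g (G.v 2)) 0 with hg | hg | hg
  · right
    have h3 : 0 < G.l 3 := by
      rcases l3.lt_or_eq with h | h
      · exact h
      · exfalso
        have := mul_nonpos_of_nonneg_of_nonpos l2 (n3 h.symm).le
        rw [← h] at g2'
        linarith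
    exact ⟨h3, RP h3 (by linarith), by linarith, fun h => by exfalso; linarith⟩
  · have h0 : 0 < G.l 0 := by
      rcases l0.lt_or_eq with h | h
      · exact h
      · exfalso
        rw [hg, ← h] at g2
        have : G.l 1 * ((detZ (G.e 0) (G.h 1) : ℤ) : ℝ) = 0 := by linarith
        rcases mul_eq_zero.mp this with h' | h'
        · exact absurd (G.hone 0 1 h.symm h') (by decide)
        · have := n0 h.symm
          linarith
    have h3 : 0 < G.l 3 := by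
      rcases l3.lt_or_eq with h | h
      · exact h
      · exfalso
        rw [hg, ← h] at g2'
        have : G.l 2 * ((detZ (G.e 0) (G.h 2) : ℤ) : ℝ) = 0 := by linarith
        rcases mul_eq_zero.mp this with h' | h'
        · exact absurd (G.hone 3 2 h.symm h') (by decide)
        · have := n3 h.symm
          linarith
    rcases le_total 0 (detZ (G.e 0) (G.e 2)) with hd | hd
    · left
      exact ⟨h0, LP h0 (by linarith), by linarith, fun _ => hd⟩
    · right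
      exact ⟨h3, RP h3 (by linarith), by linarith, fun _ => hd⟩
  · left
    have h0 : 0 < G.l 0 := by
      rcases l0.lt_or_eq with h | h
      · exact h
      · exfalso
        have := mul_nonpos_of_nonneg_of_nonpos l1 (n0 h.symm).le
        rw [← h] at g2
        linarith
    exact ⟨h0, LP h0 (by linarith), by linarith, fun h => by exfalso; linarith⟩

lemma vE : G.v 0 + G.l 0 • toR (G.h 0) = G.v 0 + G.l 0 • toR (G.h 3) +
    (G.l 0 * G.p 0) • toR (G.e 0) := by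
  rw [G.H0, smul_add, smul_smul, add_assoc]

lemma even_neg {a b : ℤ × ℤ} (h : (2:ℤ) ∣ a.1 - b.1 ∧ (2:ℤ) ∣ a.2 - b.2) :
    (2:ℤ) ∣ (-a).1 - b.1 ∧ (2:ℤ) ∣ (-a).2 - b.2 := by
  simp only [Prod.fst_neg, Prod.snd_neg]
  omega

lemma even_monoInv {a b : ℤ × ℤ} (h : (2:ℤ) ∣ a.1 - b.1 ∧ (2:ℤ) ∣ a.2 - b.2) :
    (2:ℤ) ∣ (monoInvZ b a).1 - a.1 ∧ (2:ℤ) ∣ (monoInvZ b a).2 - a.2 := by
  obtain ⟨⟨m, hm⟩, ⟨n, hn⟩⟩ := h
  have h1 : a.1 = b.1 + 2 * m := by linarith
  have h2 : a.2 = b.2 + 2 * n := by linarith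
  have hd : detZ a b = 2 * (m * b.2 - n * b.1) := by
    simp only [detZ, h1, h2]; ring
  simp only [monoInvZ, Prod.fst_sub, Prod.snd_sub, Prod.smul_fst, Prod.smul_snd, smul_eq_mul, hd]
  exact ⟨⟨-(m * b.2 - n * b.1) * b.1, by ring⟩, ⟨-(m * b.2 - n * b.1) * b.2, by ring⟩⟩

/-- parity relation -/
def par (a b : ℤ × ℤ) : Prop := (2:ℤ) ∣ a.1 - b.1 ∧ (2:ℤ) ∣ a.2 - b.2

lemma par_trans {a b c : ℤ × ℤ} (h1 : par a b) (h2 : par b c) : par a c := by
  unfold par at *; omega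
lemma par_symm {a b : ℤ × ℤ} (h1 : par a b) : par b a := by
  unfold par at *; omega
lemma par_refl (a : ℤ × ℤ) : par a a := by
  unfold par; simp

lemma even_of_base {f : Fin 4 → ℤ × ℤ} {b : ℤ × ℤ} (h : ∀ k, par (f k) b) :
    ∀ j k, par (f j) (f k) := fun j k => par_trans (h j) (par_symm (h k))

variable {G}

/-- the mutated polygon, first case -/
noncomputable def Lmove (C : G.LC) : GQuad where
  h := Lh G.h G.e
  e := Le G.e
  p := Lp G.h G.e G.p
  v := ![G.v 0 + G.l 0 • toR (G.h 3),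
    G.v 1 + (G.l 0 * G.p 0 / (detZ (G.e 0) (G.h 1) : ℝ)) • toR (G.h 1), G.v 2, G.v 3]
  l := ![G.l 0 * G.p 0 / (detZ (G.e 0) (G.h 1) : ℝ),
    G.l 1 - G.l 0 * G.p 0 / (detZ (G.e 0) (G.h 1) : ℝ), G.l 2, G.l 3 + G.l 0]
  T := G.T.L C.P.ne'
  ppos k := by
    fin_cases k
    · exact G.ppos 1
    · exact C.P
    · exact G.ppos 2
    · exact G.ppos 3
  lnn k := by
    have hP : (0:ℝ) < (detZ (G.e 0) (G.h 1) : ℝ) := by exact_mod_cast C.P
    have p0 : (0:ℝ) < G.p 0 := by exact_mod_cast G.ppos 0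
    fin_cases k
    · exact div_nonneg (mul_nonneg C.l0.le p0.le) hP.le
    · show (0:ℝ) ≤ G.l 1 - G.l 0 * G.p 0 / (detZ (G.e 0) (G.h 1) : ℝ)
      rw [sub_nonneg, div_le_iff₀ hP]; exact C.le
    · exact G.lnn 2
    · exact add_nonneg (G.lnn 3) (G.lnn 0)
  hv k := by
    have hP : (0:ℝ) < (detZ (G.e 0) (G.h 1) : ℝ) := by exact_mod_cast C.P
    fin_cases k
    · show G.v 1 + (G.l 0 * G.p 0 / (detZ (G.e 0) (G.h 1) : ℝ)) • toR (G.h 1) =
        G.v 0 + G.l 0 • toR (G.h 3) + (G.l 0 * G.p 0 / (detZ (G.e 0) (G.h 1) : ℝ)) •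
          toR (monoInvZ (G.e 0) (G.h 1))
      rw [toR_monoInv, det2_swap, det2_toR, G.v1, G.vE, neg_smul, sub_neg_eq_add, smul_add,
        smul_smul, div_mul_cancel₀ _ hP.ne']
      abel
    · show G.v 2 = G.v 1 + (G.l 0 * G.p 0 / (detZ (G.e 0) (G.h 1) : ℝ)) • toR (G.h 1) +
        (G.l 1 - G.l 0 * G.p 0 / (detZ (G.e 0) (G.h 1) : ℝ)) • toR (G.h 1)
      rw [G.v2, sub_smul]; abel
    · exact G.v3
    · show G.v 0 + G.l 0 • toR (G.h 3) = G.v 3 + (G.l 3 + G.l 0) • toR (G.h 3)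
      rw [G.v0, add_smul]; abel
  hk k hl := by
    have hP : (0:ℝ) < (detZ (G.e 0) (G.h 1) : ℝ) := by exact_mod_cast C.P
    have p0 : (0:ℝ) < G.p 0 := by exact_mod_cast G.ppos 0
    fin_cases k
    · exfalso
      have : (0:ℝ) < G.l 0 * G.p 0 / (detZ (G.e 0) (G.h 1) : ℝ) :=
        div_pos (mul_pos C.l0 p0) hP
      exact absurd hl this.ne'
    · have hl' : G.l 1 - G.l 0 * G.p 0 / (detZ (G.e 0) (G.h 1) : ℝ) = 0 := hl
      have : G.l 0 * G.p 0 = G.l 1 * (detZ (G.e 0) (G.h 1) : ℝ) := by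
        have h1 : G.l 1 = G.l 0 * G.p 0 / (detZ (G.e 0) (G.h 1) : ℝ) := by linarith
        rw [h1, div_mul_cancel₀ _ hP.ne']
      have := C.wall this
      show detZ (-(G.e 0)) (G.e 2) ≤ 0
      rw [detZ_neg_left]; linarith
    · have := G.hk 2 hl
      exact this
    · exfalso
      have hl' : G.l 3 + G.l 0 = 0 := hl
      have := G.lnn 3
      have := C.l0
      linarith
  hone j k hj hk := by
    have hP : (0:ℝ) < (detZ (G.e 0) (G.h 1) : ℝ) := by exact_mod_cast C.P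
    have p0 : (0:ℝ) < G.p 0 := by exact_mod_cast G.ppos 0
    have n0 : G.l 0 * G.p 0 / (detZ (G.e 0) (G.h 1) : ℝ) ≠ 0 :=
      (div_pos (mul_pos C.l0 p0) hP).ne'
    have n3 : G.l 3 + G.l 0 ≠ 0 := by
      have := G.lnn 3
      have := C.l0
      linarith
    have n12 : ¬ (G.l 1 - G.l 0 * G.p 0 / (detZ (G.e 0) (G.h 1) : ℝ) = 0 ∧ G.l 2 = 0) := by
      rintro ⟨h1, h2⟩
      have g2 := G.g_v2
      have g2' := G.g_v2'
      have h1' : G.l 1 = G.l 0 * G.p 0 / (detZ (G.e 0) (G.h 1) : ℝ) := by linarith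
      have : G.l 1 * (detZ (G.e 0) (G.h 1) : ℝ) = G.l 0 * G.p 0 := by
        rw [h1', div_mul_cancel₀ _ hP.ne']
      rw [h2] at g2'
      have h3 : G.l 3 * G.p 0 = 0 := by linarith
      rcases mul_eq_zero.mp h3 with h4 | h4
      · exact absurd (G.hone 3 2 h4 h2) (by decide)
      · exact absurd h4 p0.ne'
    fin_cases j <;> fin_cases k <;>
      first
      | rfl
      | exact absurd hj n0
      | exact absurd hk n0
      | exact absurd hj n3
      | exact absurd hk n3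
      | exact (n12 ⟨hj, hk⟩).elim
      | exact (n12 ⟨hk, hj⟩).elim
  even := even_of_base (f := Le G.e) (b := G.e 0) (fun k => by
    fin_cases k
    · exact par_trans (even_monoInv (G.even 1 0)) (G.even 1 0)
    · exact even_neg (par_refl _)
    · exact G.even 2 0
    · exact G.even 3 0)

/-- the mutated polygon, second case -/
noncomputable def Rmove (C : G.RC) : GQuad where
  h := Rh G.h G.e
  e := Re G.e
  p := Rp G.h G.e G.p
  v := ![G.v 0 + G.l 0 • toR (G.h 3),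
    G.v 0 + G.l 0 • toR (G.h 3) + G.l 1 • toR (monoInvZ (G.e 0) (G.h 1)),
    G.v 2 + (G.l 2 - G.l 3 * G.p 0 / (detZ (G.e 0) (G.h 2) : ℝ)) • toR (G.h 2), G.v 3]
  l := ![G.l 1, G.l 2 - G.l 3 * G.p 0 / (detZ (G.e 0) (G.h 2) : ℝ),
    G.l 3 * G.p 0 / (detZ (G.e 0) (G.h 2) : ℝ), G.l 3 + G.l 0]
  T := G.T.R C.P.ne'
  ppos k := by
    fin_cases k
    · exact G.ppos 1
    · exact G.ppos 2
    · exact C.P
    · exact G.ppos 3
  lnn k := by
    have hP : (0:ℝ) < (detZ (G.e 0) (G.h 2) : ℝ) := by exact_mod_cast C.P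
    have p0 : (0:ℝ) < G.p 0 := by exact_mod_cast G.ppos 0
    fin_cases k
    · exact G.lnn 1
    · show (0:ℝ) ≤ G.l 2 - G.l 3 * G.p 0 / (detZ (G.e 0) (G.h 2) : ℝ)
      rw [sub_nonneg, div_le_iff₀ hP]; exact C.le
    · exact div_nonneg (mul_nonneg C.l3.le p0.le) hP.le
    · exact add_nonneg (G.lnn 3) (G.lnn 0)
  hv k := by
    have hP : (0:ℝ) < (detZ (G.e 0) (G.h 2) : ℝ) := by exact_mod_cast C.P
    fin_cases k
    · rfl
    · show G.v 2 + (G.l 2 - G.l 3 * G.p 0 / (detZ (G.e 0) (G.h 2) : ℝ)) • toR (G.h 2) =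
        G.v 0 + G.l 0 • toR (G.h 3) + G.l 1 • toR (monoInvZ (G.e 0) (G.h 1)) +
        (G.l 2 - G.l 3 * G.p 0 / (detZ (G.e 0) (G.h 2) : ℝ)) • toR (monoInvZ (G.e 0) (G.h 2))
      have key : G.l 0 * G.p 0 = G.l 1 * (detZ (G.e 0) (G.h 1) : ℝ) +
          (G.l 2 - G.l 3 * G.p 0 / (detZ (G.e 0) (G.h 2) : ℝ)) * (detZ (G.e 0) (G.h 2) : ℝ) := by
        have g2 := G.g_v2
        have g2' := G.g_v2'
        rw [sub_mul, div_mul_cancel₀ _ hP.ne']
        linarith
      rw [toR_monoInv, toR_monoInv, det2_swap (toR (G.h 1)), det2_swap (toR (G.h 2)), det2_toR,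
        det2_toR, G.v2, G.v1, G.vE, key]
      simp only [neg_smul, sub_neg_eq_add, smul_add, smul_smul, add_smul]
      abel
    · show G.v 3 = G.v 2 + (G.l 2 - G.l 3 * G.p 0 / (detZ (G.e 0) (G.h 2) : ℝ)) • toR (G.h 2) +
        (G.l 3 * G.p 0 / (detZ (G.e 0) (G.h 2) : ℝ)) • toR (G.h 2)
      rw [G.v3, sub_smul]; abel
    · show G.v 0 + G.l 0 • toR (G.h 3) = G.v 3 + (G.l 3 + G.l 0) • toR (G.h 3)
      rw [G.v0, add_smul]; abel
  hk k hl := by
    have hP : (0:ℝ) < (detZ (G.e 0) (G.h 2) : ℝ) := by exact_mod_cast C.P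
    have p0 : (0:ℝ) < G.p 0 := by exact_mod_cast G.ppos 0
    fin_cases k
    · have := G.hk 1 hl
      show detZ (monoInvZ (G.e 0) (G.e 1)) (monoInvZ (G.e 0) (G.e 2)) ≤ 0
      rw [detZ_monoInv]; exact this
    · have hl' : G.l 2 - G.l 3 * G.p 0 / (detZ (G.e 0) (G.h 2) : ℝ) = 0 := hl
      have : G.l 3 * G.p 0 = G.l 2 * (detZ (G.e 0) (G.h 2) : ℝ) := by
        have h1 : G.l 2 = G.l 3 * G.p 0 / (detZ (G.e 0) (G.h 2) : ℝ) := by linarith
        rw [h1, div_mul_cancel₀ _ hP.ne']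
      have := C.wall this
      show detZ (monoInvZ (G.e 0) (G.e 2)) (-(G.e 0)) ≤ 0
      rw [detZ_neg_right, monoInvZ, detZ_sub_left, detZ_smul_left, detZ_self,
        detZ_swap (G.e 2) (G.e 0)]
      linarith
    · exfalso
      have : (0:ℝ) < G.l 3 * G.p 0 / (detZ (G.e 0) (G.h 2) : ℝ) :=
        div_pos (mul_pos C.l3 p0) hP
      exact absurd hl this.ne'
    · exfalso
      have hl' : G.l 3 + G.l 0 = 0 := hl
      have := G.lnn 0
      have := C.l3
      linarith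
  hone j k hj hk := by
    have hP : (0:ℝ) < (detZ (G.e 0) (G.h 2) : ℝ) := by exact_mod_cast C.P
    have p0 : (0:ℝ) < G.p 0 := by exact_mod_cast G.ppos 0
    have n2 : G.l 3 * G.p 0 / (detZ (G.e 0) (G.h 2) : ℝ) ≠ 0 :=
      (div_pos (mul_pos C.l3 p0) hP).ne'
    have n3 : G.l 3 + G.l 0 ≠ 0 := by
      have := G.lnn 0
      have := C.l3
      linarith
    have n12 : ¬ (G.l 1 = 0 ∧ G.l 2 - G.l 3 * G.p 0 / (detZ (G.e 0) (G.h 2) : ℝ) = 0) := by
      rintro ⟨h1, h2⟩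
      have g2 := G.g_v2
      have g2' := G.g_v2'
      have h1' : G.l 2 = G.l 3 * G.p 0 / (detZ (G.e 0) (G.h 2) : ℝ) := by linarith
      have : G.l 2 * (detZ (G.e 0) (G.h 2) : ℝ) = G.l 3 * G.p 0 := by
        rw [h1', div_mul_cancel₀ _ hP.ne']
      rw [h1] at g2
      have h3 : G.l 0 * G.p 0 = 0 := by linarith
      rcases mul_eq_zero.mp h3 with h4 | h4
      · exact absurd (G.hone 0 1 h4 h1) (by decide)
      · exact absurd h4 p0.ne'
    fin_cases j <;> fin_cases k <;>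
      first
      | rfl
      | exact absurd hj n2
      | exact absurd hk n2
      | exact absurd hj n3
      | exact absurd hk n3
      | exact (n12 ⟨hj, hk⟩).elim
      | exact (n12 ⟨hk, hj⟩).elim
  even := even_of_base (f := Re G.e) (b := G.e 0) (fun k => by
    fin_cases k
    · exact par_trans (even_monoInv (G.even 1 0)) (G.even 1 0)
    · exact par_trans (even_monoInv (G.even 2 0)) (G.even 2 0)
    · exact even_neg (par_refl _)
    · exact G.even 3 0)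

end GQuad

end Pool.Agent.MP_fafc5c_gt
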