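import Pool.Agent.MP_fafc5c_gt.GMoves

set_option autoImplicit false
set_option linter.unusedVariables false

namespace Pool.Agent.MP_fafc5c_gt

lemma tri_pos {b P l α β A B δ : ℝ} (hb : 0 < b) (hP : 0 < P) (hl : 0 < l)
    (hα : 0 ≤ α) (hβ : 0 ≤ β) (hX : 0 ≤ l * b - α * b - β * P)
    (hA : 0 ≤ A) (hAB : 0 ≤ A + l * B) (hAD : 0 ≤ A * P + l * b * δ) :
    0 ≤ A + α * B + β * δ := by
  have h1 : l * b * (A + α * B + β * δ) =
      (l * b - α * b - β * P) * A + α * b * (A + l * B) + β * (A * P + l * b * δ) := by ring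
  have h2 : 0 ≤ l * b * (A + α * B + β * δ) := by
    rw [h1]
    have := mul_nonneg hX hA
    have := mul_nonneg (mul_nonneg hα hb.le) hAB
    have := mul_nonneg hβ hAD
    linarith
  exact nonneg_of_mul_nonneg_right h2 (mul_pos hl hb)

namespace GQuad

variable (G : GQuad)

/-- `φ` at the corner `0` -/
def shf (u : ℝ × ℝ) : ℝ × ℝ := u - G.g u • toR (G.e 0)
/-- `φ⁻¹` at the corner `0` -/
def shr (u : ℝ × ℝ) : ℝ × ℝ := u + G.g u • toR (G.e 0)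

lemma DE1 : det2 (toR (G.h 1)) (toR (G.e 0)) = -(detZ (G.e 0) (G.h 1) : ℝ) := by
  rw [det2_swap, det2_toR]
lemma DE2 : det2 (toR (G.h 2)) (toR (G.e 0)) = -(detZ (G.e 0) (G.h 2) : ℝ) := by
  rw [det2_swap, det2_toR]

lemma g_shf (u : ℝ × ℝ) : G.g (G.shf u) = G.g u := by
  have : G.shf u - G.v 0 = (u - G.v 0) - G.g u • toR (G.e 0) := by rw [shf]; abel
  rw [g, this, det2_sub_right, det2_smul_right, det2_self, mul_zero, sub_zero]
  rfl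
lemma g_shr (u : ℝ × ℝ) : G.g (G.shr u) = G.g u := by
  have : G.shr u - G.v 0 = (u - G.v 0) + G.g u • toR (G.e 0) := by rw [shr]; abel
  rw [g, this, det2_add_right, det2_smul_right, det2_self, mul_zero, add_zero]
  rfl
lemma shf_shr (u : ℝ × ℝ) : G.shf (G.shr u) = u := by
  rw [shf, g_shr, shr]; abel
lemma shr_shf (u : ℝ × ℝ) : G.shr (G.shf u) = u := by
  rw [shr, g_shf, shf]; abel

lemma lam_shf (k : Fin 4) (u : ℝ × ℝ) :
    G.lam k (G.shf u) = G.lam k u - G.g u * det2 (toR (G.h k)) (toR (G.e 0)) := by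
  have : G.shf u - G.v k = (u - G.v k) - G.g u • toR (G.e 0) := by rw [shf]; abel
  rw [lam, this, det2_sub_right, det2_smul_right]; rfl

lemma lam0_eq (u : ℝ × ℝ) : G.lam 0 u = G.lam 3 u + G.p 0 * G.g u := by
  have h1 : u - G.v 3 = (u - G.v 0) + G.l 3 • toR (G.h 3) := by
    rw [G.v0]; abel
  rw [lam, lam, h1, det2_add_right, det2_smul_right, det2_self, mul_zero, add_zero, G.H0,
    det2_add_left, det2_smul_left]
  rfl

lemma p0R : (0:ℝ) < G.p 0 := by exact_mod_cast G.ppos 0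
lemma p1R : (0:ℝ) < G.p 1 := by exact_mod_cast G.ppos 1
lemma p2R : (0:ℝ) < G.p 2 := by exact_mod_cast G.ppos 2
lemma p3R : (0:ℝ) < G.p 3 := by exact_mod_cast G.ppos 3

/-- coordinates with respect to the frame `(h₃, e₀)` at `v₀` -/
lemma coord (u : ℝ × ℝ) : u - G.v 0 =
    (-(G.g u) / G.p 0) • toR (G.h 3) + (G.lam 3 u / G.p 0) • toR (G.e 0) := by
  have hp := G.p0R.ne'
  have h1 : G.lam 3 u = det2 (toR (G.h 3)) (u - G.v 0) := by
    have h1 : u - G.v 3 = (u - G.v 0) + G.l 3 • toR (G.h 3) := by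
      rw [G.v0]; abel
    rw [lam, h1, det2_add_right, det2_smul_right, det2_self, mul_zero, add_zero]
  have hd := G.DE3
  have h2 : (G.p 0 : ℝ) • (u - G.v 0) =
      (-(G.g u)) • toR (G.h 3) + (G.lam 3 u) • toR (G.e 0) := by
    rw [h1, ← hd, g]
    ext
    · simp only [det2, Prod.smul_fst, Prod.fst_add, smul_eq_mul]; ring
    · simp only [det2, Prod.smul_snd, Prod.snd_add, smul_eq_mul]; ring
  have h3 : u - G.v 0 = (G.p 0 : ℝ)⁻¹ • ((G.p 0 : ℝ) • (u - G.v 0)) := by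
    rw [smul_smul, inv_mul_cancel₀ hp, one_smul]
  rw [h3, h2, smul_add, smul_smul, smul_smul]
  congr 2 <;> field_simp

lemma lam_coord (k : Fin 4) (u : ℝ × ℝ) : G.lam k u = G.lam k (G.v 0) +
    (-(G.g u) / G.p 0) * det2 (toR (G.h k)) (toR (G.h 3)) +
    (G.lam 3 u / G.p 0) * det2 (toR (G.h k)) (toR (G.e 0)) := by
  have h1 : u - G.v k = (u - G.v 0) + (G.v 0 - G.v k) := by abel
  have h2 : G.lam k u = det2 (toR (G.h k)) (u - G.v 0) + G.lam k (G.v 0) := by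
    rw [lam, h1, det2_add_right]; rfl
  rw [h2, G.coord u, det2_add_right, det2_smul_right, det2_smul_right]
  ring

lemma lam1_v0 : G.lam 1 (G.v 0) = G.l 0 * (G.p 1 : ℝ) ^ 2 := by
  have := G.lam_v_three 1
  simpa using this
lemma lam2_v0 : G.lam 2 (G.v 0) = G.l 3 * (G.p 3 : ℝ) ^ 2 := by
  have := G.lam_v_two 2
  simpa using this

/-- closing relations -/
lemma close2 : G.l 3 * (G.p 3 : ℝ) ^ 2 - G.l 0 * (detZ (G.h 0) (G.h 2) : ℝ) =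
    G.l 1 * (G.p 2 : ℝ) ^ 2 := by
  have h1 := G.lam_v_three 2
  simp only [Fin.reduceAdd] at h1
  have h2 : G.v 1 - G.v 2 = (G.v 0 - G.v 2) + G.l 0 • toR (G.h 0) := by
    nth_rewrite 1 [G.v1]; abel
  rw [lam, h2, det2_add_right, det2_smul_right, det2_swap (toR (G.h 2)) (toR (G.h 0)),
    det2_toR] at h1
  have h3 := G.lam2_v0
  rw [lam] at h3
  rw [h3] at h1
  linarith
lemma close1 : G.l 0 * (G.p 1 : ℝ) ^ 2 - G.l 3 * (detZ (G.h 1) (G.h 3) : ℝ) =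
    G.l 2 * (G.p 2 : ℝ) ^ 2 := by
  have h1 := G.lam_v_two 1
  simp only [Fin.reduceAdd] at h1
  have h2 : G.v 3 - G.v 1 = (G.v 0 - G.v 1) - G.l 3 • toR (G.h 3) := by
    rw [G.v0]; abel
  rw [lam, h2, det2_sub_right, det2_smul_right, det2_toR] at h1
  have h3 := G.lam1_v0
  rw [lam] at h3
  rw [h3] at h1
  linarith

lemma pl_e : (detZ (G.h 0) (G.h 2) : ℝ) * (detZ (G.e 0) (G.h 1) : ℝ) =
    (G.p 1 : ℝ) ^ 2 * (detZ (G.e 0) (G.h 2) : ℝ) - G.p 0 * (G.p 2 : ℝ) ^ 2 := by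
  have h1 : detZ (G.h 0) (G.h 2) * detZ (G.e 0) (G.h 1) =
      detZ (G.h 0) (G.h 1) * detZ (G.e 0) (G.h 2) - detZ (G.h 0) (G.e 0) * detZ (G.h 1) (G.h 2) := by
    simp only [detZ]; ring
  rw [G.T.d01, G.T.d12, G.T.dhe0] at h1
  exact_mod_cast h1

lemma PL0R : (G.p 0 : ℝ) * (detZ (G.e 0) (G.h 1) : ℝ) =
    (G.p 1 : ℝ) ^ 2 + (detZ (G.h 1) (G.h 3) : ℝ) := by exact_mod_cast G.T.PL0
lemma PR0R : (G.p 0 : ℝ) * (detZ (G.e 0) (G.h 2) : ℝ) =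
    (detZ (G.h 0) (G.h 2) : ℝ) + (G.p 3 : ℝ) ^ 2 := by exact_mod_cast G.T.PR0

/-- `f₁` in coordinates -/
lemma lam1_coord (u : ℝ × ℝ) : G.lam 1 u = G.l 0 * (G.p 1 : ℝ) ^ 2 +
    (-(G.g u) / G.p 0) * (detZ (G.h 1) (G.h 3) : ℝ) -
    (G.lam 3 u / G.p 0) * (detZ (G.e 0) (G.h 1) : ℝ) := by
  rw [G.lam_coord 1 u, G.lam1_v0, det2_toR, G.DE1]; ring
lemma lam2_coord (u : ℝ × ℝ) : G.lam 2 u = G.l 3 * (G.p 3 : ℝ) ^ 2 +
    (-(G.g u) / G.p 0) * (G.p 3 : ℝ) ^ 2 -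
    (G.lam 3 u / G.p 0) * (detZ (G.e 0) (G.h 2) : ℝ) := by
  rw [G.lam_coord 2 u, G.lam2_v0, G.D23, G.DE2]; ring

variable {G}

lemma Llam0 (C : G.LC) (u : ℝ × ℝ) :
    (Lmove C).lam 0 u = G.lam 1 u + (detZ (G.e 0) (G.h 1) : ℝ) * G.g u := by
  show det2 (toR (monoInvZ (G.e 0) (G.h 1))) (u - (G.v 0 + G.l 0 • toR (G.h 3))) = _
  have h2 := G.DE3
  have h3 : u - G.v 1 = (u - G.v 0) - G.l 0 • toR (G.h 0) := by rw [G.v1]; abel
  rw [toR_monoInv, G.DE1, lam, h3, g, ← sub_sub]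
  generalize u - G.v 0 = w
  rw [det2_sub_left, det2_sub_right, det2_sub_right,
    det2_sub_right, det2_smul_left, det2_smul_left, det2_smul_right, det2_smul_right,
    det2_smul_right, det2_toR (G.h 1) (G.h 3), det2_swap (toR (G.e 0)) (toR (G.h 3)), h2,
    det2_swap (toR (G.h 1)) (toR (G.h 0)), G.D01]
  have h1 := G.PL0R
  linear_combination (G.l 0) * h1

lemma Llam1 (C : G.LC) (u : ℝ × ℝ) : (Lmove C).lam 1 u = G.lam 1 u := by
  show det2 (toR (G.h 1)) (u - (G.v 1 + (G.l 0 * G.p 0 / (detZ (G.e 0) (G.h 1) : ℝ)) •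
    toR (G.h 1))) = _
  rw [← sub_sub, det2_sub_right, det2_smul_right, det2_self, mul_zero, sub_zero]
  rfl
lemma Llam2 (C : G.LC) (u : ℝ × ℝ) : (Lmove C).lam 2 u = G.lam 2 u := rfl
lemma Llam3 (C : G.LC) (u : ℝ × ℝ) : (Lmove C).lam 3 u = G.lam 3 u := rfl

lemma mem_region_iff (u : ℝ × ℝ) :
    u ∈ G.region ↔ 0 ≤ G.lam 0 u ∧ 0 ≤ G.lam 1 u ∧ 0 ≤ G.lam 2 u ∧ 0 ≤ G.lam 3 u := by
  constructor
  · intro h; exact ⟨h 0, h 1, h 2, h 3⟩
  · rintro ⟨h0, h1, h2, h3⟩ k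
    fin_cases k
    · exact h0
    · exact h1
    · exact h2
    · exact h3

lemma shf_mem_iff (u : ℝ × ℝ) : G.shf u ∈ G.region ↔ 0 ≤ G.lam 3 u ∧
    0 ≤ G.lam 1 u + (detZ (G.e 0) (G.h 1) : ℝ) * G.g u ∧
    0 ≤ G.lam 2 u + (detZ (G.e 0) (G.h 2) : ℝ) * G.g u ∧
    0 ≤ G.lam 3 u - G.p 0 * G.g u := by
  rw [mem_region_iff, lam_shf, lam_shf, lam_shf, lam_shf, G.DE0, G.DE1, G.DE2, G.DE3, lam0_eq]
  constructor
  · rintro ⟨h0, h1, h2, h3⟩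
    exact ⟨by linarith, by linarith, by linarith, by linarith⟩
  · rintro ⟨h0, h1, h2, h3⟩
    exact ⟨by linarith, by linarith, by linarith, by linarith⟩

lemma region_Lmove (C : G.LC) (u : ℝ × ℝ) : u ∈ (Lmove C).region ↔
    (0 ≤ G.g u ∧ u ∈ G.region) ∨ (G.g u ≤ 0 ∧ G.shf u ∈ G.region) := by
  have hP : (0:ℝ) < (detZ (G.e 0) (G.h 1) : ℝ) := by exact_mod_cast C.P
  have p0 := G.p0R
  have p1 := G.p1R
  have p2 := G.p2R
  have p3 := G.p3R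
  have hl0 := C.l0
  rw [shf_mem_iff, mem_region_iff (G := Lmove C), mem_region_iff, Llam0, Llam1, Llam2, Llam3,
    lam0_eq]
  have key : G.g u ≤ 0 → 0 ≤ G.lam 3 u → 0 ≤ G.lam 1 u + (detZ (G.e 0) (G.h 1) : ℝ) * G.g u →
      0 ≤ G.lam 2 u ∧ 0 ≤ G.lam 2 u + (detZ (G.e 0) (G.h 2) : ℝ) * G.g u := by
    intro hg h3 h1
    have hα : 0 ≤ -(G.g u) / G.p 0 := div_nonneg (by linarith) p0.le
    have hβ : 0 ≤ G.lam 3 u / G.p 0 := div_nonneg h3 p0.le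
    have hgα : G.g u = -((-(G.g u) / G.p 0) * G.p 0) := by field_simp
    have e1 := G.PL0R
    have e2 := G.PR0R
    have e3 := G.close2
    have e4 := G.pl_e
    rw [G.lam1_coord] at h1
    rw [G.lam2_coord]
    set α := -(G.g u) / G.p 0 with hαdef
    set β := G.lam 3 u / G.p 0 with hβdef
    rw [hgα] at h1 ⊢
    have hX : 0 ≤ G.l 0 * (G.p 1 : ℝ)^2 - α * (G.p 1 : ℝ)^2 - β * (detZ (G.e 0) (G.h 1) : ℝ) := by
      have : G.l 0 * (G.p 1 : ℝ)^2 + α * (detZ (G.h 1) (G.h 3) : ℝ) -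
          β * (detZ (G.e 0) (G.h 1) : ℝ) + (detZ (G.e 0) (G.h 1) : ℝ) * -(α * G.p 0) =
          G.l 0 * (G.p 1 : ℝ)^2 - α * (G.p 1 : ℝ)^2 - β * (detZ (G.e 0) (G.h 1) : ℝ) := by
        linear_combination (-α) * e1
      rw [← this]; exact h1
    have hAD : 0 ≤ G.l 3 * (G.p 3 : ℝ) ^ 2 * (detZ (G.e 0) (G.h 1) : ℝ) +
        G.l 0 * (G.p 1 : ℝ) ^ 2 * (-(detZ (G.e 0) (G.h 2) : ℝ)) := by
      have : G.l 3 * (G.p 3 : ℝ) ^ 2 * (detZ (G.e 0) (G.h 1) : ℝ) +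
        G.l 0 * (G.p 1 : ℝ) ^ 2 * (-(detZ (G.e 0) (G.h 2) : ℝ)) =
          (G.p 2 : ℝ) ^ 2 * (G.l 1 * (detZ (G.e 0) (G.h 1) : ℝ) - G.l 0 * G.p 0) := by
        linear_combination (detZ (G.e 0) (G.h 1) : ℝ) * e3 + (G.l 0) * e4
      rw [this]
      exact mul_nonneg (sq_nonneg _) (by linarith [C.le])
    have hA : 0 ≤ G.l 3 * (G.p 3 : ℝ) ^ 2 := mul_nonneg (G.lnn 3) (sq_nonneg _)
    constructor
    · have := tri_pos (b := (G.p 1 : ℝ)^2) (P := (detZ (G.e 0) (G.h 1) : ℝ)) (l := G.l 0)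
        (α := α) (β := β) (A := G.l 3 * (G.p 3 : ℝ)^2) (B := (G.p 3 : ℝ)^2)
        (δ := -(detZ (G.e 0) (G.h 2) : ℝ)) (by positivity) hP hl0 hα hβ hX hA (by positivity) hAD
      linarith
    · have := tri_pos (b := (G.p 1 : ℝ)^2) (P := (detZ (G.e 0) (G.h 1) : ℝ)) (l := G.l 0)
        (α := α) (β := β) (A := G.l 3 * (G.p 3 : ℝ)^2) (B := -(detZ (G.h 0) (G.h 2) : ℝ))
        (δ := -(detZ (G.e 0) (G.h 2) : ℝ)) (by positivity) hP hl0 hα hβ hX hA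
        (by
          have : G.l 3 * (G.p 3 : ℝ)^2 + G.l 0 * -(detZ (G.h 0) (G.h 2) : ℝ) =
            G.l 1 * (G.p 2 : ℝ)^2 := by linarith
          rw [this]; exact mul_nonneg (G.lnn 1) (sq_nonneg _)) hAD
      have h4 : G.l 3 * (G.p 3 : ℝ) ^ 2 + α * (G.p 3 : ℝ) ^ 2 - β * (detZ (G.e 0) (G.h 2) : ℝ) +
          (detZ (G.e 0) (G.h 2) : ℝ) * -(α * G.p 0) = G.l 3 * (G.p 3 : ℝ)^2 +
          α * -(detZ (G.h 0) (G.h 2) : ℝ) + β * -(detZ (G.e 0) (G.h 2) : ℝ) := by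
        linear_combination (-α) * e2
      rw [h4]; exact this
  constructor
  · rintro ⟨h0, h1, h2, h3⟩
    rcases le_total 0 (G.g u) with hg | hg
    · left
      exact ⟨hg, by nlinarith [mul_nonneg p0.le hg], h1, h2, h3⟩
    · right
      refine ⟨hg, h3, h0, (key hg h3 h0).2, ?_⟩
      have := mul_nonneg p0.le (neg_nonneg.mpr hg)
      linarith
  · rintro (⟨hg, h0, h1, h2, h3⟩ | ⟨hg, h3, h1, h2, h0⟩)
    · have := mul_nonneg hP.le hg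
      exact ⟨by linarith, h1, h2, h3⟩
    · have h5 := mul_nonneg hP.le (neg_nonneg.mpr hg)
      exact ⟨h1, by linarith, (key hg h3 h1).1, h3⟩

lemma Rlam0 (C : G.RC) (u : ℝ × ℝ) :
    (Rmove C).lam 0 u = G.lam 1 u + (detZ (G.e 0) (G.h 1) : ℝ) * G.g u := by
  show det2 (toR (monoInvZ (G.e 0) (G.h 1))) (u - (G.v 0 + G.l 0 • toR (G.h 3))) = _
  have h2 := G.DE3
  have h3 : u - G.v 1 = (u - G.v 0) - G.l 0 • toR (G.h 0) := by rw [G.v1]; abel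
  rw [toR_monoInv, G.DE1, lam, h3, g, ← sub_sub]
  generalize u - G.v 0 = w
  rw [det2_sub_left, det2_sub_right, det2_sub_right,
    det2_sub_right, det2_smul_left, det2_smul_left, det2_smul_right, det2_smul_right,
    det2_smul_right, det2_toR (G.h 1) (G.h 3), det2_swap (toR (G.e 0)) (toR (G.h 3)), h2,
    det2_swap (toR (G.h 1)) (toR (G.h 0)), G.D01]
  have h1 := G.PL0R
  linear_combination (G.l 0) * h1

lemma Rlam1 (C : G.RC) (u : ℝ × ℝ) :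
    (Rmove C).lam 1 u = G.lam 2 u + (detZ (G.e 0) (G.h 2) : ℝ) * G.g u := by
  have hP : (0:ℝ) < (detZ (G.e 0) (G.h 2) : ℝ) := by exact_mod_cast C.P
  show det2 (toR (monoInvZ (G.e 0) (G.h 2))) (u - (Rmove C).v 1) = _
  set t := G.l 2 - G.l 3 * G.p 0 / (detZ (G.e 0) (G.h 2) : ℝ) with ht
  have h1 : G.v 2 + t • toR (G.h 2) = (Rmove C).v 1 + t • toR (monoInvZ (G.e 0) (G.h 2)) := by
    have := (Rmove C).hv 1
    exact this
  have h2 : u - (Rmove C).v 1 = (u - G.v 2) - t • toR (G.h 2) +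
      t • toR (monoInvZ (G.e 0) (G.h 2)) := by
    rw [show (Rmove C).v 1 = G.v 2 + t • toR (G.h 2) - t • toR (monoInvZ (G.e 0) (G.h 2)) by
      rw [h1]; abel]
    abel
  have h3 : det2 (toR (G.e 0)) (u - G.v 2) = G.g u - G.g (G.v 2) := by
    rw [g, g, ← det2_sub_right]; congr 1; abel
  have h4 : G.lam 2 u = det2 (toR (G.h 2)) (u - G.v 2) := rfl
  have h5 := G.g_v2'
  rw [h2, h4]
  generalize u - G.v 2 = w at *
  rw [det2_add_right, det2_smul_right, det2_self, toR_monoInv, G.DE2, det2_sub_left,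
    det2_smul_left, det2_sub_right, det2_sub_right, det2_smul_right, det2_smul_right, det2_self,
    h3, h5, det2_toR (G.e 0), ht]
  field_simp
  ring
lemma Rlam2 (C : G.RC) (u : ℝ × ℝ) : (Rmove C).lam 2 u = G.lam 2 u := by
  show det2 (toR (G.h 2)) (u - (G.v 2 + (G.l 2 - G.l 3 * G.p 0 / (detZ (G.e 0) (G.h 2) : ℝ)) •
    toR (G.h 2))) = _
  rw [← sub_sub, det2_sub_right, det2_smul_right, det2_self, mul_zero, sub_zero]
  rfl
lemma Rlam3 (C : G.RC) (u : ℝ × ℝ) : (Rmove C).lam 3 u = G.lam 3 u := rfl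

lemma region_Rmove (C : G.RC) (u : ℝ × ℝ) : u ∈ (Rmove C).region ↔
    (0 ≤ G.g u ∧ u ∈ G.region) ∨ (G.g u ≤ 0 ∧ G.shf u ∈ G.region) := by
  have hP : (0:ℝ) < (detZ (G.e 0) (G.h 2) : ℝ) := by exact_mod_cast C.P
  have p0 := G.p0R
  have p1 := G.p1R
  have p2 := G.p2R
  have p3 := G.p3R
  have hl3 := C.l3
  rw [shf_mem_iff, mem_region_iff (G := Rmove C), mem_region_iff, Rlam0, Rlam1, Rlam2, Rlam3,
    lam0_eq]
  have key : 0 ≤ G.g u → 0 ≤ G.lam 3 u → 0 ≤ G.lam 2 u →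
      0 ≤ G.lam 1 u ∧ 0 ≤ G.lam 1 u + (detZ (G.e 0) (G.h 1) : ℝ) * G.g u := by
    intro hg h3 h2
    have hα : 0 ≤ (G.g u) / G.p 0 := div_nonneg (by linarith) p0.le
    have hβ : 0 ≤ G.lam 3 u / G.p 0 := div_nonneg h3 p0.le
    have hgα : G.g u = (G.g u) / G.p 0 * G.p 0 := by field_simp
    have hneg : -(G.g u) / (G.p 0 : ℝ) = -(G.g u / G.p 0) := by ring
    have e1 := G.PL0R
    have e2 := G.PR0R
    have e3 := G.close2
    have e3' := G.close1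
    have e4 := G.pl_e
    have e5 := G.g_v2
    have e5' := G.g_v2'
    rw [G.lam2_coord, hneg] at h2
    rw [G.lam1_coord, hneg]
    set α := (G.g u) / G.p 0 with hαdef
    set β := G.lam 3 u / G.p 0 with hβdef
    rw [hgα]
    have hX : 0 ≤ G.l 3 * (G.p 3 : ℝ)^2 - α * (G.p 3 : ℝ)^2 - β * (detZ (G.e 0) (G.h 2) : ℝ) := by
      linarith
    have hAD : 0 ≤ G.l 0 * (G.p 1 : ℝ) ^ 2 * (detZ (G.e 0) (G.h 2) : ℝ) +
        G.l 3 * (G.p 3 : ℝ) ^ 2 * (-(detZ (G.e 0) (G.h 1) : ℝ)) := by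
      have : G.l 0 * (G.p 1 : ℝ) ^ 2 * (detZ (G.e 0) (G.h 2) : ℝ) +
        G.l 3 * (G.p 3 : ℝ) ^ 2 * (-(detZ (G.e 0) (G.h 1) : ℝ)) =
          (G.p 2 : ℝ) ^ 2 * (G.l 0 * G.p 0 - G.l 1 * (detZ (G.e 0) (G.h 1) : ℝ)) := by
        linear_combination (-(detZ (G.e 0) (G.h 1) : ℝ)) * e3 - (G.l 0) * e4
      rw [this]
      exact mul_nonneg (sq_nonneg _) (by linarith [C.le])
    have hA : 0 ≤ G.l 0 * (G.p 1 : ℝ) ^ 2 := mul_nonneg (G.lnn 0) (sq_nonneg _)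
    constructor
    · have := tri_pos (b := (G.p 3 : ℝ)^2) (P := (detZ (G.e 0) (G.h 2) : ℝ)) (l := G.l 3)
        (α := α) (β := β) (A := G.l 0 * (G.p 1 : ℝ)^2) (B := -(detZ (G.h 1) (G.h 3) : ℝ))
        (δ := -(detZ (G.e 0) (G.h 1) : ℝ)) (by positivity) hP hl3 hα hβ hX hA
        (by
          have : G.l 0 * (G.p 1 : ℝ)^2 + G.l 3 * -(detZ (G.h 1) (G.h 3) : ℝ) =
            G.l 2 * (G.p 2 : ℝ)^2 := by linarith
          rw [this]; exact mul_nonneg (G.lnn 2) (sq_nonneg _)) hAD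
      linarith
    · have := tri_pos (b := (G.p 3 : ℝ)^2) (P := (detZ (G.e 0) (G.h 2) : ℝ)) (l := G.l 3)
        (α := α) (β := β) (A := G.l 0 * (G.p 1 : ℝ)^2) (B := (G.p 1 : ℝ)^2)
        (δ := -(detZ (G.e 0) (G.h 1) : ℝ)) (by positivity) hP hl3 hα hβ hX hA (by positivity) hAD
      have h4 : G.l 0 * (G.p 1 : ℝ) ^ 2 + -α * (detZ (G.h 1) (G.h 3) : ℝ) -
          β * (detZ (G.e 0) (G.h 1) : ℝ) +
          (detZ (G.e 0) (G.h 1) : ℝ) * (α * G.p 0) = G.l 0 * (G.p 1 : ℝ)^2 +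
          α * (G.p 1 : ℝ)^2 + β * -(detZ (G.e 0) (G.h 1) : ℝ) := by
        linear_combination α * e1
      rw [h4]; exact this
  constructor
  · rintro ⟨h0, h1, h2, h3⟩
    rcases le_total 0 (G.g u) with hg | hg
    · left
      exact ⟨hg, by nlinarith [mul_nonneg p0.le hg], (key hg h3 h2).1, h2, h3⟩
    · right
      refine ⟨hg, h3, h0, h1, ?_⟩
      have := mul_nonneg p0.le (neg_nonneg.mpr hg)
      linarith
  · rintro (⟨hg, h0, h1, h2, h3⟩ | ⟨hg, h3, h1, h2, h0⟩)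
    · have := mul_nonneg hP.le hg
      exact ⟨(key hg h3 h2).2, by linarith, h2, h3⟩
    · have h5 := mul_nonneg hP.le (neg_nonneg.mpr hg)
      exact ⟨h1, h2, by linarith, h3⟩

end GQuad

end Pool.Agent.MP_fafc5c_gt
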