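import Pool.Agent.MP_fafc5c_gt.NoetherThm

set_option autoImplicit false
set_option linter.unusedVariables false

namespace Pool.Agent.MP_fafc5c_gt

lemma det2_add_left (u v w : ℝ × ℝ) : det2 (u + v) w = det2 u w + det2 v w := by
  simp only [det2, Prod.fst_add, Prod.snd_add]; ring
lemma det2_add_right (u v w : ℝ × ℝ) : det2 u (v + w) = det2 u v + det2 u w := by
  simp only [det2, Prod.fst_add, Prod.snd_add]; ring
lemma det2_sub_left (u v w : ℝ × ℝ) : det2 (u - v) w = det2 u w - det2 v w := by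
  simp only [det2, Prod.fst_sub, Prod.snd_sub]; ring
lemma det2_sub_right (u v w : ℝ × ℝ) : det2 u (v - w) = det2 u v - det2 u w := by
  simp only [det2, Prod.fst_sub, Prod.snd_sub]; ring
lemma det2_smul_left (t : ℝ) (u w : ℝ × ℝ) : det2 (t • u) w = t * det2 u w := by
  simp only [det2, Prod.smul_fst, Prod.smul_snd, smul_eq_mul]; ring
lemma det2_smul_right (t : ℝ) (u w : ℝ × ℝ) : det2 u (t • w) = t * det2 u w := by
  simp only [det2, Prod.smul_fst, Prod.smul_snd, smul_eq_mul]; ring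
lemma det2_neg_left (u w : ℝ × ℝ) : det2 (-u) w = -det2 u w := by
  simp only [det2, Prod.fst_neg, Prod.snd_neg]; ring
lemma det2_neg_right (u w : ℝ × ℝ) : det2 u (-w) = -det2 u w := by
  simp only [det2, Prod.fst_neg, Prod.snd_neg]; ring
lemma det2_self (u : ℝ × ℝ) : det2 u u = 0 := by
  simp only [det2]; ring
lemma det2_swap (u v : ℝ × ℝ) : det2 u v = -det2 v u := by
  simp only [det2]; ring
lemma det2_zero_right (u : ℝ × ℝ) : det2 u 0 = 0 := by
  simp [det2]
lemma det2_toR (u v : ℤ × ℤ) : det2 (toR u) (toR v) = (detZ u v : ℝ) := by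
  simp only [det2, toR, detZ]; push_cast; ring

lemma toR_add (u v : ℤ × ℤ) : toR (u + v) = toR u + toR v := by
  ext <;> simp [toR]
lemma toR_sub (u v : ℤ × ℤ) : toR (u - v) = toR u - toR v := by
  ext <;> simp [toR]
lemma toR_neg (u : ℤ × ℤ) : toR (-u) = -toR u := by
  ext <;> simp [toR]
lemma toR_smul (t : ℤ) (u : ℤ × ℤ) : toR (t • u) = (t : ℝ) • toR u := by
  ext <;> simp [toR]

/-- A generalised quadrilateral with T1 corners: at most one edge has length zero, and then the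
two eigenlines at the double corner do not converge. -/
structure GQuad where
  h : Fin 4 → ℤ × ℤ
  e : Fin 4 → ℤ × ℤ
  p : Fin 4 → ℤ
  v : Fin 4 → ℝ × ℝ
  l : Fin 4 → ℝ
  T : T1 h e p
  ppos : ∀ k, 0 < p k
  lnn : ∀ k, 0 ≤ l k
  hv : ∀ k, v (k + 1) = v k + l k • toR (h k)
  hk : ∀ k, l k = 0 → detZ (e k) (e (k + 1)) ≤ 0
  hone : ∀ j k, l j = 0 → l k = 0 → j = k
  even : ∀ j k, (2 : ℤ) ∣ (e j).1 - (e k).1 ∧ (2 : ℤ) ∣ (e j).2 - (e k).2

namespace GQuad

variable (G : GQuad)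

/-- affine distance to the `k`-th edge -/
def lam (k : Fin 4) (u : ℝ × ℝ) : ℝ := det2 (toR (G.h k)) (u - G.v k)

/-- the polygon -/
def region : Set (ℝ × ℝ) := {u | ∀ k, 0 ≤ G.lam k u}

/-- signed position with respect to the eigenline at the corner `0` -/
def g (u : ℝ × ℝ) : ℝ := det2 (toR (G.e 0)) (u - G.v 0)

/-- rotation of the labels -/
def rotBy (i : Fin 4) : GQuad where
  h k := G.h (k + i)
  e k := G.e (k + i)
  p k := G.p (k + i)
  v k := G.v (k + i)
  l k := G.l (k + i)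
  T := G.T.rotBy i
  ppos k := G.ppos _
  lnn k := G.lnn _
  hv k := by rw [show k + 1 + i = k + i + 1 by abel]; exact G.hv _
  hk k hl := by rw [show k + 1 + i = k + i + 1 by abel]; exact G.hk _ hl
  hone j k hj hk := by
    have := G.hone _ _ hj hk
    exact add_right_cancel this
  even j k := G.even _ _

lemma region_rotBy (i : Fin 4) : (G.rotBy i).region = G.region := by
  ext u
  constructor
  · intro hu k
    have := hu (k - i)
    simpa [lam, rotBy] using this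
  · intro hu k
    exact hu (k + i)

lemma v1 : G.v 1 = G.v 0 + G.l 0 • toR (G.h 0) := by simpa using G.hv 0
lemma v2 : G.v 2 = G.v 1 + G.l 1 • toR (G.h 1) := by simpa using G.hv 1
lemma v3 : G.v 3 = G.v 2 + G.l 2 • toR (G.h 2) := by simpa using G.hv 2
lemma v0 : G.v 0 = G.v 3 + G.l 3 • toR (G.h 3) := by simpa using G.hv 3

lemma D01 : det2 (toR (G.h 0)) (toR (G.h 1)) = (G.p 1 : ℝ) ^ 2 := by
  rw [det2_toR, G.T.d01]; push_cast; ring
lemma D12 : det2 (toR (G.h 1)) (toR (G.h 2)) = (G.p 2 : ℝ) ^ 2 := by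
  rw [det2_toR, G.T.d12]; push_cast; ring
lemma D23 : det2 (toR (G.h 2)) (toR (G.h 3)) = (G.p 3 : ℝ) ^ 2 := by
  rw [det2_toR, G.T.d23]; push_cast; ring
lemma D30 : det2 (toR (G.h 3)) (toR (G.h 0)) = (G.p 0 : ℝ) ^ 2 := by
  rw [det2_toR, G.T.d30]; push_cast; ring
lemma DE3 : det2 (toR (G.h 3)) (toR (G.e 0)) = (G.p 0 : ℝ) := by
  rw [det2_toR, G.T.dhe3]
lemma DE0 : det2 (toR (G.h 0)) (toR (G.e 0)) = (G.p 0 : ℝ) := by
  rw [det2_toR, G.T.dhe0]

lemma H0 : toR (G.h 0) = toR (G.h 3) + (G.p 0 : ℝ) • toR (G.e 0) := by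
  rw [← toR_smul, ← toR_add, G.T.h0]; congr 1; abel
lemma H3 : toR (G.h 3) = toR (G.h 0) - (G.p 0 : ℝ) • toR (G.e 0) := by
  rw [G.H0]; abel

lemma lam_v_self (k : Fin 4) : G.lam k (G.v k) = 0 := by
  simp [lam, det2_zero_right]
lemma lam_v_one (k : Fin 4) : G.lam k (G.v (k + 1)) = 0 := by
  rw [lam, G.hv k, add_sub_cancel_left, det2_smul_right, det2_self, mul_zero]
lemma lam_v_two (k : Fin 4) : G.lam k (G.v (k + 2)) = G.l (k + 1) * (G.p (k + 1) : ℝ) ^ 2 := by
  have h1 : G.v (k + 2) - G.v k = G.l k • toR (G.h k) + G.l (k + 1) • toR (G.h (k + 1)) := by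
    rw [show k + 2 = k + 1 + 1 by rw [add_assoc]; rfl, G.hv (k + 1), G.hv k]; abel
  rw [lam, h1, det2_add_right, det2_smul_right, det2_smul_right, det2_self, det2_toR, G.T.hdet k]
  push_cast; ring
lemma lam_v_three (k : Fin 4) : G.lam k (G.v (k + 3)) = G.l (k + 3) * (G.p k : ℝ) ^ 2 := by
  have e1 : k + 3 + 1 = k := by rw [add_assoc]; simp
  have h1 := G.hv (k + 3)
  have h2 := G.T.hdet (k + 3)
  rw [e1] at h1 h2
  have h3 : G.v (k + 3) - G.v k = - (G.l (k + 3) • toR (G.h (k + 3))) := by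
    rw [h1]; abel
  rw [lam, h3, det2_neg_right, det2_smul_right, det2_swap, det2_toR, h2]
  push_cast; ring

lemma lam_v_nonneg (k j : Fin 4) : 0 ≤ G.lam k (G.v j) := by
  have hj : j = k ∨ j = k + 1 ∨ j = k + 2 ∨ j = k + 3 := by
    revert j k; decide
  rcases hj with rfl | rfl | rfl | rfl
  · rw [lam_v_self]
  · rw [lam_v_one]
  · rw [lam_v_two]; exact mul_nonneg (G.lnn _) (sq_nonneg _)
  · rw [lam_v_three]; exact mul_nonneg (G.lnn _) (sq_nonneg _)

lemma v_mem (j : Fin 4) : G.v j ∈ G.region := fun k => G.lam_v_nonneg k j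

lemma g_v0 : G.g (G.v 0) = 0 := by simp [g, det2_zero_right]
lemma g_v1 : G.g (G.v 1) = -(G.l 0 * G.p 0) := by
  rw [g, G.v1, add_sub_cancel_left, det2_smul_right, det2_swap, G.DE0]; ring
lemma g_v3 : G.g (G.v 3) = G.l 3 * G.p 0 := by
  have : G.v 3 - G.v 0 = -(G.l 3 • toR (G.h 3)) := by rw [G.v0]; abel
  rw [g, this, det2_neg_right, det2_smul_right, det2_swap, G.DE3]; ring
lemma g_v2 : G.g (G.v 2) = -(G.l 0 * G.p 0) + G.l 1 * (detZ (G.e 0) (G.h 1) : ℝ) := by
  have : G.v 2 - G.v 0 = (G.v 1 - G.v 0) + G.l 1 • toR (G.h 1) := by rw [G.v2]; abel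
  rw [g, this, det2_add_right, det2_smul_right, det2_toR]
  have := G.g_v1
  rw [g] at this
  rw [this]
lemma g_v2' : G.g (G.v 2) = G.l 3 * G.p 0 - G.l 2 * (detZ (G.e 0) (G.h 2) : ℝ) := by
  have : G.v 2 - G.v 0 = (G.v 3 - G.v 0) - G.l 2 • toR (G.h 2) := by rw [G.v3]; abel
  rw [g, this, det2_sub_right, det2_smul_right, det2_toR]
  have := G.g_v3
  rw [g] at this
  rw [this]

end GQuad

end Pool.Agent.MP_fafc5c_gt
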