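import Pool.Agent.MP_fafc5c_gt.Volume

set_option autoImplicit false
set_option linter.unusedVariables false

namespace Pool.Agent.MP_fafc5c_gt

lemma tri_mem {K : Set (ℝ × ℝ)} (hK : Convex ℝ K) {A B C u : ℝ × ℝ}
    (hA : A ∈ K) (hB : B ∈ K) (hC : C ∈ K)
    (hΔ : 0 < det2 (B - A) (C - A)) (h1 : 0 ≤ det2 (B - A) (u - A))
    (h2 : 0 ≤ det2 (C - B) (u - B)) (h3 : 0 ≤ det2 (A - C) (u - C)) : u ∈ K := by
  set Δ := det2 (B - A) (C - A) with hΔdef
  set w : Fin 3 → ℝ := ![det2 (C - B) (u - B) / Δ, det2 (A - C) (u - C) / Δ,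
    det2 (B - A) (u - A) / Δ] with hw
  set z : Fin 3 → ℝ × ℝ := ![A, B, C] with hz
  have key := hK.sum_mem (t := Finset.univ) (w := w) (z := z) (by
      intro i _
      fin_cases i
      · exact div_nonneg h2 hΔ.le
      · exact div_nonneg h3 hΔ.le
      · exact div_nonneg h1 hΔ.le)
    (by
      rw [Fin.sum_univ_three]
      show det2 (C - B) (u - B) / Δ + det2 (A - C) (u - C) / Δ + det2 (B - A) (u - A) / Δ = 1
      rw [← add_div, ← add_div, div_eq_one_iff_eq hΔ.ne', hΔdef]
      simp only [det2, Prod.fst_sub, Prod.snd_sub]; ring)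
    (by
      intro i _
      fin_cases i
      · exact hA
      · exact hB
      · exact hC)
  have e : ∑ i, w i • z i = u := by
    rw [Fin.sum_univ_three]
    show (det2 (C - B) (u - B) / Δ) • A + (det2 (A - C) (u - C) / Δ) • B +
      (det2 (B - A) (u - A) / Δ) • C = u
    have h : (det2 (C - B) (u - B)) • A + (det2 (A - C) (u - C)) • B +
      (det2 (B - A) (u - A)) • C = Δ • u := by
      rw [hΔdef]
      ext
      · simp only [det2, Prod.fst_sub, Prod.snd_sub, Prod.fst_add, Prod.smul_fst, smul_eq_mul]; ring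
      · simp only [det2, Prod.fst_sub, Prod.snd_sub, Prod.snd_add, Prod.smul_snd, smul_eq_mul]; ring
    have h' : Δ⁻¹ • (Δ • u) = u := by rw [smul_smul, inv_mul_cancel₀ hΔ.ne', one_smul]
    rw [← h, smul_add, smul_add, smul_smul, smul_smul, smul_smul] at h'
    simp only [div_eq_inv_mul]
    exact h'
  rwa [e] at key

namespace GQuad

variable (G : GQuad)

lemma edge_det (k : Fin 4) (u : ℝ × ℝ) :
    det2 (G.v (k + 1) - G.v k) (u - G.v k) = G.l k * G.lam k u := by
  rw [G.hv k, add_sub_cancel_left, det2_smul_left]; rfl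

lemma turn_det (k : Fin 4) :
    det2 (G.v (k + 1) - G.v k) (G.v (k + 2) - G.v k) =
      G.l k * G.l (k + 1) * (G.p (k + 1) : ℝ) ^ 2 := by
  rw [edge_det, lam_v_two]; ring

lemma turn_det' (k : Fin 4) :
    det2 (G.v (k + 1) - G.v k) (G.v (k + 2) - G.v (k + 1)) =
      G.l k * G.l (k + 1) * (G.p (k + 1) : ℝ) ^ 2 := by
  rw [← turn_det]
  have : G.v (k + 2) - G.v k = (G.v (k + 2) - G.v (k + 1)) + (G.v (k + 1) - G.v k) := by abel
  rw [this, det2_add_right, det2_self, add_zero]

lemma hull_case {K : Set (ℝ × ℝ)} (hK : Convex ℝ K) (hv : ∀ k, G.v k ∈ K)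
    (h0 : 0 < G.l 0) (h1 : 0 < G.l 1) {u : ℝ × ℝ} (hu : u ∈ G.region)
    (hd : det2 (G.v 2 - G.v 0) (u - G.v 0) ≤ 0) : u ∈ K := by
  have e0 := G.edge_det 0 u
  have e1 := G.edge_det 1 u
  have t := G.turn_det 0
  simp only [zero_add, Fin.reduceAdd] at e0 e1 t
  refine tri_mem hK (hv 0) (hv 1) (hv 2) ?_ ?_ ?_ ?_
  · rw [t]
    have := G.p1R
    positivity
  · rw [e0]; exact mul_nonneg h0.le (hu 0)
  · rw [e1]; exact mul_nonneg h1.le (hu 1)
  · have : u - G.v 2 = (u - G.v 0) - (G.v 2 - G.v 0) := by abel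
    rw [this, det2_sub_right, ← neg_sub (G.v 2) (G.v 0), det2_neg_left, det2_neg_left, det2_self]
    linarith

lemma hull_case0 {K : Set (ℝ × ℝ)} (hK : Convex ℝ K) (hv : ∀ k, G.v k ∈ K)
    (h0 : G.l 0 = 0) {u : ℝ × ℝ} (hu : u ∈ G.region) : u ∈ K := by
  have e1 := G.edge_det 1 u
  have e2 := G.edge_det 2 u
  have e3 := G.edge_det 3 u
  have t := G.turn_det 1
  have hv1 : G.v 1 = G.v 0 := by rw [G.v1, h0, zero_smul, add_zero]
  simp only [Fin.reduceAdd] at e1 e2 e3 t
  have l1 : 0 < G.l 1 := by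
    rcases (G.lnn 1).lt_or_eq with h | h
    · exact h
    · exact absurd (G.hone 0 1 h0 h.symm) (by decide)
  have l2 : 0 < G.l 2 := by
    rcases (G.lnn 2).lt_or_eq with h | h
    · exact h
    · exact absurd (G.hone 0 2 h0 h.symm) (by decide)
  have l3 : 0 < G.l 3 := by
    rcases (G.lnn 3).lt_or_eq with h | h
    · exact h
    · exact absurd (G.hone 0 3 h0 h.symm) (by decide)
  refine tri_mem hK (hv 1) (hv 2) (hv 3) ?_ ?_ ?_ ?_
  · rw [t]
    have := G.p2R
    positivity
  · rw [e1]; exact mul_nonneg l1.le (hu 1)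
  · rw [e2]; exact mul_nonneg l2.le (hu 2)
  · rw [hv1, e3]; exact mul_nonneg l3.le (hu 3)

lemma region_subset {K : Set (ℝ × ℝ)} (hK : Convex ℝ K) (hv : ∀ k, G.v k ∈ K) :
    G.region ⊆ K := by
  intro u hu
  by_cases hz : ∃ i, G.l i = 0
  · obtain ⟨i, hi⟩ := hz
    refine (G.rotBy i).hull_case0 hK (fun k => hv _) ?_ (by rw [region_rotBy]; exact hu)
    show G.l (0 + i) = 0
    rw [zero_add]; exact hi
  · push Not at hz
    have hpos : ∀ i, 0 < G.l i := fun i => lt_of_le_of_ne (G.lnn i) (Ne.symm (hz i))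
    rcases le_total (det2 (G.v 2 - G.v 0) (u - G.v 0)) 0 with h | h
    · exact G.hull_case hK hv (hpos 0) (hpos 1) hu h
    · refine (G.rotBy 2).hull_case hK (fun k => hv _) (hpos _) (hpos _)
        (by rw [region_rotBy]; exact hu) ?_
      show det2 (G.v 0 - G.v 2) (u - G.v 2) ≤ 0
      have : u - G.v 2 = (u - G.v 0) - (G.v 2 - G.v 0) := by abel
      rw [this, det2_sub_right, ← neg_sub (G.v 2) (G.v 0), det2_neg_left, det2_neg_left, det2_self]
      linarith

theorem region_eq_hull : G.region = convexHull ℝ (Set.range G.v) := by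
  apply Set.Subset.antisymm
  · exact G.region_subset (convex_convexHull ℝ _) fun k => subset_convexHull ℝ _ ⟨k, rfl⟩
  · apply convexHull_min _ G.convex_region
    rintro _ ⟨k, rfl⟩
    exact G.v_mem k

lemma isQuadrilateral (hpos : ∀ i, 0 < G.l i) : IsQuadrilateral G.region := by
  refine ⟨G.v, fun i => ?_, G.region_eq_hull⟩
  rw [turn_det']
  have hp : (0:ℝ) < G.p (i + 1) := by exact_mod_cast G.ppos (i + 1)
  have := hpos i
  have := hpos (i + 1)
  positivity

/-- if an edge has length zero then the region is a triangle -/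
lemma triangle_of_zero {i : Fin 4} (hi : G.l i = 0) : ∃ w : Fin 3 → ℝ × ℝ,
    0 < det2 (w 1 - w 0) (w 2 - w 0) ∧ G.region = convexHull ℝ (Set.range w) := by
  set G' := G.rotBy i with hG'
  have h0 : G'.l 0 = 0 := by
    show G.l (0 + i) = 0
    rw [zero_add]; exact hi
  have hr : G.region = G'.region := (G.region_rotBy i).symm
  refine ⟨![G'.v 1, G'.v 2, G'.v 3], ?_, ?_⟩
  · show 0 < det2 (G'.v 2 - G'.v 1) (G'.v 3 - G'.v 1)
    have t := G'.turn_det 1
    simp only [Fin.reduceAdd] at t
    rw [t]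
    have l1 : 0 < G'.l 1 := by
      rcases (G'.lnn 1).lt_or_eq with h | h
      · exact h
      · exact absurd (G'.hone 0 1 h0 h.symm) (by decide)
    have l2 : 0 < G'.l 2 := by
      rcases (G'.lnn 2).lt_or_eq with h | h
      · exact h
      · exact absurd (G'.hone 0 2 h0 h.symm) (by decide)
    have := G'.p2R
    positivity
  · rw [hr, G'.region_eq_hull]
    congr 1
    have hv1 : G'.v 1 = G'.v 0 := by rw [G'.v1, h0, zero_smul, add_zero]
    ext u
    constructor
    · rintro ⟨k, rfl⟩
      fin_cases k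
      · exact ⟨0, hv1⟩
      · exact ⟨0, rfl⟩
      · exact ⟨1, rfl⟩
      · exact ⟨2, rfl⟩
    · rintro ⟨k, rfl⟩
      fin_cases k
      · exact ⟨1, rfl⟩
      · exact ⟨2, rfl⟩
      · exact ⟨3, rfl⟩

lemma isTriangle_of_zero {i : Fin 4} (hi : G.l i = 0) : IsTriangle G.region :=
  G.triangle_of_zero hi

lemma triangle_or_quadrilateral : IsTriangle G.region ∨ IsQuadrilateral G.region := by
  by_cases hz : ∃ i, G.l i = 0
  · obtain ⟨i, hi⟩ := hz
    exact Or.inl (G.isTriangle_of_zero hi)
  · push Not at hz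
    exact Or.inr (G.isQuadrilateral fun i => lt_of_le_of_ne (G.lnn i) (Ne.symm (hz i)))

end GQuad

lemma fin4_cases : ∀ i j : Fin 4, j ≠ i → j = i + 1 ∨ j = i + 2 ∨ j = i + 3 := by decide

/-- a linear functional exposing the `i`-th vertex -/
lemma quad_expose {v : Fin 4 → ℝ × ℝ}
    (hv : ∀ i, 0 < det2 (v (i + 1) - v i) (v (i + 2) - v (i + 1))) (i j : Fin 4) (hij : j ≠ i) :
    0 < det2 (v (i + 1) - v (i + 3)) (v j - v i) := by
  have e4 : i + 3 + 1 = i := by rw [add_assoc]; simp
  have e5 : i + 3 + 2 = i + 1 := by rw [add_assoc]; rfl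
  have e6 : i + 1 + 1 = i + 2 := by rw [add_assoc]; rfl
  have e7 : i + 1 + 2 = i + 3 := by rw [add_assoc]; rfl
  have h0 := hv (i + 3)
  have h1 := hv i
  have h2 := hv (i + 1)
  rw [e4, e5] at h0
  rw [e6, e7] at h2
  rcases fin4_cases i j hij with rfl | rfl | rfl
  · have : det2 (v (i + 1) - v (i + 3)) (v (i + 1) - v i) =
        det2 (v i - v (i + 3)) (v (i + 1) - v i) := by
      simp only [det2, Prod.fst_sub, Prod.snd_sub]; ring
    rw [this]; exact h0
  · have h3 := hv (i + 2)
    have e8 : i + 2 + 1 = i + 3 := by rw [add_assoc]; rfl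
    have e9 : i + 2 + 2 = i := by rw [add_assoc]; simp
    rw [e8, e9] at h3
    have : det2 (v (i + 1) - v (i + 3)) (v (i + 2) - v i) =
        det2 (v i - v (i + 3)) (v (i + 1) - v i) +
        det2 (v (i + 2) - v (i + 1)) (v (i + 3) - v (i + 2)) := by
      simp only [det2, Prod.fst_sub, Prod.snd_sub]; ring
    rw [this]; exact add_pos h0 h2
  · have : det2 (v (i + 1) - v (i + 3)) (v (i + 3) - v i) =
        det2 (v i - v (i + 3)) (v (i + 1) - v i) := by
      simp only [det2, Prod.fst_sub, Prod.snd_sub]; ring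
    rw [this]; exact h0

/-- the linear functional as a concave/convex statement: nonnegative on the hull, zero only at the
vertex -/
lemma quad_expose_hull {v : Fin 4 → ℝ × ℝ}
    (hv : ∀ i, 0 < det2 (v (i + 1) - v i) (v (i + 2) - v (i + 1))) (i : Fin 4) {u : ℝ × ℝ}
    (hu : u ∈ convexHull ℝ (Set.range v)) :
    0 ≤ det2 (v (i + 1) - v (i + 3)) (u - v i) ∧
      (det2 (v (i + 1) - v (i + 3)) (u - v i) = 0 → u = v i) := by
  have hconv : Convex ℝ {u : ℝ × ℝ | 0 ≤ det2 (v (i + 1) - v (i + 3)) (u - v i) ∧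
      (det2 (v (i + 1) - v (i + 3)) (u - v i) = 0 → u = v i)} := by
    intro x hx y hy a b ha hb hab
    obtain ⟨hx1, hx2⟩ := hx
    obtain ⟨hy1, hy2⟩ := hy
    have e : det2 (v (i + 1) - v (i + 3)) (a • x + b • y - v i) =
        a * det2 (v (i + 1) - v (i + 3)) (x - v i) +
        b * det2 (v (i + 1) - v (i + 3)) (y - v i) := by
      have : a • x + b • y - v i = a • (x - v i) + b • (y - v i) := by
        rw [smul_sub, smul_sub]
        have : v i = (a + b) • v i := by rw [hab, one_smul]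
        nth_rewrite 1 [this]
        rw [add_smul]; abel
      rw [this, det2_add_right, det2_smul_right, det2_smul_right]
    have h1 := mul_nonneg ha hx1
    have h2 := mul_nonneg hb hy1
    refine ⟨by rw [e]; exact add_nonneg h1 h2, fun h => ?_⟩
    rw [e] at h
    have h3 : a * det2 (v (i + 1) - v (i + 3)) (x - v i) = 0 := by linarith
    have h4 : b * det2 (v (i + 1) - v (i + 3)) (y - v i) = 0 := by linarith
    rcases mul_eq_zero.mp h3 with h5 | h5
    · rcases mul_eq_zero.mp h4 with h6 | h6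
      · rw [h5, h6] at hab; norm_num at hab
      · have hb1 : b = 1 := by rw [h5, zero_add] at hab; exact hab
        rw [h5, hb1, zero_smul, one_smul, zero_add]; exact hy2 h6
    · rcases mul_eq_zero.mp h4 with h6 | h6
      · have ha1 : a = 1 := by rw [h6, add_zero] at hab; exact hab
        rw [h6, ha1, zero_smul, one_smul, add_zero]; exact hx2 h5
      · rw [hx2 h5, hy2 h6, ← add_smul, hab, one_smul]
  have hsub : convexHull ℝ (Set.range v) ⊆ _ := convexHull_min (by
    rintro _ ⟨j, rfl⟩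
    by_cases hj : j = i
    · subst hj
      exact ⟨by rw [sub_self, det2_zero_right], fun _ => rfl⟩
    · have := quad_expose hv i j hj
      exact ⟨this.le, fun h => absurd h this.ne'⟩) hconv
  exact hsub hu

lemma quad_injective {v : Fin 4 → ℝ × ℝ}
    (hv : ∀ i, 0 < det2 (v (i + 1) - v i) (v (i + 2) - v (i + 1))) : Function.Injective v := by
  intro i j hij
  by_contra hne
  have := quad_expose hv j i hne
  rw [hij, sub_self, det2_zero_right] at this
  exact lt_irrefl _ this

/-- each vertex of a quadrilateral lies in every set of points with the same hull -/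
lemma vertex_mem {v : Fin 4 → ℝ × ℝ}
    (hv : ∀ i, 0 < det2 (v (i + 1) - v i) (v (i + 2) - v (i + 1))) {ι : Type} {w : ι → ℝ × ℝ}
    (h : convexHull ℝ (Set.range v) = convexHull ℝ (Set.range w)) (i : Fin 4) :
    ∃ j, w j = v i := by
  by_contra hcon
  push Not at hcon
  have hpos : ∀ j, 0 < det2 (v (i + 1) - v (i + 3)) (w j - v i) := by
    intro j
    have hj : w j ∈ convexHull ℝ (Set.range v) := by
      rw [h]; exact subset_convexHull ℝ _ ⟨j, rfl⟩
    obtain ⟨h1, h2⟩ := quad_expose_hull hv i hj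
    rcases h1.lt_or_eq with h3 | h3
    · exact h3
    · exact absurd (h2 h3.symm) (hcon j)
  have hconv : Convex ℝ {u : ℝ × ℝ | 0 < det2 (v (i + 1) - v (i + 3)) (u - v i)} := by
    intro x hx y hy a b ha hb hab
    have e : det2 (v (i + 1) - v (i + 3)) (a • x + b • y - v i) =
        a * det2 (v (i + 1) - v (i + 3)) (x - v i) +
        b * det2 (v (i + 1) - v (i + 3)) (y - v i) := by
      have : a • x + b • y - v i = a • (x - v i) + b • (y - v i) := by
        rw [smul_sub, smul_sub]
        have : v i = (a + b) • v i := by rw [hab, one_smul]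
        nth_rewrite 1 [this]
        rw [add_smul]; abel
      rw [this, det2_add_right, det2_smul_right, det2_smul_right]
    show 0 < det2 (v (i + 1) - v (i + 3)) (a • x + b • y - v i)
    have hx' : 0 < det2 (v (i + 1) - v (i + 3)) (x - v i) := hx
    have hy' : 0 < det2 (v (i + 1) - v (i + 3)) (y - v i) := hy
    rw [e]
    rcases ha.lt_or_eq with h1 | h1
    · have := mul_pos h1 hx'
      have := mul_nonneg hb hy'.le
      linarith
    · have hb1 : b = 1 := by rw [← h1, zero_add] at hab; exact hab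
      rw [← h1, hb1]
      linarith
  have hsub : convexHull ℝ (Set.range w) ⊆ _ := convexHull_min (by
    rintro _ ⟨j, rfl⟩
    exact hpos j) hconv
  have hi : v i ∈ convexHull ℝ (Set.range w) := by
    rw [← h]; exact subset_convexHull ℝ _ ⟨i, rfl⟩
  have := hsub hi
  have h' : 0 < det2 (v (i + 1) - v (i + 3)) (v i - v i) := this
  rw [sub_self, det2_zero_right] at h'
  exact lt_irrefl _ h'

/-- a quadrilateral is not the hull of three points -/
lemma quad_not_tri {Q : Set (ℝ × ℝ)} (hQ : IsQuadrilateral Q) (w : Fin 3 → ℝ × ℝ)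
    (h : Q = convexHull ℝ (Set.range w)) : False := by
  obtain ⟨v, hv, hQv⟩ := hQ
  rw [hQv] at h
  choose f hf using vertex_mem hv h
  have hinj : Function.Injective f := by
    intro i j hij
    apply quad_injective hv
    rw [← hf i, ← hf j, hij]
  have := Fintype.card_le_of_injective f hinj
  simp at this

lemma GQuad.pos_of_quad {G : GQuad} (hQ : IsQuadrilateral G.region) (i : Fin 4) : 0 < G.l i := by
  rcases (G.lnn i).lt_or_eq with h | h
  · exact h
  · obtain ⟨w, _, hw⟩ := G.triangle_of_zero h.symm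
    exact (quad_not_tri hQ w hw).elim

end Pool.Agent.MP_fafc5c_gt
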