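import Mathlib

set_option autoImplicit false

namespace Pool.Agent.MP_fafc5c_gt

/-- Minimal solutions of a Markov type divisibility problem. -/
lemma markov_min {α β γ k k' : ℤ} (hα : 1 ≤ α) (hβ : 1 ≤ β) (hγ : 1 ≤ γ)
    (hS1 : α^2 + β^2 + γ^2 = α * β * k) (hS2 : α^2 + β^2 + γ^2 = β * γ * k')
    (h1 : α^2 ≤ β^2 + γ^2) (h2 : β^2 ≤ α^2 + γ^2) (h3 : γ ≤ β) :
    α = β ∧ β = γ ∧ k = 3 := by
  rcases le_or_gt α β with hab | hab
  · -- α ≤ β
    obtain ⟨β', hβ'⟩ : ∃ β', β + β' = α * k := ⟨α * k - β, by ring⟩
    have hprod : β * β' = α^2 + γ^2 := by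
      have : β * (β + β') = α^2 + β^2 + γ^2 := by rw [hβ', hS1]; ring
      linarith
    have hββ' : β ≤ β' := by
      by_contra hlt
      push Not at hlt
      have : β * β' < β * β := mul_lt_mul_of_pos_left hlt (by linarith)
      nlinarith
    have hs2 : α * k = γ * k' := by
      have : β * (α * k) = β * (γ * k') := by linarith
      exact mul_left_cancel₀ (by linarith) this
    rcases le_or_gt α γ with hag | hag
    · have hk3 : k' ≤ 3 := by
        by_contra hlt
        push Not at hlt
        have e1 : 0 ≤ (β - γ) * (β' - γ) := mul_nonneg (by linarith) (by linarith)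
        have e2 : 4 * γ^2 ≤ γ * (γ * k') := by nlinarith
        have e3 : α^2 ≤ γ^2 := by nlinarith
        nlinarith
      have hk2 : 2 ≤ k' := by
        by_contra hlt
        push Not at hlt
        have : γ * k' ≤ γ * 1 := mul_le_mul_of_nonneg_left (by linarith) (by linarith)
        linarith
      have : k' = 2 ∨ k' = 3 := by omega
      rcases this with hk | hk
      · exfalso
        rw [hk] at hs2
        have e1 : β = γ := by linarith
        have e2 : β' = γ := by linarith
        rw [e1, e2] at hprod
        nlinarith
      · rw [hk] at hs2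
        have e1 : 0 ≤ (β - γ) * (β' - γ) := mul_nonneg (by linarith) (by linarith)
        have e2 : γ^2 ≤ α^2 := by nlinarith
        have e3 : α = γ := by nlinarith
        have e4 : (β - γ) * (β - 2 * γ) = 0 := by
          have hb' : β' = 3 * γ - β := by linarith
          rw [hb', e3] at hprod
          nlinarith
        have e5 : β = γ := by
          rcases mul_eq_zero.mp e4 with h | h
          · linarith
          · exfalso; linarith
        refine ⟨by linarith, e5, ?_⟩
        have : α * k = α * 3 := by rw [hs2, e3]
        exact mul_left_cancel₀ (by linarith) this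
    · exfalso
      have e1 : 0 ≤ (β - α) * (β' - α) := mul_nonneg (by linarith) (by linarith)
      have e3 : γ^2 < α^2 := by nlinarith
      have hk3 : k ≤ 2 := by
        by_contra hlt
        push Not at hlt
        have e2 : 3 * α^2 ≤ α * (α * k) := by nlinarith
        nlinarith
      have hk2 : 2 ≤ k := by
        by_contra hlt
        push Not at hlt
        have : α * k ≤ α * 1 := mul_le_mul_of_nonneg_left (by linarith) (by linarith)
        linarith
      have hk : k = 2 := by omega
      rw [hk] at hβ'
      have e4 : β = α := by linarith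
      have e5 : β' = α := by linarith
      rw [e4, e5] at hprod
      nlinarith
  · -- β < α
    exfalso
    obtain ⟨α', hα'⟩ : ∃ α', α + α' = β * k := ⟨β * k - α, by ring⟩
    have hprod : α * α' = β^2 + γ^2 := by
      have : α * (α + α') = α^2 + β^2 + γ^2 := by rw [hα', hS1]; ring
      linarith
    have hαα' : α ≤ α' := by
      by_contra hlt
      push Not at hlt
      have : α * α' < α * α := mul_lt_mul_of_pos_left hlt (by linarith)
      nlinarith
    have e1 : 0 ≤ (α - β) * (α' - β) := mul_nonneg (by linarith) (by linarith)
    have e3 : γ^2 ≤ β^2 := by nlinarith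
    have hk3 : k ≤ 3 := by
      by_contra hlt
      push Not at hlt
      have e2 : 4 * β^2 ≤ β * (β * k) := by nlinarith
      nlinarith
    have hk2 : 3 ≤ k := by
      by_contra hlt
      push Not at hlt
      have : β * k ≤ β * 2 := mul_le_mul_of_nonneg_left (by linarith) (by linarith)
      linarith
    have hk : k = 3 := by omega
    rw [hk] at hα'
    have e2 : β^2 ≤ γ^2 := by nlinarith
    have e4 : β = γ := by nlinarith
    have e5 : (α - β) * (α - 2 * β) = 0 := by
      have hb' : α' = 3 * β - α := by linarith
      rw [hb', ← e4] at hprod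
      nlinarith
    rcases mul_eq_zero.mp e5 with h | h <;> linarith

end Pool.Agent.MP_fafc5c_gt
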