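import Pool.Agent.MP_fafc5c_gt.GRegion

set_option autoImplicit false
set_option linter.unusedVariables false

namespace Pool.Agent.MP_fafc5c_gt

lemma T1.dhe {h e : Fin 4 → ℤ × ℤ} {p : Fin 4 → ℤ} (T : T1 h e p) (k : Fin 4) :
    detZ (h k) (e k) = p k := by
  have := (T.rotBy k).dhe0
  simpa using this

lemma continuous_det2_right (a : ℝ × ℝ) (c : ℝ × ℝ) : Continuous fun u => det2 a (u - c) := by
  unfold det2; fun_prop

lemma toR_ne_zero {u : ℤ × ℤ} (hu : IsCoprime u.1 u.2) : toR u ≠ 0 := by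
  intro h
  have h1 : (u.1 : ℝ) = 0 := congrArg Prod.fst h
  have h2 : (u.2 : ℝ) = 0 := congrArg Prod.snd h
  have h1' : u.1 = 0 := by exact_mod_cast h1
  have h2' : u.2 = 0 := by exact_mod_cast h2
  rw [h1', h2'] at hu
  obtain ⟨s, r, hs⟩ := hu
  simp at hs

namespace GQuad

variable (G : GQuad)

lemma convex_region : Convex ℝ G.region := by
  intro u hu w hw a b ha hb hab k
  have e1 : G.lam k (a • u + b • w) = a * G.lam k u + b * G.lam k w := by
    have : a • u + b • w - G.v k = a • (u - G.v k) + b • (w - G.v k) := by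
      rw [smul_sub, smul_sub]
      have : G.v k = (a + b) • G.v k := by rw [hab, one_smul]
      nth_rewrite 1 [this]
      rw [add_smul]; abel
    rw [lam, this, det2_add_right, det2_smul_right, det2_smul_right]; rfl
  rw [e1]
  exact add_nonneg (mul_nonneg ha (hu k)) (mul_nonneg hb (hw k))

lemma isClosed_region : IsClosed G.region := by
  have : G.region = ⋂ k, {u | 0 ≤ G.lam k u} := by
    ext u; simp [region]
  rw [this]
  exact isClosed_iInter fun k => isClosed_le continuous_const (continuous_det2_right _ _)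

lemma lam_ray (k : Fin 4) (s : ℝ) : G.lam k (G.v k + s • toR (G.e k)) = s * G.p k := by
  rw [lam, add_sub_cancel_left, det2_smul_right, det2_toR, G.T.dhe]

lemma g_ray (k : Fin 4) (s : ℝ) : G.g (G.v k + s • toR (G.e k)) =
    G.g (G.v k) + s * (detZ (G.e 0) (G.e k) : ℝ) := by
  have : G.v k + s • toR (G.e k) - G.v 0 = (G.v k - G.v 0) + s • toR (G.e k) := by abel
  rw [g, this, det2_add_right, det2_smul_right, det2_toR]; rfl

lemma shr_add (u w : ℝ × ℝ) :
    G.shr (u + w) = G.shr u + (w - det2 w (toR (G.e 0)) • toR (G.e 0)) := by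
  have : G.g (u + w) = G.g u - det2 w (toR (G.e 0)) := by
    have h1 : u + w - G.v 0 = (u - G.v 0) + w := by abel
    rw [g, h1, det2_add_right, det2_swap w]; simp [g]
  rw [shr, shr, this, sub_smul]; abel

lemma shr_of_g_zero {u : ℝ × ℝ} (h : G.g u = 0) : G.shr u = u := by
  rw [shr, h, zero_smul, add_zero]

lemma shr_ray (k : Fin 4) (s : ℝ) : G.shr (G.v k + s • toR (G.e k)) =
    G.shr (G.v k) + s • toR (monoInvZ (G.e 0) (G.e k)) := by
  rw [shr_add, toR_monoInv, det2_smul_left, smul_sub, smul_smul]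

lemma shr_v1 : G.shr (G.v 1) = G.v 0 + G.l 0 • toR (G.h 3) := by
  rw [shr, G.g_v1, G.v1, G.vE, neg_smul]; abel

lemma continuous_g : Continuous G.g := continuous_det2_right _ _
lemma continuous_shf : Continuous G.shf := by
  unfold shf; exact continuous_id.sub (G.continuous_g.smul continuous_const)
lemma continuous_shr : Continuous G.shr := by
  unfold shr; exact continuous_id.add (G.continuous_g.smul continuous_const)

/-- the common part of the two kinds of moves: `G'` has the mutated region -/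
def MutRegion (R' : Set (ℝ × ℝ)) : Prop :=
  ∀ u, u ∈ R' ↔ (0 ≤ G.g u ∧ u ∈ G.region) ∨ (G.g u ≤ 0 ∧ G.shf u ∈ G.region)

variable {G}

lemma interior_unmoved {R' : Set (ℝ × ℝ)} (hR : G.MutRegion R') {u : ℝ × ℝ}
    (hu : u ∈ interior G.region) (hg : 0 ≤ G.g u) : u ∈ interior R' := by
  rcases hg.lt_or_eq with hg | hg
  · have hopen : IsOpen (interior G.region ∩ {w | 0 < G.g w}) :=
      isOpen_interior.inter (isOpen_lt continuous_const G.continuous_g)
    refine interior_maximal ?_ hopen ⟨hu, hg⟩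
    rintro w ⟨hw1, hw2⟩
    exact (hR w).mpr (Or.inl ⟨le_of_lt hw2, interior_subset hw1⟩)
  · have hopen : IsOpen (interior G.region ∩ G.shf ⁻¹' (interior G.region)) :=
      isOpen_interior.inter (isOpen_interior.preimage G.continuous_shf)
    refine interior_maximal ?_ hopen ⟨hu, ?_⟩
    · rintro w ⟨hw1, hw2⟩
      rcases le_total 0 (G.g w) with h | h
      · exact (hR w).mpr (Or.inl ⟨h, interior_subset hw1⟩)
      · exact (hR w).mpr (Or.inr ⟨h, interior_subset hw2⟩)
    · show G.shf u ∈ interior G.region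
      rw [shf, ← hg, zero_smul, sub_zero]; exact hu

lemma interior_moved {R' : Set (ℝ × ℝ)} (hR : G.MutRegion R') {u : ℝ × ℝ}
    (hu : u ∈ interior G.region) (hg : G.g u ≤ 0) : G.shr u ∈ interior R' := by
  rcases hg.lt_or_eq with hg | hg
  · have hopen : IsOpen (G.shf ⁻¹' (interior G.region) ∩ {w | G.g w < 0}) :=
      (isOpen_interior.preimage G.continuous_shf).inter (isOpen_lt G.continuous_g continuous_const)
    refine interior_maximal ?_ hopen ⟨?_, ?_⟩
    · rintro w ⟨hw1, hw2⟩
      exact (hR w).mpr (Or.inr ⟨le_of_lt hw2, interior_subset hw1⟩)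
    · show G.shf (G.shr u) ∈ interior G.region
      rw [shf_shr]; exact hu
    · show G.g (G.shr u) < 0
      rw [g_shr]; exact hg
  · rw [G.shr_of_g_zero hg]
    exact interior_unmoved hR hu hg.ge

end GQuad

/-- `D` is modelled by `G`, the node `σ k` sits at the corner `k`. -/
structure Models (D : Diagram) (G : GQuad) (σ : Equiv.Perm (Fin 4)) : Prop where
  region : D.region = G.region
  dir : ∀ k, (D.node (σ k)).dir = -G.e k
  pos : ∀ k, ∃ s : ℝ, 0 < s ∧ (D.node (σ k)).pos = G.v k + s • toR (G.e k)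
  int : ∀ k, (D.node (σ k)).pos ∈ interior G.region

namespace Models

variable {D D' : Diagram} {G : GQuad} {σ : Equiv.Perm (Fin 4)}

lemma rotBy (M : Models D G σ) (i : Fin 4) : Models D (G.rotBy i) ((Equiv.addRight i).trans σ) where
  region := by rw [G.region_rotBy]; exact M.region
  dir k := M.dir (k + i)
  pos k := M.pos (k + i)
  int k := by rw [G.region_rotBy]; exact M.int (k + i)

lemma mem_cut (M : Models D G σ) (k : Fin 4) {s : ℝ} (hs : 0 < s)
    (hpos : (D.node (σ k)).pos = G.v k + s • toR (G.e k)) (u : ℝ × ℝ) :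
    u ∈ D.cut (σ k) ↔ ∃ r, 0 ≤ r ∧ r ≤ s ∧ u = G.v k + r • toR (G.e k) := by
  have hp : (0:ℝ) < G.p k := by exact_mod_cast G.ppos k
  constructor
  · rintro ⟨hu, t, ht, rfl⟩
    rw [hpos, M.dir k, toR_neg] at hu ⊢
    have e1 : G.v k + s • toR (G.e k) + t • -toR (G.e k) = G.v k + (s - t) • toR (G.e k) := by
      rw [sub_smul, smul_neg]; abel
    rw [e1] at hu ⊢
    rw [M.region] at hu
    have := hu k
    rw [G.lam_ray] at this
    exact ⟨s - t, nonneg_of_mul_nonneg_left this hp, by linarith, rfl⟩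
  · rintro ⟨r, hr0, hrs, rfl⟩
    refine ⟨?_, s - r, by linarith, ?_⟩
    · rw [M.region]
      have h1 := G.v_mem k
      have h2 := interior_subset (M.int k)
      rw [hpos] at h2
      have h3 := G.convex_region h1 h2 (a := 1 - r / s) (b := r / s)
        (by rw [sub_nonneg, div_le_one hs]; exact hrs) (div_nonneg hr0 hs.le) (by ring)
      have h4 : (1 - r / s) • G.v k + (r / s) • (G.v k + s • toR (G.e k)) =
          G.v k + r • toR (G.e k) := by
        rw [smul_add, smul_smul, div_mul_cancel₀ _ hs.ne', sub_smul, one_smul]; abel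
      rwa [h4] at h3
    · rw [hpos, M.dir k, toR_neg, smul_neg, sub_smul]; abel

lemma v_mem_cut (M : Models D G σ) (k : Fin 4) : G.v k ∈ D.cut (σ k) := by
  obtain ⟨s, hs, hpos⟩ := M.pos k
  rw [M.mem_cut k hs hpos]
  exact ⟨0, le_rfl, hs.le, by simp⟩

lemma pos_mem_cut (M : Models D G σ) (k : Fin 4) : (D.node (σ k)).pos ∈ D.cut (σ k) := by
  obtain ⟨s, hs, hpos⟩ := M.pos k
  rw [M.mem_cut k hs hpos]
  exact ⟨s, hs.le, le_rfl, hpos⟩

/-- sides of the eigenline of the node at the corner `0` -/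
lemma clockSide_eq (M : Models D G σ) :
    clockSide (D.node (σ 0)).pos (D.node (σ 0)).dir = {u | 0 ≤ G.g u} := by
  obtain ⟨s, hs, hpos⟩ := M.pos 0
  ext u
  have : det2 (toR (D.node (σ 0)).dir) (u - (D.node (σ 0)).pos) = - G.g u := by
    have h1 : u - (G.v 0 + s • toR (G.e 0)) = (u - G.v 0) - s • toR (G.e 0) := by abel
    rw [M.dir, toR_neg, hpos, h1, det2_neg_left, det2_sub_right, det2_smul_right, det2_self,
      mul_zero, sub_zero]; rfl
  simp only [clockSide, Set.mem_ofPred_eq, this]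
  constructor <;> intro h <;> linarith

lemma antiSide_eq (M : Models D G σ) :
    antiSide (D.node (σ 0)).pos (D.node (σ 0)).dir = {u | G.g u ≤ 0} := by
  obtain ⟨s, hs, hpos⟩ := M.pos 0
  ext u
  have : det2 (toR (D.node (σ 0)).dir) (u - (D.node (σ 0)).pos) = - G.g u := by
    have h1 : u - (G.v 0 + s • toR (G.e 0)) = (u - G.v 0) - s • toR (G.e 0) := by abel
    rw [M.dir, toR_neg, hpos, h1, det2_neg_left, det2_sub_right, det2_smul_right, det2_self,
      mul_zero, sub_zero]; rfl
  simp only [antiSide, Set.mem_ofPred_eq, this]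
  constructor <;> intro h <;> linarith

lemma phiInv_eq (M : Models D G σ) (u : ℝ × ℝ) :
    phiInv (D.node (σ 0)).pos (D.node (σ 0)).dir u = G.shr u := by
  obtain ⟨s, hs, hpos⟩ := M.pos 0
  have h1 : u - (G.v 0 + s • toR (G.e 0)) = (u - G.v 0) - s • toR (G.e 0) := by abel
  rw [phiInv, M.dir, toR_neg, hpos, h1, det2_neg_right, det2_sub_left, det2_smul_left, det2_self,
    mul_zero, sub_zero, det2_swap, smul_neg, sub_neg_eq_add, neg_neg]; rfl

lemma phi_eq (M : Models D G σ) (u : ℝ × ℝ) :
    phi (D.node (σ 0)).pos (D.node (σ 0)).dir u = G.shf u := by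
  obtain ⟨s, hs, hpos⟩ := M.pos 0
  have h1 : u - (G.v 0 + s • toR (G.e 0)) = (u - G.v 0) - s • toR (G.e 0) := by abel
  rw [phi, M.dir, toR_neg, hpos, h1, det2_neg_right, det2_sub_left, det2_smul_left, det2_self,
    mul_zero, sub_zero, det2_swap, smul_neg, neg_neg, ← sub_eq_add_neg]; rfl

end Models

end Pool.Agent.MP_fafc5c_gt
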