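import Pool.Agent.MP_fafc5c_gt.Noether

set_option autoImplicit false
set_option linter.unusedVariables false

namespace Pool.Agent.MP_fafc5c_gt

lemma coprime_iff_exists_det (v : ℤ × ℤ) : IsCoprime v.1 v.2 ↔ ∃ w, detZ v w = 1 := by
  constructor
  · rintro ⟨s, r, hs⟩
    exact ⟨(-r, s), by simp only [detZ]; linarith⟩
  · rintro ⟨w, hw⟩
    exact ⟨w.2, -w.1, by simp only [detZ] at hw; linarith⟩

lemma detZ_monoInv (e u v : ℤ × ℤ) : detZ (monoInvZ e u) (monoInvZ e v) = detZ u v := by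
  simp only [detZ, monoInvZ, Prod.fst_sub, Prod.snd_sub, Prod.smul_fst, Prod.smul_snd, smul_eq_mul]
  ring

lemma detZ_mono (e u v : ℤ × ℤ) : detZ (monoZ e u) (monoZ e v) = detZ u v := by
  simp only [detZ, monoZ, Prod.fst_add, Prod.snd_add, Prod.smul_fst, Prod.smul_snd, smul_eq_mul]
  ring

lemma coprime_monoInv (e : ℤ × ℤ) {v : ℤ × ℤ} (hv : IsCoprime v.1 v.2) :
    IsCoprime (monoInvZ e v).1 (monoInvZ e v).2 := by
  rw [coprime_iff_exists_det] at hv ⊢
  obtain ⟨w, hw⟩ := hv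
  exact ⟨monoInvZ e w, by rw [detZ_monoInv, hw]⟩

lemma coprime_neg {v : ℤ × ℤ} (hv : IsCoprime v.1 v.2) : IsCoprime (-v).1 (-v).2 := by
  simpa using hv.neg_neg

lemma monoInvZ_add (e u v : ℤ × ℤ) : monoInvZ e (u + v) = monoInvZ e u + monoInvZ e v := by
  simp only [monoInvZ, detZ_add_left, add_smul]; abel

lemma monoInvZ_smul (e : ℤ × ℤ) (t : ℤ) (v : ℤ × ℤ) : monoInvZ e (t • v) = t • monoInvZ e v := by
  simp only [monoInvZ, detZ_smul_left, smul_sub, mul_smul]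

lemma monoInvZ_sub (e u v : ℤ × ℤ) : monoInvZ e (u - v) = monoInvZ e u - monoInvZ e v := by
  simp only [monoInvZ, detZ_sub_left, sub_smul]; abel

section moves
variable (h e : Fin 4 → ℤ × ℤ) (p : Fin 4 → ℤ)

def Lh : Fin 4 → ℤ × ℤ := ![monoInvZ (e 0) (h 1), h 1, h 2, h 3]
def Le : Fin 4 → ℤ × ℤ := ![monoInvZ (e 0) (e 1), -(e 0), e 2, e 3]
def Lp : Fin 4 → ℤ := ![p 1, detZ (e 0) (h 1), p 2, p 3]
def Rh : Fin 4 → ℤ × ℤ := ![monoInvZ (e 0) (h 1), monoInvZ (e 0) (h 2), h 2, h 3]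
def Re : Fin 4 → ℤ × ℤ := ![monoInvZ (e 0) (e 1), monoInvZ (e 0) (e 2), -(e 0), e 3]
def Rp : Fin 4 → ℤ := ![p 1, p 2, detZ (e 0) (h 2), p 3]

end moves

namespace T1

variable {h e : Fin 4 → ℤ × ℤ} {p : Fin 4 → ℤ}

lemma rotBy (T : T1 h e p) (i : Fin 4) :
    T1 (fun k => h (k + i)) (fun k => e (k + i)) (fun k => p (k + i)) where
  hprim k := T.hprim _
  eprim k := T.eprim _
  pne k := T.pne _
  hdiff k := by rw [show k + 1 + i = k + i + 1 by abel]; exact T.hdiff _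
  hdet k := by rw [show k + 1 + i = k + i + 1 by abel]; exact T.hdet _

lemma monoInv_h0 (T : T1 h e p) : monoInvZ (e 0) (h 0) = h 3 := by
  rw [monoInvZ, T.dhe0, T.h0]; abel

lemma h1' (T : T1 h e p) : h 1 = h 0 + p 1 • e 1 := by rw [T.h1]; abel
lemma h2' (T : T1 h e p) : h 2 = h 1 + p 2 • e 2 := by rw [T.h2]; abel
lemma h3' (T : T1 h e p) : h 3 = h 2 + p 3 • e 3 := by rw [T.h3]; abel

lemma monoInv_h1 (T : T1 h e p) :
    monoInvZ (e 0) (h 1) = h 3 + p 1 • monoInvZ (e 0) (e 1) := by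
  rw [T.h1', monoInvZ_add, T.monoInv_h0, monoInvZ_smul]

lemma L (T : T1 h e p) (hP : detZ (e 0) (h 1) ≠ 0) : T1 (Lh h e) (Le e) (Lp h e p) where
  hprim k := by
    fin_cases k
    · exact coprime_monoInv _ (T.hprim 1)
    · exact T.hprim 1
    · exact T.hprim 2
    · exact T.hprim 3
  eprim k := by
    fin_cases k
    · exact coprime_monoInv _ (T.eprim 1)
    · exact coprime_neg (T.eprim 0)
    · exact T.eprim 2
    · exact T.eprim 3
  pne k := by
    fin_cases k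
    · exact T.pne 1
    · exact hP
    · exact T.pne 2
    · exact T.pne 3
  hdiff k := by
    fin_cases k
    · show h 1 = monoInvZ (e 0) (h 1) + detZ (e 0) (h 1) • -(e 0)
      rw [monoInvZ, detZ_swap (h 1) (e 0)]
      simp only [neg_smul, smul_neg]; abel
    · exact T.h2'
    · exact T.h3'
    · exact T.monoInv_h1
  hdet k := by
    fin_cases k
    · show detZ (monoInvZ (e 0) (h 1)) (h 1) = detZ (e 0) (h 1) ^ 2
      rw [monoInvZ, detZ_sub_left, detZ_self, detZ_smul_left, detZ_swap (h 1) (e 0)]; ring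
    · exact T.d12
    · exact T.d23
    · show detZ (h 3) (monoInvZ (e 0) (h 1)) = p 1 ^ 2
      rw [← T.monoInv_h0, detZ_monoInv, T.d01]

lemma R (T : T1 h e p) (hP : detZ (e 0) (h 2) ≠ 0) : T1 (Rh h e) (Re e) (Rp h e p) where
  hprim k := by
    fin_cases k
    · exact coprime_monoInv _ (T.hprim 1)
    · exact coprime_monoInv _ (T.hprim 2)
    · exact T.hprim 2
    · exact T.hprim 3
  eprim k := by
    fin_cases k
    · exact coprime_monoInv _ (T.eprim 1)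
    · exact coprime_monoInv _ (T.eprim 2)
    · exact coprime_neg (T.eprim 0)
    · exact T.eprim 3
  pne k := by
    fin_cases k
    · exact T.pne 1
    · exact T.pne 2
    · exact hP
    · exact T.pne 3
  hdiff k := by
    fin_cases k
    · show monoInvZ (e 0) (h 2) = monoInvZ (e 0) (h 1) + p 2 • monoInvZ (e 0) (e 2)
      rw [T.h2', monoInvZ_add, monoInvZ_smul]
    · show h 2 = monoInvZ (e 0) (h 2) + detZ (e 0) (h 2) • -(e 0)
      rw [monoInvZ, detZ_swap (h 2) (e 0)]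
      simp only [neg_smul, smul_neg]; abel
    · exact T.h3'
    · exact T.monoInv_h1
  hdet k := by
    fin_cases k
    · show detZ (monoInvZ (e 0) (h 1)) (monoInvZ (e 0) (h 2)) = p 2 ^ 2
      rw [detZ_monoInv, T.d12]
    · show detZ (monoInvZ (e 0) (h 2)) (h 2) = detZ (e 0) (h 2) ^ 2
      rw [monoInvZ, detZ_sub_left, detZ_self, detZ_smul_left, detZ_swap (h 2) (e 0)]; ring
    · exact T.d23
    · show detZ (h 3) (monoInvZ (e 0) (h 1)) = p 1 ^ 2
      rw [← T.monoInv_h0, detZ_monoInv, T.d01]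

lemma noeth_rotBy (h : Fin 4 → ℤ × ℤ) (p : Fin 4 → ℤ) (i : Fin 4) :
    noeth (fun k => h (k + i)) (fun k => p (k + i)) = noeth h p := by
  fin_cases i
  · simp [noeth]
  · simp only [noeth, Fin.reduceAdd, Fin.isValue, Fin.mk_one, zero_add]
    rw [detZ_swap (h 2) (h 0)]; unfold noether; ring
  · simp only [noeth, Fin.reduceFinMk, Fin.reduceAdd, Fin.isValue, zero_add]
    rw [detZ_swap (h 2) (h 0), detZ_swap (h 3) (h 1)]; unfold noether; ring
  · simp only [noeth, Fin.reduceFinMk, Fin.reduceAdd, Fin.isValue, zero_add]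
    rw [detZ_swap (h 3) (h 1)]; unfold noether; ring

lemma noether_L_identity {a b c d x y Q x' : ℤ} (hQ : a * Q = (b + y) ^ 2)
    (hx' : a * x' = a * c + (b + y) * (x + d)) (hpl : x * y = b * d - a * c) :
    a * (a * noether b Q c d x' y) = a * (Q * noether a b c d x y) := by
  unfold noether
  linear_combination (2*a*(c*d+b*d+b*c) + a*x'*c - a*b*y - 8*a*b*c*d -
    (2 * (b*c*d + a*c*d + a*b*d + a*b*c) + x * (b*c - a*d) + y * (c*d - a*b) - 8*a*b*c*d)) * hQ +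
    ((b+y)^2*c - a*b*d) * hx' + ((b+y)^2*c + (b+y)*a*d) * hpl

lemma noether_R_identity {a b c d x y Q x' : ℤ} (hQ : a * Q = (x + d) ^ 2)
    (hx' : a * x' = a * c + (b + y) * (x + d)) (hpl : x * y = b * d - a * c) :
    a * (a * noether b c Q d x' (-x)) = a * (Q * noether a b c d x y) := by
  unfold noether
  linear_combination (2*a*(c*d+b*d+b*c) + a*x'*c - a*x*d - 8*a*b*c*d -
    (2 * (b*c*d + a*c*d + a*b*d + a*b*c) + x * (b*c - a*d) + y * (c*d - a*b) - 8*a*b*c*d)) * hQ +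
    (c*(x+d)^2 - a*b*d) * hx' + (c*(x+d)^2 + (x+d)*a*b) * hpl

lemma x'_eq (T : T1 h e p) : p 0 ^ 2 * detZ (monoInvZ (e 0) (h 1)) (h 2) =
      p 0 ^ 2 * p 2 ^ 2 + (p 1 ^ 2 + detZ (h 1) (h 3)) * (detZ (h 0) (h 2) + p 3 ^ 2) := by
  rw [monoInvZ, detZ_sub_left, detZ_smul_left, T.d12, detZ_swap (h 1) (e 0), ← T.PR0, ← T.PL0]
  ring

lemma y'_eq (T : T1 h e p) : detZ (monoInvZ (e 0) (h 2)) (h 3) = - detZ (h 0) (h 2) := by
  have h0 := T.pne 0
  have hne : (p 0 ^ 2 : ℤ) ≠ 0 := pow_ne_zero 2 h0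
  rw [← T.monoInv_h0, detZ_monoInv, detZ_swap]

/-- the Noether expression changes by a nonzero factor -/
lemma noeth_L (T : T1 h e p) :
    p 0 ^ 2 * noeth (Lh h e) (Lp h e p) = detZ (e 0) (h 1) ^ 2 * noeth h p := by
  have hne : (p 0 ^ 2 : ℤ) ≠ 0 := pow_ne_zero 2 (T.pne 0)
  show p 0 ^ 2 * noether (p 1 ^ 2) (detZ (e 0) (h 1) ^ 2) (p 2 ^ 2) (p 3 ^ 2)
    (detZ (monoInvZ (e 0) (h 1)) (h 2)) (detZ (h 1) (h 3)) = _
  exact mul_left_cancel₀ hne (noether_L_identity (by rw [← T.PL0]; ring) T.x'_eq T.pluecker)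

lemma noeth_R (T : T1 h e p) :
    p 0 ^ 2 * noeth (Rh h e) (Rp h e p) = detZ (e 0) (h 2) ^ 2 * noeth h p := by
  have hne : (p 0 ^ 2 : ℤ) ≠ 0 := pow_ne_zero 2 (T.pne 0)
  have hy' := T.y'_eq
  show p 0 ^ 2 * noether (p 1 ^ 2) (p 2 ^ 2) (detZ (e 0) (h 2) ^ 2) (p 3 ^ 2)
    (detZ (monoInvZ (e 0) (h 1)) (h 2)) (detZ (monoInvZ (e 0) (h 2)) (h 3)) = _
  rw [hy']
  exact mul_left_cancel₀ hne (noether_R_identity (by rw [← T.PR0]; ring) T.x'_eq T.pluecker)

/-- make all weights positive -/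
lemma absT (T : T1 h e p) : T1 h (fun k => (p k).sign • e k) (fun k => |p k|) where
  hprim := T.hprim
  eprim k := by
    rcases lt_or_gt_of_ne (T.pne k) with hk | hk
    · simp only [Int.sign_eq_neg_one_of_neg hk, neg_smul, one_smul]
      exact coprime_neg (T.eprim k)
    · simp only [Int.sign_eq_one_of_pos hk, one_smul]
      exact T.eprim k
  pne k := abs_ne_zero.mpr (T.pne k)
  hdiff k := by
    rw [T.hdiff k, smul_smul, mul_comm, Int.sign_mul_abs]
  hdet k := by rw [T.hdet k, sq_abs]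

lemma min_case2 (T : T1 h e p) (hp : ∀ k, 0 < p k)
    (hx0 : 1 ≤ detZ (h 0) (h 2)) (hy0 : 1 ≤ detZ (h 1) (h 3))
    (hxb : detZ (h 0) (h 2) < p 1 ^ 2) (hyd : detZ (h 1) (h 3) < p 3 ^ 2)
    (n2 : p 2 ^ 2 = detZ (h 0) (h 2) ∨ p 1 ^ 2 ≤ |p 2 ^ 2 - detZ (h 0) (h 2)|)
    (n3 : p 3 ^ 2 = detZ (h 1) (h 3) ∨ p 2 ^ 2 ≤ |p 3 ^ 2 - detZ (h 1) (h 3)|)
    (n3' : p 1 ^ 2 = detZ (h 0) (h 2) ∨ p 2 ^ 2 ≤ |p 1 ^ 2 - detZ (h 0) (h 2)|)
    (n4' : p 2 ^ 2 = detZ (h 1) (h 3) ∨ p 3 ^ 2 ≤ |p 2 ^ 2 - detZ (h 1) (h 3)|) : False := by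
  have hpl := T.pluecker
  have hp0 := hp 0; have hp1 := hp 1; have hp2 := hp 2; have hp3 := hp 3
  have hc0 : 0 < p 2 ^ 2 := by positivity
  set x := detZ (h 0) (h 2) with hxdef
  set y := detZ (h 1) (h 3) with hydef
  have hbc : p 2 ^ 2 + x ≤ p 1 ^ 2 := by
    rcases n3' with h' | h'
    · linarith
    · rw [abs_of_pos (by linarith)] at h'; linarith
  have hcd : p 2 ^ 2 + y ≤ p 3 ^ 2 := by
    rcases n3 with h' | h'
    · linarith
    · rw [abs_of_pos (by linarith)] at h'; linarith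
  have hcx : p 2 ^ 2 = x := by
    rcases n2 with h' | h'
    · exact h'
    · exfalso
      rcases abs_cases (p 2 ^ 2 - x) with ⟨h1, _⟩ | ⟨h1, _⟩ <;> rw [h1] at h' <;> linarith
  have hcy : p 2 ^ 2 = y := by
    rcases n4' with h' | h'
    · exact h'
    · exfalso
      rcases abs_cases (p 2 ^ 2 - y) with ⟨h1, _⟩ | ⟨h1, _⟩ <;> rw [h1] at h' <;> linarith
  have hpar3 : detZ (h 1) (e 3) = 0 := by
    have h1 := T.PR3
    rw [← hydef, ← hcy, sub_self] at h1
    rcases mul_eq_zero.mp h1 with h' | h'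
    · exact absurd h' (T.pne 3)
    · rw [detZ_swap, h']; ring
  have hpar1 : detZ (h 2) (e 1) = 0 := by
    have h1 := T.PL1
    rw [← hxdef, ← hcx, sub_self] at h1
    rcases mul_eq_zero.mp h1 with h' | h'
    · exact absurd h' (T.pne 1)
    · rw [detZ_swap, h']; ring
  have hp3' : p 3 = p 2 ^ 2 := by
    rcases parallel_prim (T.hprim 1) (T.eprim 3) hpar3 with h' | h'
    · exfalso
      have h1 := T.dh2e3
      rw [h', detZ_swap, T.d12] at h1
      linarith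
    · have h1 := T.dh2e3
      rw [h', detZ_neg_right, detZ_swap, T.d12] at h1
      linarith
  have hp1' : p 1 = p 2 ^ 2 := by
    rcases parallel_prim (T.hprim 2) (T.eprim 1) hpar1 with h' | h'
    · have h1 := T.dh1e1
      rw [h', T.d12] at h1
      linarith
    · exfalso
      have h1 := T.dh1e1
      rw [h', detZ_neg_right, T.d12] at h1
      linarith
  rw [← hcx, ← hcy, hp1', hp3'] at hpl
  -- hpl : c * c = c^2 * c^2 - a * c
  have ha : p 0 ^ 2 = p 2 ^ 2 * (p 2 ^ 2 * p 2 ^ 2 - 1) := by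
    apply mul_right_cancel₀ hc0.ne'
    linarith
  rcases (by omega : p 2 = 1 ∨ 2 ≤ p 2) with hg | hg
  · rw [hg] at ha
    have : 0 < p 0 ^ 2 := by positivity
    norm_num at ha
    linarith
  · set g := p 2 with hgdef
    have e1 : p 0 < g * (g * g) := by
      by_contra hcon
      push Not at hcon
      have h1 : (g * (g * g)) * (g * (g * g)) ≤ p 0 * p 0 :=
        mul_le_mul hcon hcon (by positivity) (by positivity)
      nlinarith
    have e2 : p 0 ≤ g * (g * g) - 1 := by linarith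
    have e3 : p 0 * p 0 ≤ (g * (g * g) - 1) * (g * (g * g) - 1) :=
      mul_le_mul e2 e2 (by positivity) (by linarith)
    have e4 : g * g ≤ g * (g * g) - g * g := by nlinarith
    nlinarith

end T1

end Pool.Agent.MP_fafc5c_gt
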