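import Pool.Agent.MP_fafc5c_gt.T1Min

set_option autoImplicit false
set_option linter.unusedVariables false

namespace Pool.Agent.MP_fafc5c_gt

/-- reflection of an integer vector -/
def refl (v : ℤ × ℤ) : ℤ × ℤ := (v.2, v.1)

lemma detZ_refl (u v : ℤ × ℤ) : detZ (refl u) (refl v) = - detZ u v := by
  simp only [detZ, refl]; ring

namespace T1

variable {h e : Fin 4 → ℤ × ℤ} {p : Fin 4 → ℤ}

lemma reflT (T : T1 h e p) :
    T1 (fun k => -refl (h (3 - k))) (fun k => refl (e (-k))) (fun k => p (-k)) where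
  hprim k := by
    have := T.hprim (3 - k)
    simpa [refl] using this.symm.neg_neg
  eprim k := by
    have := T.eprim (-k)
    simpa [refl] using this.symm
  pne k := T.pne _
  hdiff k := by
    have e1 : (3 - (k + 1) : Fin 4) + 1 = 3 - k := by fin_cases k <;> rfl
    have e2 : (-(k + 1) : Fin 4) = 3 - k := by fin_cases k <;> rfl
    have := T.hdiff (3 - (k + 1))
    rw [e1] at this
    rw [e2]
    rw [this]
    ext <;> simp [refl]
  hdet k := by
    have e1 : (3 - (k + 1) : Fin 4) + 1 = 3 - k := by fin_cases k <;> rfl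
    have e2 : (-(k + 1) : Fin 4) = 3 - k := by fin_cases k <;> rfl
    have := T.hdet (3 - (k + 1))
    rw [e1] at this
    rw [e2, detZ_neg_left, detZ_neg_right, detZ_refl, ← this, detZ_swap]; ring

/-- exclusion of the case of three equal weights -/
lemma exclude (T : T1 h e p) {g : ℤ} (hg : 2 ≤ g) (h0 : p 0 = g) (h1 : p 1 = g) (h2 : p 2 = g)
    (hk : detZ (e 0) (e 1) = 3) (hx : detZ (h 0) (h 2) = g^4 - g^2) : False := by
  obtain ⟨s, r, hs⟩ := T.hprim 0
  set u : ℤ × ℤ := (-r, s) with hu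
  have hdu : detZ (h 0) u = 1 := by simp only [detZ, hu]; linarith
  have ident : ∀ v w : ℤ × ℤ,
      detZ v w = detZ v u * detZ (h 0) w - detZ (h 0) v * detZ w u := by
    intro v w
    have : detZ v w * detZ (h 0) u = detZ v u * detZ (h 0) w - detZ (h 0) v * detZ w u := by
      simp only [detZ]; ring
    rw [← this, hdu, mul_one]
  have comp1 : ∀ v : ℤ × ℤ, v.1 = detZ v u * (h 0).1 + detZ (h 0) v * u.1 := by
    intro v
    have : v.1 * detZ (h 0) u = detZ v u * (h 0).1 + detZ (h 0) v * u.1 := by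
      simp only [detZ]; ring
    rw [← this, hdu, mul_one]
  have comp2 : ∀ v : ℤ × ℤ, v.2 = detZ v u * (h 0).2 + detZ (h 0) v * u.2 := by
    intro v
    have : v.2 * detZ (h 0) u = detZ v u * (h 0).2 + detZ (h 0) v * u.2 := by
      simp only [detZ]; ring
    rw [← this, hdu, mul_one]
  have b0 : detZ (h 0) (e 0) = g := by rw [T.dhe0, h0]
  have b1 : detZ (h 0) (e 1) = g := by rw [T.dh0e1, h1]
  have b2' : g * detZ (h 0) (e 2) = g * (g^3 - 2 * g) := by
    have : g * detZ (h 0) (e 2) = detZ (h 0) (p 2 • e 2) := by rw [detZ_smul_right, h2]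
    rw [this, T.h2, detZ_sub_right, T.d01, hx, h1]; ring
  have b2 : detZ (h 0) (e 2) = g^3 - 2 * g := mul_left_cancel₀ (by linarith) b2'
  have i01 := ident (e 0) (e 1)
  rw [hk, b0, b1] at i01
  have hg3 : g ∣ 3 := ⟨detZ (e 0) u - detZ (e 1) u, by linarith⟩
  have hgle : g ≤ 3 := Int.le_of_dvd (by norm_num) hg3
  have hg' : g = 3 := by
    rcases (by omega : g = 2 ∨ g = 3) with hh | hh
    · exfalso; rw [hh] at hg3; omega
    · exact hh
  subst hg'
  have hk1 := T.k1
  rw [h1, h2, hx] at hk1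
  have hk1' : detZ (e 1) (e 2) = -6 := by linarith
  have i12 := ident (e 1) (e 2)
  rw [hk1', b1, b2] at i12
  norm_num at i12 b2
  have key : ∀ v : ℤ × ℤ, IsCoprime v.1 v.2 → 3 ∣ detZ (h 0) v → ¬ 3 ∣ detZ v u := by
    intro v hv hd1 hd2
    have c1 : 3 ∣ v.1 := by
      rw [comp1 v]
      exact dvd_add (Dvd.dvd.mul_right hd2 _) (Dvd.dvd.mul_right hd1 _)
    have c2 : 3 ∣ v.2 := by
      rw [comp2 v]
      exact dvd_add (Dvd.dvd.mul_right hd2 _) (Dvd.dvd.mul_right hd1 _)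
    have := prim_not_dvd hv c1 c2
    omega
  have n0 := key (e 0) (T.eprim 0) (by rw [b0])
  have n1 := key (e 1) (T.eprim 1) (by rw [b1])
  have n2 := key (e 2) (T.eprim 2) (by rw [b2]; norm_num)
  have e2 : detZ (e 2) u = 7 * detZ (e 1) u + 2 := by linarith
  have e0 : detZ (e 0) u = detZ (e 1) u + 1 := by linarith
  rw [e2] at n2
  rw [e0] at n0
  rcases (by omega : detZ (e 1) u % 3 = 0 ∨ detZ (e 1) u % 3 = 1 ∨ detZ (e 1) u % 3 = 2)
    with hh | hh | hh <;> omega

/-- the minimal configurations with a long edge -/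
lemma min_case3 (T : T1 h e p) (hp : ∀ k, 0 < p k)
    (hx : p 1 ^ 2 ≤ detZ (h 0) (h 2)) (hy : 1 ≤ detZ (h 1) (h 3))
    (n1 : p 0 ^ 2 ≤ p 1 ^ 2 + detZ (h 1) (h 3))
    (n2' : p 1 ^ 2 ≤ detZ (h 1) (h 3) + p 0 ^ 2)
    (n3 : p 3 ^ 2 = detZ (h 1) (h 3) ∨ p 2 ^ 2 ≤ |p 3 ^ 2 - detZ (h 1) (h 3)|)
    (n4 : p 3 ^ 2 ≤ p 0 ^ 2 + detZ (h 0) (h 2))
    (n4' : p 2 ^ 2 = detZ (h 1) (h 3) ∨ p 3 ^ 2 ≤ |p 2 ^ 2 - detZ (h 1) (h 3)|) : False := by
  have hpl := T.pluecker
  have hp0 := hp 0; have hp1 := hp 1; have hp2 := hp 2; have hp3 := hp 3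
  set x := detZ (h 0) (h 2) with hxdef
  set y := detZ (h 1) (h 3) with hydef
  have hyd : y < p 3 ^ 2 := by
    by_contra hcon
    push Not at hcon
    have : p 1 ^ 2 * p 3 ^ 2 ≤ x * y := mul_le_mul hx hcon (by positivity) (by linarith [sq_nonneg (p 1)])
    have : 0 < p 0 ^ 2 * p 2 ^ 2 := by positivity
    linarith
  have hcd : p 2 ^ 2 + y ≤ p 3 ^ 2 := by
    rcases n3 with h' | h'
    · linarith
    · rw [abs_of_pos (by linarith)] at h'; linarith
  have hcy : p 2 ^ 2 = y := by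
    rcases n4' with h' | h'
    · exact h'
    · exfalso
      rcases abs_cases (p 2 ^ 2 - y) with ⟨h1, _⟩ | ⟨h1, _⟩
      · rw [h1] at h'; linarith
      · rw [h1] at h'
        have : 0 < p 2 ^ 2 := by positivity
        linarith
  -- e 3 is parallel to h 1
  have hpar : detZ (h 1) (e 3) = 0 := by
    have h1 := T.PR3
    rw [← hydef, ← hcy, sub_self] at h1
    rcases mul_eq_zero.mp h1 with h' | h'
    · exact absurd h' (T.pne 3)
    · rw [detZ_swap, h']; ring
  have hp3 : p 3 = p 2 ^ 2 := by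
    rcases parallel_prim (T.hprim 1) (T.eprim 3) hpar with h' | h'
    · exfalso
      have h1 := T.dh2e3
      rw [h', detZ_swap, T.d12] at h1
      have : 0 < p 2 ^ 2 := by positivity
      have := hp 3
      linarith
    · have h1 := T.dh2e3
      rw [h', detZ_neg_right, detZ_swap, T.d12] at h1
      linarith
  have hc0 : p 2 ^ 2 ≠ 0 := by positivity
  have hx' : x = p 1 ^ 2 * p 2 ^ 2 - p 0 ^ 2 := by
    apply mul_right_cancel₀ hc0
    rw [← hcy, hp3] at hpl
    linarith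
  have hk0 := T.k0
  have hk1 := T.k1
  rw [← hydef, ← hcy] at hk0
  rw [← hxdef, hx'] at hk1
  have hcb : p 2 ^ 2 ≤ p 1 ^ 2 := by
    rw [hp3, hx'] at n4
    have : p 2 ^ 2 * p 2 ^ 2 ≤ p 1 ^ 2 * p 2 ^ 2 := by linarith
    exact le_of_mul_le_mul_right this (by positivity)
  have hgb : p 2 ≤ p 1 := by
    nlinarith
  obtain ⟨r1, r2, r3⟩ := markov_min (α := p 0) (β := p 1) (γ := p 2)
    (k := detZ (e 0) (e 1)) (k' := detZ (e 1) (e 2) + p 1 * p 2) (by linarith) (by linarith)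
    (by linarith) (by linarith) (by linarith) (by linarith) (by linarith) hgb
  have hg2 : 2 ≤ p 2 := by
    by_contra hcon
    have h1 : p 2 = 1 := by linarith
    rw [h1] at r2 hx'
    rw [r2] at hx' hx
    rw [hx'] at hx
    have : 0 < p 0 ^ 2 := by positivity
    linarith
  exact T.exclude hg2 (by rw [r1, r2]) r2 rfl r3 (by rw [← hxdef, hx', r1, r2]; ring)

end T1

end Pool.Agent.MP_fafc5c_gt
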