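import Pool.Agent.MP_fafc5c_gt.Moves

set_option autoImplicit false
set_option linter.unusedVariables false

namespace Pool.Agent.MP_fafc5c_gt

/-- some algebraic mutation makes a weight smaller (and keeps it nonzero) -/
def Opt (h e : Fin 4 → ℤ × ℤ) (p : Fin 4 → ℤ) : Prop :=
  ∃ i : Fin 4, (detZ (e i) (h (i + 1)) ≠ 0 ∧ |detZ (e i) (h (i + 1))| < |p i|) ∨
    (detZ (e i) (h (i + 2)) ≠ 0 ∧ |detZ (e i) (h (i + 2))| < |p i|)

lemma opt_rot {h e : Fin 4 → ℤ × ℤ} {p : Fin 4 → ℤ}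
    (H : Opt (fun k => h (k + 1)) (fun k => e (k + 1)) (fun k => p (k + 1))) : Opt h e p := by
  obtain ⟨i, hi⟩ := H
  refine ⟨i + 1, ?_⟩
  rw [show i + 1 + 2 = i + 2 + 1 by abel]
  exact hi

/-- `0 < |P| < |p|` follows from `0 < |p P| < p²` -/
lemma opt_of {q P : ℤ} {v : ℤ} (hq : q ≠ 0) (hv : q * P = v) (h0 : v ≠ 0) (h1 : |v| < q ^ 2) :
    P ≠ 0 ∧ |P| < |q| := by
  constructor
  · rintro rfl; exact h0 (by rw [← hv, mul_zero])
  · rw [← hv, abs_mul, ← sq_abs, pow_two] at h1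
    exact lt_of_mul_lt_mul_left h1 (abs_nonneg q)

namespace T1

variable {h e : Fin 4 → ℤ × ℤ} {p : Fin 4 → ℤ}

lemma min_contra (T : T1 h e p) (hp : ∀ k, 0 < p k)
    (hx0 : 1 ≤ detZ (h 0) (h 2)) (hy0 : 1 ≤ detZ (h 1) (h 3))
    (n1 : p 0 ^ 2 ≤ p 1 ^ 2 + detZ (h 1) (h 3))
    (n1' : p 0 ^ 2 ≤ detZ (h 0) (h 2) + p 3 ^ 2)
    (n2 : p 2 ^ 2 = detZ (h 0) (h 2) ∨ p 1 ^ 2 ≤ |p 2 ^ 2 - detZ (h 0) (h 2)|)
    (n2' : p 1 ^ 2 ≤ detZ (h 1) (h 3) + p 0 ^ 2)
    (n3 : p 3 ^ 2 = detZ (h 1) (h 3) ∨ p 2 ^ 2 ≤ |p 3 ^ 2 - detZ (h 1) (h 3)|)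
    (n3' : p 1 ^ 2 = detZ (h 0) (h 2) ∨ p 2 ^ 2 ≤ |p 1 ^ 2 - detZ (h 0) (h 2)|)
    (n4 : p 3 ^ 2 ≤ p 0 ^ 2 + detZ (h 0) (h 2))
    (n4' : p 2 ^ 2 = detZ (h 1) (h 3) ∨ p 3 ^ 2 ≤ |p 2 ^ 2 - detZ (h 1) (h 3)|) : False := by
  rcases le_or_gt (p 1 ^ 2) (detZ (h 0) (h 2)) with hxb | hxb
  · exact T.min_case3 hp hxb hy0 n1 n2' n3 n4 n4'
  rcases le_or_gt (p 3 ^ 2) (detZ (h 1) (h 3)) with hyd | hyd
  · have q0 : (-0 : Fin 4) = 0 := rfl
    have q1 : (-1 : Fin 4) = 3 := rfl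
    have q2 : (-2 : Fin 4) = 2 := rfl
    have q3 : (-3 : Fin 4) = 1 := rfl
    have s0 : (3 - 0 : Fin 4) = 3 := rfl
    have s1 : (3 - 1 : Fin 4) = 2 := rfl
    have s2 : (3 - 2 : Fin 4) = 1 := rfl
    have s3 : (3 - 3 : Fin 4) = 0 := rfl
    have hx' : detZ (-refl (h 3)) (-refl (h 1)) = detZ (h 1) (h 3) := by
      rw [detZ_neg_left, detZ_neg_right, detZ_refl, detZ_swap (h 3) (h 1)]; ring
    have hy' : detZ (-refl (h 2)) (-refl (h 0)) = detZ (h 0) (h 2) := by
      rw [detZ_neg_left, detZ_neg_right, detZ_refl, detZ_swap (h 2) (h 0)]; ring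
    refine T.reflT.min_case3 (fun k => hp _) ?_ ?_ ?_ ?_ ?_ ?_ ?_ <;>
      simp only [q0, q1, q2, q3, s0, s1, s2, s3, hx', hy']
    · exact hyd
    · exact hx0
    · linarith
    · linarith
    · exact n3'
    · linarith
    · exact n2
  · exact T.min_case2 hp hx0 hy0 hxb hyd n2 n3 n3' n4'

/-- existence of a simplifying algebraic mutation, normalised -/
lemma opt_normal (T : T1 h e p) (hp : ∀ k, 0 < p k)
    (hx : 0 ≤ detZ (h 0) (h 2)) (hy : 0 ≤ detZ (h 1) (h 3))
    (hone : ¬ (p 0 ^ 2 = 1 ∧ p 1 ^ 2 = 1 ∧ p 2 ^ 2 = 1 ∧ p 3 ^ 2 = 1)) : Opt h e p := by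
  have hx1 : 1 ≤ detZ (h 0) (h 2) := by
    rcases hx.lt_or_eq with h' | h'
    · exact h'
    · exact absurd (T.one_of_x_zero h'.symm) hone
  have hy1 : 1 ≤ detZ (h 1) (h 3) := by
    rcases hy.lt_or_eq with h' | h'
    · exact h'
    · exact absurd (T.one_of_y_zero h'.symm) hone
  by_contra hcon
  unfold Opt at hcon
  push Not at hcon
  have i0 := hcon 0
  have i1 := hcon 1
  have i2 := hcon 2
  have i3 := hcon 3
  simp only [Fin.isValue, zero_add, Fin.reduceAdd] at i0 i1 i2 i3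
  have sq0 := sq_nonneg (p 0); have sq1 := sq_nonneg (p 1)
  have sq2 := sq_nonneg (p 2); have sq3 := sq_nonneg (p 3)
  have gen : ∀ (i j : Fin 4) (v : ℤ), p i * detZ (e i) (h j) = v →
      (detZ (e i) (h j) ≠ 0 → |p i| ≤ |detZ (e i) (h j)|) → v = 0 ∨ p i ^ 2 ≤ |v| := by
    intro i j v hv hh
    by_contra hc
    push Not at hc
    obtain ⟨r1, r2⟩ := opt_of (T.pne i) hv hc.1 hc.2
    exact absurd (hh r1) (not_le.mpr r2)
  apply T.min_contra hp hx1 hy1
  · rcases gen 0 1 _ T.PL0 i0.1 with h' | h'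
    · linarith
    · rwa [abs_of_pos (by linarith)] at h'
  · rcases gen 0 2 _ T.PR0 i0.2 with h' | h'
    · linarith
    · rwa [abs_of_pos (by linarith)] at h'
  · rcases gen 1 2 _ T.PL1 i1.1 with h' | h'
    · left; linarith
    · exact Or.inr h'
  · rcases gen 1 3 _ T.PR1 i1.2 with h' | h'
    · linarith
    · rwa [abs_of_pos (by linarith)] at h'
  · rcases gen 2 3 _ T.PL2 i2.1 with h' | h'
    · left; linarith
    · exact Or.inr h'
  · rcases gen 2 0 _ T.PR2 i2.2 with h' | h'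
    · left; linarith
    · exact Or.inr h'
  · rcases gen 3 0 _ T.PL3 i3.1 with h' | h'
    · linarith
    · rwa [abs_of_pos (by linarith)] at h'
  · rcases gen 3 1 _ T.PR3 i3.2 with h' | h'
    · left; linarith
    · exact Or.inr h'

lemma opt_abs (h e : Fin 4 → ℤ × ℤ) (p : Fin 4 → ℤ) (hp : ∀ k, p k ≠ 0)
    (H : Opt h (fun k => (p k).sign • e k) (fun k => |p k|)) : Opt h e p := by
  obtain ⟨i, hi⟩ := H
  refine ⟨i, ?_⟩
  have hs : |(p i).sign| = 1 := by
    rcases lt_or_gt_of_ne (hp i) with hk | hk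
    · rw [Int.sign_eq_neg_one_of_neg hk]; norm_num
    · rw [Int.sign_eq_one_of_pos hk]; norm_num
  have hs0 : (p i).sign ≠ 0 := by
    intro h0; rw [h0] at hs; norm_num at hs
  simp only [detZ_smul_left, abs_mul, hs, one_mul, abs_abs] at hi
  rcases hi with ⟨h1, h2⟩ | ⟨h1, h2⟩
  · left; exact ⟨fun h0 => h1 (by rw [h0, mul_zero]), h2⟩
  · right; exact ⟨fun h0 => h1 (by rw [h0, mul_zero]), h2⟩

lemma opt_general (T : T1 h e p)
    (hone : ¬ (∀ k, p k ^ 2 = 1)) : Opt h e p := by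
  apply opt_abs h e p T.pne
  have T' := T.absT
  have hp' : ∀ k, 0 < (fun k => |p k|) k := fun k => abs_pos.mpr (T.pne k)
  have hone' : ¬ (∀ k, ((fun k => |p k|) k) ^ 2 = 1) := by simpa using hone
  revert T' hp' hone'
  generalize (fun k => (p k).sign • e k) = e'
  generalize (fun k => |p k|) = p'
  intro T' hp' hone'
  -- rotation
  have red : ∀ (p : Fin 4 → ℤ), ¬ (∀ k, p k ^ 2 = 1) →
      ¬ (p 0 ^ 2 = 1 ∧ p 1 ^ 2 = 1 ∧ p 2 ^ 2 = 1 ∧ p 3 ^ 2 = 1) := by
    intro p hh hcon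
    apply hh
    intro k
    fin_cases k
    · exact hcon.1
    · exact hcon.2.1
    · exact hcon.2.2.1
    · exact hcon.2.2.2
  have redr : ∀ (p : Fin 4 → ℤ), ¬ (∀ k, p k ^ 2 = 1) → ¬ (∀ k, p (k + 1) ^ 2 = 1) := by
    intro p hh hcon
    apply hh
    intro k
    have := hcon (k - 1)
    rwa [sub_add_cancel] at this
  rcases le_or_gt 0 (detZ (h 0) (h 2)) with hx | hx
  · rcases le_or_gt 0 (detZ (h 1) (h 3)) with hy | hy
    · exact T'.opt_normal hp' hx hy (red _ hone')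
    · -- rotate three times
      apply opt_rot
      apply opt_rot
      apply opt_rot
      refine T'.rot.rot.rot.opt_normal (fun k => hp' _) ?_ ?_
        (red _ (redr _ (redr _ (redr _ hone'))))
      · simp only [Fin.isValue, zero_add, Fin.reduceAdd]
        rw [detZ_swap]; linarith
      · simp only [Fin.isValue, Fin.reduceAdd]
        linarith
  · rcases le_or_gt 0 (detZ (h 1) (h 3)) with hy | hy
    · apply opt_rot
      refine T'.rot.opt_normal (fun k => hp' _) ?_ ?_ (red _ (redr _ hone'))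
      · simp only [Fin.isValue, zero_add, Fin.reduceAdd]
        linarith
      · simp only [Fin.isValue, Fin.reduceAdd]
        rw [detZ_swap]; linarith
    · apply opt_rot
      apply opt_rot
      refine T'.rot.rot.opt_normal (fun k => hp' _) ?_ ?_ (red _ (redr _ (redr _ hone')))
      · simp only [Fin.isValue, zero_add, Fin.reduceAdd]
        rw [detZ_swap]; linarith
      · simp only [Fin.isValue, Fin.reduceAdd]
        rw [detZ_swap]; linarith

/-- total weight -/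
def wt (p : Fin 4 → ℤ) : ℕ := ∑ k, (p k).natAbs

lemma wt_rotBy (p : Fin 4 → ℤ) (i : Fin 4) : wt (fun k => p (k + i)) = wt p := by
  unfold wt
  exact Equiv.sum_comp (Equiv.addRight i) (fun k => (p k).natAbs)

lemma noether_zero_aux : ∀ (n : ℕ) (h e : Fin 4 → ℤ × ℤ) (p : Fin 4 → ℤ), T1 h e p → wt p = n →
      noeth h p = 0 := by
  intro n
  induction n using Nat.strong_induction_on with
  | _ n ih =>
  intro h e p T hn
  by_cases hone : ∀ k, p k ^ 2 = 1
  · unfold noeth noether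
    rw [hone 0, hone 1, hone 2, hone 3]
    ring
  · obtain ⟨i, hi⟩ := T.opt_general hone
    have T' := T.rotBy i
    rw [← noeth_rotBy h p i]
    have hwt := wt_rotBy p i
    have hne : ((fun k => p (k + i)) 0 ^ 2 : ℤ) ≠ 0 := pow_ne_zero 2 (T'.pne 0)
    rcases hi with ⟨h1, h2⟩ | ⟨h1, h2⟩
    · rw [show i + 1 = 1 + i by abel] at h1 h2
      have h1' : detZ ((fun k => e (k + i)) 0) ((fun k => h (k + i)) 1) ≠ 0 := by
        simpa using h1
      have hlt : wt (Lp (fun k => h (k + i)) (fun k => e (k + i)) (fun k => p (k + i))) < n := by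
        rw [← hn, ← hwt]
        unfold wt
        rw [Fin.sum_univ_four, Fin.sum_univ_four]
        simp only [Lp, Matrix.cons_val_zero, Matrix.cons_val_one, Matrix.cons_val]
        simp only [zero_add]
        have : (detZ (e i) (h (1 + i))).natAbs < (p i).natAbs := by
          zify; exact h2
        omega
      have := ih _ hlt _ _ _ (T'.L h1') rfl
      have key := T'.noeth_L
      rw [this, mul_zero] at key
      exact (mul_eq_zero.mp key.symm).resolve_left (pow_ne_zero 2 h1')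
    · rw [show i + 2 = 2 + i by abel] at h1 h2
      have h1' : detZ ((fun k => e (k + i)) 0) ((fun k => h (k + i)) 2) ≠ 0 := by
        simpa using h1
      have hlt : wt (Rp (fun k => h (k + i)) (fun k => e (k + i)) (fun k => p (k + i))) < n := by
        rw [← hn, ← hwt]
        unfold wt
        rw [Fin.sum_univ_four, Fin.sum_univ_four]
        simp only [Rp, Matrix.cons_val_zero, Matrix.cons_val_one, Matrix.cons_val]
        simp only [zero_add]
        have : (detZ (e i) (h (2 + i))).natAbs < (p i).natAbs := by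
          zify; exact h2
        omega
      have := ih _ hlt _ _ _ (T'.R h1') rfl
      have key := T'.noeth_R
      rw [this, mul_zero] at key
      exact (mul_eq_zero.mp key.symm).resolve_left (pow_ne_zero 2 h1')

/-- Noether's formula (Markov type equation) for T1 data. -/
theorem noether_zero (T : T1 h e p) : noeth h p = 0 := noether_zero_aux _ h e p T rfl

end T1

end Pool.Agent.MP_fafc5c_gt
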