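import Pool.Agent.MP_fafc5c_gt.Back

set_option autoImplicit false
set_option linter.unusedVariables false

namespace Pool.Agent.MP_fafc5c_gt

open MeasureTheory

/-- paths through diagrams without crossing cuts -/
abbrev NCPath (D D' : Diagram) : Prop :=
  Relation.ReflTransGen StepNC D D'

/-- `G` is reached from `R_{a,b}`, up to an orientation preserving integral affine map -/
def Reach (a b : ℝ) (G : GQuad) : Prop :=
  ∃ (T : SAff) (D₀ D : Diagram) (σ : Equiv.Perm (Fin 4)), IsInitial a b (T.act D₀) ∧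
    NonCrossing D₀ ∧ NCPath D₀ D ∧ Models D G σ ∧ NonCrossing D

lemma reach_L {a b : ℝ} {G : GQuad} (C : G.LC) (H : Reach a b (GQuad.Lmove C)) :
    Reach a b G := by
  obtain ⟨T, D₀, D₁, σ₁, h0, hn, hp, M₁, hn₁⟩ := H
  obtain ⟨D, D', M, M', hD, hD', hc⟩ := realise_L C (Models.permL.symm.trans σ₁)
  have e : Models.permL.trans (Models.permL.symm.trans σ₁) = σ₁ := by
    ext k; simp
  rw [e] at M'
  exact ⟨T, D₀, D, _, h0, hn, (hp.trans (M₁.slide_path M' hn₁ hD')).tail
    ⟨hD', hD, Or.inr ⟨_, Or.inr hc⟩⟩, M, hD⟩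

lemma reach_R {a b : ℝ} {G : GQuad} (C : G.RC) (H : Reach a b (GQuad.Rmove C)) :
    Reach a b G := by
  obtain ⟨T, D₀, D₁, σ₁, h0, hn, hp, M₁, hn₁⟩ := H
  obtain ⟨D, D', M, M', hD, hD', hc⟩ := realise_R C (Models.permR.symm.trans σ₁)
  have e : Models.permR.trans (Models.permR.symm.trans σ₁) = σ₁ := by
    ext k; simp
  rw [e] at M'
  exact ⟨T, D₀, D, _, h0, hn, (hp.trans (M₁.slide_path M' hn₁ hD')).tail
    ⟨hD', hD, Or.inr ⟨_, Or.inr hc⟩⟩, M, hD⟩

lemma Models.unrot {D : Diagram} {G : GQuad} {i : Fin 4} {σ : Equiv.Perm (Fin 4)}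
    (M : Models D (G.rotBy i) σ) : Models D G ((Equiv.subRight i).trans σ) where
  region := by rw [M.region, G.region_rotBy]
  dir k := by
    have := M.dir (k - i)
    have e : (G.rotBy i).e (k - i) = G.e k := by
      show G.e (k - i + i) = _
      rw [sub_add_cancel]
    rw [e] at this
    exact this
  pos k := by
    obtain ⟨s, hs, hpos⟩ := M.pos (k - i)
    have e : (G.rotBy i).e (k - i) = G.e k := by
      show G.e (k - i + i) = _
      rw [sub_add_cancel]
    have e' : (G.rotBy i).v (k - i) = G.v k := by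
      show G.v (k - i + i) = _
      rw [sub_add_cancel]
    rw [e, e'] at hpos
    exact ⟨s, hs, hpos⟩
  int k := by
    have := M.int (k - i)
    rw [G.region_rotBy] at this
    exact this

lemma reach_rot {a b : ℝ} {G : GQuad} {i : Fin 4} (H : Reach a b (G.rotBy i)) : Reach a b G := by
  obtain ⟨T, D₀, D, σ, h0, hn, hp, M, hn'⟩ := H
  exact ⟨T, D₀, D, _, h0, hn, hp, M.unrot, hn'⟩

/-- the edge directions of `R_{a,b}` -/
def stdh : Fin 4 → ℤ × ℤ := ![(1, 0), (0, 1), (-1, 0), (0, -1)]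

lemma region_std {G : GQuad} {a b : ℝ} (hh : ∀ k, G.h k = stdh k) (hv : ∀ k, G.v k = corner a b k) :
    G.region = Set.Icc 0 a ×ˢ Set.Icc 0 b := by
  have l0 : ∀ u, G.lam 0 u = u.2 := by
    intro u
    rw [GQuad.lam, hh, hv]; simp [stdh, corner, det2, toR]
  have l1 : ∀ u, G.lam 1 u = a - u.1 := by
    intro u
    rw [GQuad.lam, hh, hv]; simp [stdh, corner, det2, toR]
  have l2 : ∀ u, G.lam 2 u = b - u.2 := by
    intro u
    rw [GQuad.lam, hh, hv]; simp [stdh, corner, det2, toR]
  have l3 : ∀ u, G.lam 3 u = u.1 := by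
    intro u
    rw [GQuad.lam, hh, hv]; simp [stdh, corner, det2, toR]
  ext u
  rw [GQuad.mem_region_iff, l0, l1, l2, l3]
  simp only [Set.mem_prod, Set.mem_Icc]
  constructor
  · rintro ⟨h0, h1, h2, h3⟩
    exact ⟨⟨h3, by linarith⟩, ⟨h0, by linarith⟩⟩
  · rintro ⟨⟨h0, h1⟩, ⟨h2, h3⟩⟩
    exact ⟨h2, by linarith, by linarith, h0⟩

lemma isInitial_of_models {G : GQuad} {a b : ℝ} {D : Diagram} {σ : Equiv.Perm (Fin 4)}
    (hh : ∀ k, G.h k = stdh k) (he : ∀ k, G.e k = diag k) (hv : ∀ k, G.v k = corner a b k)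
    (M : Models D G σ) : IsInitial a b D := by
  refine ⟨M.region.trans (region_std hh hv), σ, fun k => ⟨?_, ?_, ?_⟩⟩
  · rw [M.dir, he]
  · rw [M.region]; exact M.int k
  · obtain ⟨s, hs, hpos⟩ := M.pos k
    rw [he, hv] at hpos
    exact ⟨s, hs, hpos⟩

/-- `R_{a,b}` as a generalised quadrilateral -/
def rectG (a b : ℝ) (ha : 0 < a) (hb : 0 < b) : GQuad where
  h := stdh
  e := diag
  p := fun _ => 1
  v := corner a b
  l := ![a, b, a, b]
  T := {
    hprim := by
      intro k
      fin_cases k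
      · exact isCoprime_one_left
      · exact isCoprime_one_right
      · exact isCoprime_one_left.neg_left
      · exact isCoprime_one_right.neg_right
    eprim := by
      intro k
      fin_cases k
      · exact isCoprime_one_left
      · exact isCoprime_one_left.neg_left
      · exact isCoprime_one_left.neg_left.neg_right
      · exact isCoprime_one_left.neg_right
    pne := fun _ => one_ne_zero
    hdiff := by decide
    hdet := by decide }
  ppos := fun _ => one_pos
  lnn := by
    intro k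
    fin_cases k
    · exact ha.le
    · exact hb.le
    · exact ha.le
    · exact hb.le
  hv := by
    intro k
    fin_cases k
    · show ((a, 0) : ℝ × ℝ) = (0, 0) + a • toR (1, 0)
      ext <;> simp [toR]
    · show ((a, b) : ℝ × ℝ) = (a, 0) + b • toR (0, 1)
      ext <;> simp [toR]
    · show ((0, b) : ℝ × ℝ) = (a, b) + a • toR (-1, 0)
      ext <;> simp [toR]
    · show ((0, 0) : ℝ × ℝ) = (0, b) + b • toR (0, -1)
      ext <;> simp [toR]
  hk := by
    intro k hl
    exfalso
    fin_cases k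
    · exact ha.ne' hl
    · exact hb.ne' hl
    · exact ha.ne' hl
    · exact hb.ne' hl
  hone := by
    intro j k hj hk
    exfalso
    fin_cases j
    · exact ha.ne' hj
    · exact hb.ne' hj
    · exact ha.ne' hj
    · exact hb.ne' hj
  even := by decide

lemma models_of_initial {a b : ℝ} (ha : 0 < a) (hb : 0 < b) {D : Diagram} (H : IsInitial a b D) :
    ∃ σ, Models D (rectG a b ha hb) σ := by
  obtain ⟨hr, σ, hσ⟩ := H
  have hreg : D.region = (rectG a b ha hb).region :=
    hr.trans (region_std (fun _ => rfl) (fun _ => rfl)).symm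
  refine ⟨σ, hreg, fun k => (hσ k).1, fun k => ?_, fun k => ?_⟩
  · obtain ⟨s, hs, h⟩ := (hσ k).2.2
    exact ⟨s, hs, h⟩
  · rw [← hreg]; exact (hσ k).2.1

lemma per_rectG {a b : ℝ} (ha : 0 < a) (hb : 0 < b) : (rectG a b ha hb).per = 2 * (a + b) := by
  rw [GQuad.per, Fin.sum_univ_four]
  show a + b + a + b = _
  ring

lemma volume_rectG {a b : ℝ} (ha : 0 < a) (hb : 0 < b) :
    volume (rectG a b ha hb).region = ENNReal.ofReal (a * b) := by
  rw [region_std (G := rectG a b ha hb) (fun _ => rfl) (fun _ => rfl), volume_rect a b ha]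

/-- all weights `1` and both `x`, `y` zero -/
structure IsPara (G : GQuad) : Prop where
  p : ∀ k, G.p k = 1
  x : detZ (G.h 0) (G.h 2) = 0
  y : detZ (G.h 1) (G.h 3) = 0

namespace IsPara

variable {G : GQuad} (P : IsPara G)

include P

lemma h2 : G.h 2 = -G.h 0 := by
  rcases parallel_prim (G.T.hprim 0) (G.T.hprim 2) P.x with h | h
  · exfalso
    have h1 := G.T.d01
    have h2 := G.T.d12
    rw [h, detZ_swap, h1, P.p 1, P.p 2] at h2
    norm_num at h2
  · exact h

lemma h3 : G.h 3 = -G.h 1 := by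
  rcases parallel_prim (G.T.hprim 1) (G.T.hprim 3) P.y with h | h
  · exfalso
    have h1 := G.T.d12
    have h2 := G.T.d23
    rw [h, detZ_swap, h1, P.p 2, P.p 3] at h2
    norm_num at h2
  · exact h

lemma l2 : G.l 2 = G.l 0 := by
  have h := G.close1
  rw [P.y, P.p 1, P.p 2] at h
  push_cast at h
  linarith

lemma l3 : G.l 3 = G.l 1 := by
  have h := G.close2
  rw [P.x, P.p 3, P.p 2] at h
  push_cast at h
  linarith

lemma e0 : G.e 0 = G.h 0 + G.h 1 := by
  have := G.T.h0
  rw [P.p 0, one_smul, P.h3, sub_neg_eq_add] at this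
  exact this
lemma e1 : G.e 1 = G.h 1 - G.h 0 := by
  have := G.T.h1
  rw [P.p 1, one_smul] at this
  exact this
lemma e2 : G.e 2 = -G.h 0 - G.h 1 := by
  have := G.T.h2
  rw [P.p 2, one_smul, P.h2] at this
  exact this
lemma e3 : G.e 3 = -G.h 1 + G.h 0 := by
  have := G.T.h3
  rw [P.p 3, one_smul, P.h2, P.h3, sub_neg_eq_add] at this
  exact this

omit P in
/-- the map from the rectangle -/
def S (G : GQuad) (hd : detZ (G.h 0) (G.h 1) = 1) : SAff where
  a := (G.h 0).1
  b := (G.h 0).2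
  c := (G.h 1).1
  d := (G.h 1).2
  det := by rw [← hd, detZ]
  t := G.v 0

lemma hd : detZ (G.h 0) (G.h 1) = 1 := by rw [G.T.d01, P.p 1]; norm_num

omit P in
lemma S_lin (hd : detZ (G.h 0) (G.h 1) = 1) (u : ℤ × ℤ) :
    (S G hd).linZ u = u.1 • G.h 0 + u.2 • G.h 1 := by
  ext <;> simp [S, SAff.linZ]

omit P in
lemma S_map (hd : detZ (G.h 0) (G.h 1) = 1) (u : ℝ × ℝ) :
    (S G hd).map u = u.1 • toR (G.h 0) + u.2 • toR (G.h 1) + G.v 0 := by
  ext <;> simp [S, SAff.map, SAff.lin, toR]

lemma inv_h (k : Fin 4) : ((S G P.hd).inv.actG G).h k = stdh k := by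
  show (S G P.hd).inv.linZ (G.h k) = stdh k
  have : G.h k = (S G P.hd).linZ (stdh k) := by
    rw [S_lin]
    fin_cases k
    · simp [stdh]
    · simp [stdh]
    · simp [stdh, P.h2]
    · simp [stdh, P.h3]
  rw [this, SAff.inv_linZ_linZ]

lemma inv_e (k : Fin 4) : ((S G P.hd).inv.actG G).e k = diag k := by
  show (S G P.hd).inv.linZ (G.e k) = diag k
  have : G.e k = (S G P.hd).linZ (diag k) := by
    rw [S_lin]
    fin_cases k
    · simp [diag, P.e0]
    · simp [diag, P.e1]; abel
    · simp [diag, P.e2]; abel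
    · simp [diag, P.e3]; abel
  rw [this, SAff.inv_linZ_linZ]

lemma inv_v (k : Fin 4) : ((S G P.hd).inv.actG G).v k = corner (G.l 0) (G.l 1) k := by
  show (S G P.hd).inv.map (G.v k) = corner (G.l 0) (G.l 1) k
  have : G.v k = (S G P.hd).map (corner (G.l 0) (G.l 1) k) := by
    rw [S_map]
    have v1 := G.v1
    have v2 := G.v2
    have v0 := G.v0
    rw [P.l3, P.h3, toR_neg] at v0
    fin_cases k
    · simp [corner]
    · show G.v 1 = G.l 0 • toR (G.h 0) + (0:ℝ) • toR (G.h 1) + G.v 0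
      rw [v1]; simp [add_comm]
    · show G.v 2 = G.l 0 • toR (G.h 0) + G.l 1 • toR (G.h 1) + G.v 0
      rw [v2, v1]; abel
    · show G.v 3 = (0:ℝ) • toR (G.h 0) + G.l 1 • toR (G.h 1) + G.v 0
      rw [v0]; simp
  rw [this, SAff.inv_map_map]

lemma reach : Reach (G.l 0) (G.l 1) G := by
  obtain ⟨s, hs⟩ := G.ev_small.exists
  have M := G.models_mk' (Equiv.refl _) hs
  have hn : NonCrossing (G.mk' (Equiv.refl _) s) :=
    M.nonCrossing_of_small hs (fun k _ => by rw [G.mk'_node])
  exact ⟨(S G P.hd).inv, _, _, _,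
    isInitial_of_models P.inv_h P.inv_e P.inv_v ((S G P.hd).inv.models_act M), hn,
    Relation.ReflTransGen.refl, M, hn⟩

lemma volume_eq : volume G.region = ENNReal.ofReal (G.l 0 * G.l 1) := by
  rw [← SAff.volume_image (S G P.hd).inv, ← SAff.region_actG, region_std P.inv_h P.inv_v]
  rcases (G.lnn 0).lt_or_eq with h | h
  · exact volume_rect _ _ h
  · have := P.l2
    exact absurd (G.hone 0 2 h.symm (this.trans h.symm)) (by decide)

lemma rot : IsPara (G.rotBy 1) where
  p k := P.p _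
  x := by show detZ (G.h (0 + 1)) (G.h (2 + 1)) = 0; exact P.y
  y := by
    show detZ (G.h (1 + 1)) (G.h (3 + 1)) = 0
    have : detZ (G.h 2) (G.h 0) = 0 := by rw [detZ_swap, P.x, neg_zero]
    exact this

/-- the rectangle is determined by area and perimeter -/
lemma reach' {a b : ℝ} (ha : 0 < a) (hb : 0 < b) (hper : G.per = 2 * (a + b))
    (hvol : volume G.region = ENNReal.ofReal (a * b)) : Reach a b G := by
  rw [GQuad.per, Fin.sum_univ_four, P.l2, P.l3] at hper
  rw [P.volume_eq, ENNReal.ofReal_eq_ofReal_iff (mul_nonneg (G.lnn 0) (G.lnn 1))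
    (mul_nonneg ha.le hb.le)] at hvol
  have h1 : G.l 0 + G.l 1 = a + b := by linarith
  have h2 : (G.l 0 - a) * (G.l 0 - b) = 0 := by
    have : G.l 0 * (a + b) = G.l 0 * (G.l 0 + G.l 1) := by rw [h1]
    linarith
  rcases mul_eq_zero.mp h2 with h | h
  · have e0 : G.l 0 = a := by linarith
    have e1 : G.l 1 = b := by linarith
    rw [← e0, ← e1]; exact P.reach
  · have e0 : G.l 0 = b := by linarith
    have e1 : G.l 1 = a := by linarith
    apply reach_rot (i := 1)
    have := P.rot.reach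
    have f0 : (G.rotBy 1).l 0 = a := e1
    have f1 : (G.rotBy 1).l 1 = b := by
      show G.l (1 + 1) = b
      have : G.l 2 = b := P.l2.trans e0
      exact this
    rwa [f0, f1] at this

end IsPara

end Pool.Agent.MP_fafc5c_gt
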