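import Pool.Agent.MP_fafc5c_gt.Hull

set_option autoImplicit false
set_option linter.unusedVariables false

namespace Pool.Agent.MP_fafc5c_gt

open Filter Topology

lemma ev_pos {A B : ℝ} (h : 0 < A ∨ (A = 0 ∧ 0 < B)) : ∀ᶠ s in 𝓝[>] (0:ℝ), 0 < A + s * B := by
  rcases h with h | ⟨rfl, h⟩
  · have hc : Tendsto (fun s : ℝ => A + s * B) (𝓝 0) (𝓝 (A + 0 * B)) := by
      apply Continuous.tendsto
      fun_prop
    rw [zero_mul, add_zero] at hc
    exact (hc.eventually (lt_mem_nhds h)).filter_mono nhdsWithin_le_nhds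
  · filter_upwards [self_mem_nhdsWithin] with s hs
    rw [zero_add]
    exact mul_pos hs h

namespace GQuad

variable (G : GQuad)

/-- smallness of a node parameter -/
structure Small (s : ℝ) : Prop where
  pos : 0 < s
  int : ∀ k, G.v k + s • toR (G.e k) ∈ interior G.region
  apart : ∀ j k, G.v j ≠ G.v k → ∀ r r', 0 ≤ r → r ≤ s → 0 ≤ r' → r' ≤ s →
    G.v j + r • toR (G.e j) ≠ G.v k + r' • toR (G.e k)
  sneg : ∀ k, G.g (G.v k) < 0 → ∀ r, 0 ≤ r → r ≤ s → G.g (G.v k + r • toR (G.e k)) < 0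
  spos : ∀ k, 0 < G.g (G.v k) → ∀ r, 0 ≤ r → r ≤ s → 0 < G.g (G.v k + r • toR (G.e k))

lemma int_of_pos {u : ℝ × ℝ} (h : ∀ k, 0 < G.lam k u) : u ∈ interior G.region := by
  have hopen : IsOpen (⋂ k, {w | 0 < G.lam k w}) :=
    isOpen_iInter_of_finite fun k => isOpen_lt continuous_const (continuous_det2_right _ _)
  refine interior_maximal ?_ hopen ?_
  · intro w hw k
    exact le_of_lt (Set.mem_iInter.mp hw k)
  · exact Set.mem_iInter.mpr h

lemma ev_int0 : ∀ᶠ s in 𝓝[>] (0:ℝ), G.v 0 + s • toR (G.e 0) ∈ interior G.region := by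
  have hl : ∀ k s, G.lam k (G.v 0 + s • toR (G.e 0)) =
      G.lam k (G.v 0) + s * det2 (toR (G.h k)) (toR (G.e 0)) := by
    intro k s
    have : G.v 0 + s • toR (G.e 0) - G.v k = (G.v 0 - G.v k) + s • toR (G.e 0) := by abel
    rw [lam, this, det2_add_right, det2_smul_right]; rfl
  have h0 := ev_pos (A := G.lam 0 (G.v 0)) (B := det2 (toR (G.h 0)) (toR (G.e 0)))
    (Or.inr ⟨G.lam_v_self 0, by rw [G.DE0]; exact G.p0R⟩)
  have h3 := ev_pos (A := G.lam 3 (G.v 0)) (B := det2 (toR (G.h 3)) (toR (G.e 0)))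
    (Or.inr ⟨by simpa using G.lam_v_one 3, by rw [G.DE3]; exact G.p0R⟩)
  have h1 := ev_pos (A := G.lam 1 (G.v 0)) (B := det2 (toR (G.h 1)) (toR (G.e 0))) (by
    rw [G.lam1_v0, G.DE1]
    rcases (G.lnn 0).lt_or_eq with h | h
    · left; have := G.p1R; positivity
    · right
      refine ⟨by rw [← h, zero_mul], ?_⟩
      have : ((detZ (G.e 0) (G.h 1) : ℤ) : ℝ) < 0 := by exact_mod_cast G.P1_neg h.symm
      linarith)
  have h2 := ev_pos (A := G.lam 2 (G.v 0)) (B := det2 (toR (G.h 2)) (toR (G.e 0))) (by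
    rw [G.lam2_v0, G.DE2]
    rcases (G.lnn 3).lt_or_eq with h | h
    · left; have := G.p3R; positivity
    · right
      refine ⟨by rw [← h, zero_mul], ?_⟩
      have : ((detZ (G.e 0) (G.h 2) : ℤ) : ℝ) < 0 := by exact_mod_cast G.P2_neg h.symm
      linarith)
  filter_upwards [h0, h1, h2, h3] with s g0 g1 g2 g3
  apply G.int_of_pos
  intro k
  rw [hl]
  fin_cases k
  · exact g0
  · exact g1
  · exact g2
  · exact g3

lemma ev_int (k : Fin 4) : ∀ᶠ s in 𝓝[>] (0:ℝ), G.v k + s • toR (G.e k) ∈ interior G.region := by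
  have := (G.rotBy k).ev_int0
  rw [region_rotBy] at this
  have e1 : (G.rotBy k).v 0 = G.v k := by show G.v (0 + k) = _; rw [zero_add]
  have e2 : (G.rotBy k).e 0 = G.e k := by show G.e (0 + k) = _; rw [zero_add]
  rwa [e1, e2] at this

lemma ev_apart (j k : Fin 4) (hne : G.v j ≠ G.v k) : ∀ᶠ s in 𝓝[>] (0:ℝ),
    ∀ r r', 0 ≤ r → r ≤ s → 0 ≤ r' → r' ≤ s →
    G.v j + r • toR (G.e j) ≠ G.v k + r' • toR (G.e k) := by
  have hd : 0 < ‖G.v j - G.v k‖ := norm_pos_iff.mpr (sub_ne_zero.mpr hne)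
  have h := ev_pos (A := ‖G.v j - G.v k‖) (B := -(‖toR (G.e j)‖ + ‖toR (G.e k)‖)) (Or.inl hd)
  filter_upwards [h] with s hs r r' hr0 hr hr0' hr' heq
  have e1 : G.v j - G.v k = r' • toR (G.e k) - r • toR (G.e j) := by
    have : G.v j = G.v k + r' • toR (G.e k) - r • toR (G.e j) := by rw [← heq]; abel
    rw [this]; abel
  have e2 : ‖G.v j - G.v k‖ ≤ r' * ‖toR (G.e k)‖ + r * ‖toR (G.e j)‖ := by
    rw [e1]
    refine (norm_sub_le _ _).trans ?_
    rw [norm_smul, norm_smul, Real.norm_of_nonneg hr0, Real.norm_of_nonneg hr0']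
  have e3 := mul_le_mul_of_nonneg_right hr' (norm_nonneg (toR (G.e k)))
  have e4 := mul_le_mul_of_nonneg_right hr (norm_nonneg (toR (G.e j)))
  linarith

lemma ev_sneg (k : Fin 4) (h : G.g (G.v k) < 0) : ∀ᶠ s in 𝓝[>] (0:ℝ),
    ∀ r, 0 ≤ r → r ≤ s → G.g (G.v k + r • toR (G.e k)) < 0 := by
  have h := ev_pos (A := -G.g (G.v k)) (B := -|(detZ (G.e 0) (G.e k) : ℝ)|)
    (Or.inl (by linarith))
  filter_upwards [h] with s hs r hr0 hr
  rw [G.g_ray]
  have e1 := mul_le_mul_of_nonneg_left (le_abs_self (detZ (G.e 0) (G.e k) : ℝ)) hr0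
  have e2 := mul_le_mul_of_nonneg_right hr (abs_nonneg (detZ (G.e 0) (G.e k) : ℝ))
  linarith

lemma ev_spos (k : Fin 4) (h : 0 < G.g (G.v k)) : ∀ᶠ s in 𝓝[>] (0:ℝ),
    ∀ r, 0 ≤ r → r ≤ s → 0 < G.g (G.v k + r • toR (G.e k)) := by
  have h := ev_pos (A := G.g (G.v k)) (B := -|(detZ (G.e 0) (G.e k) : ℝ)|) (Or.inl h)
  filter_upwards [h] with s hs r hr0 hr
  rw [G.g_ray]
  have e1 := mul_le_mul_of_nonneg_left (neg_abs_le (detZ (G.e 0) (G.e k) : ℝ)) hr0
  have e2 := mul_le_mul_of_nonneg_right hr (abs_nonneg (detZ (G.e 0) (G.e k) : ℝ))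
  linarith

lemma ev_small : ∀ᶠ s in 𝓝[>] (0:ℝ), G.Small s := by
  have h1 : ∀ᶠ s in 𝓝[>] (0:ℝ), (0:ℝ) < s := self_mem_nhdsWithin
  have h2 : ∀ᶠ s in 𝓝[>] (0:ℝ), ∀ k, G.v k + s • toR (G.e k) ∈ interior G.region :=
    eventually_all.mpr G.ev_int
  have h3 : ∀ᶠ s in 𝓝[>] (0:ℝ), ∀ j k, G.v j ≠ G.v k → ∀ r r', 0 ≤ r → r ≤ s → 0 ≤ r' → r' ≤ s →
      G.v j + r • toR (G.e j) ≠ G.v k + r' • toR (G.e k) := by
    refine eventually_all.mpr fun j => eventually_all.mpr fun k => ?_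
    by_cases h : G.v j ≠ G.v k
    · exact (G.ev_apart j k h).mono fun s hs _ => hs
    · exact Eventually.of_forall fun s h' => absurd h' h
  have h4 : ∀ᶠ s in 𝓝[>] (0:ℝ), ∀ k, G.g (G.v k) < 0 → ∀ r, 0 ≤ r → r ≤ s →
      G.g (G.v k + r • toR (G.e k)) < 0 := by
    refine eventually_all.mpr fun k => ?_
    by_cases h : G.g (G.v k) < 0
    · exact (G.ev_sneg k h).mono fun s hs _ => hs
    · exact Eventually.of_forall fun s h' => absurd h' h
  have h5 : ∀ᶠ s in 𝓝[>] (0:ℝ), ∀ k, 0 < G.g (G.v k) → ∀ r, 0 ≤ r → r ≤ s →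
      0 < G.g (G.v k + r • toR (G.e k)) := by
    refine eventually_all.mpr fun k => ?_
    by_cases h : 0 < G.g (G.v k)
    · exact (G.ev_spos k h).mono fun s hs _ => hs
    · exact Eventually.of_forall fun s h' => absurd h' h
  filter_upwards [h1, h2, h3, h4, h5] with s a1 a2 a3 a4 a5
  exact ⟨a1, a2, a3, a4, a5⟩

/-- the diagram with all nodes at parameter `s` -/
def mk' (σ : Equiv.Perm (Fin 4)) (s : ℝ) : Diagram where
  region := G.region
  node j := ⟨G.v (σ.symm j) + s • toR (G.e (σ.symm j)), -G.e (σ.symm j)⟩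

lemma mk'_node (σ : Equiv.Perm (Fin 4)) (s : ℝ) (k : Fin 4) :
    (G.mk' σ s).node (σ k) = ⟨G.v k + s • toR (G.e k), -G.e k⟩ := by
  simp [mk']

lemma models_mk' (σ : Equiv.Perm (Fin 4)) {s : ℝ} (hs : G.Small s) :
    Models (G.mk' σ s) G σ where
  region := rfl
  dir k := by rw [mk'_node]
  pos k := ⟨s, hs.pos, by rw [mk'_node]⟩
  int k := by rw [mk'_node]; exact hs.int k

end GQuad

namespace Models

variable {D D' : Diagram} {G : GQuad} {σ : Equiv.Perm (Fin 4)}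

lemma slide {D₁ D₂ : Diagram} (M₁ : Models D₁ G σ) (M₂ : Models D₂ G σ) : Slide D₁ D₂ := by
  refine ⟨M₂.region.trans M₁.region.symm, fun i => ?_⟩
  obtain ⟨k, rfl⟩ := σ.surjective i
  obtain ⟨s, hs, hpos⟩ := M₁.pos k
  obtain ⟨s', hs', hpos'⟩ := M₂.pos k
  refine ⟨(M₂.dir k).trans (M₁.dir k).symm, ?_, s - s', ?_⟩
  · rw [M₁.region]; exact M₂.int k
  · rw [hpos, hpos', M₁.dir, toR_neg, smul_neg, sub_smul]; abel

lemma not_vertex {u : ℝ × ℝ} (hu : u ∈ interior G.region) (k : Fin 4) (h : u = G.v k) : False := by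
  have := lam_pos_of_interior hu k
  rw [h, G.lam_v_self] at this
  exact lt_irrefl _ this

lemma nonCrossing_of_small (M : Models D G σ) {s : ℝ} (hs : G.Small s)
    (hpos : ∀ k, k ≠ 0 → (D.node (σ k)).pos = G.v k + s • toR (G.e k)) : NonCrossing D := by
  -- pairs containing the corner `0`
  have p0 : ∀ k, k ≠ 0 → ∀ u ∈ interior G.region, u ∈ D.cut (σ 0) → u ∈ D.cut (σ k) →
      detZ (G.e 0) (G.e k) = 0 := by
    intro k hk u hu h0 h1
    obtain ⟨s0, hs0, hpos0⟩ := M.pos 0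
    rw [M.mem_cut 0 hs0 hpos0] at h0
    rw [M.mem_cut k hs.pos (hpos k hk)] at h1
    obtain ⟨r, hr0, hr, rfl⟩ := h0
    obtain ⟨r', hr0', hr', hu'⟩ := h1
    have hg : G.g (G.v 0 + r • toR (G.e 0)) = 0 := by
      rw [G.g_ray, G.g_v0, detZ_self]; simp
    rw [hu'] at hg
    rcases lt_trichotomy (G.g (G.v k)) 0 with h | h | h
    · exact absurd hg (hs.sneg k h r' hr0' hr').ne
    · rw [G.g_ray, h, zero_add] at hg
      rcases mul_eq_zero.mp hg with h' | h'
      · exact (not_vertex hu k (by rw [hu', h', zero_smul, add_zero])).elim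
      · exact_mod_cast h'
    · exact absurd hg (hs.spos k h r' hr0' hr').ne'
  have p1 : ∀ j k, j ≠ 0 → k ≠ 0 → j ≠ k → ∀ u ∈ interior G.region, u ∈ D.cut (σ j) →
      u ∈ D.cut (σ k) → detZ (G.e j) (G.e k) = 0 := by
    intro j k hj hk hjk u hu h0 h1
    rw [M.mem_cut j hs.pos (hpos j hj)] at h0
    rw [M.mem_cut k hs.pos (hpos k hk)] at h1
    obtain ⟨r, hr0, hr, hu0⟩ := h0
    obtain ⟨r', hr0', hr', hu'⟩ := h1
    by_cases hv : G.v j = G.v k
    · have e1 : r • toR (G.e j) = r' • toR (G.e k) := by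
        have := hu0.symm.trans hu'
        rw [hv] at this
        exact add_left_cancel this
      have e2 := congrArg (det2 (toR (G.e j))) e1
      rw [det2_smul_right, det2_smul_right, det2_self, mul_zero, det2_toR] at e2
      rcases mul_eq_zero.mp e2.symm with h' | h'
      · exact (not_vertex hu k (by rw [hu', h', zero_smul, add_zero])).elim
      · exact_mod_cast h'
    · exact absurd (hu0.symm.trans hu') (hs.apart j k hv r r' hr0 hr hr0' hr')
  intro i j hij u hu hi hj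
  obtain ⟨a, rfl⟩ := σ.surjective i
  obtain ⟨b, rfl⟩ := σ.surjective j
  have hab : a ≠ b := fun h => hij (by rw [h])
  rw [M.dir, M.dir, detZ_neg_left, detZ_neg_right, neg_neg]
  rw [M.region] at hu
  by_cases ha : a = 0
  · subst ha
    exact p0 b (Ne.symm hab) u hu hi hj
  · by_cases hb : b = 0
    · subst hb
      have := p0 a ha u hu hj hi
      rw [detZ_swap, this, neg_zero]
    · exact p1 a b ha hb hab u hu hi hj

end Models

/-- a mutation exists as soon as the cuts lie on one side of the eigenline -/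
lemma exists_mutateAnti (D : Diagram) (i : Fin 4)
    (h : ∀ j, j ≠ i → D.cut j ⊆ clockSide (D.node i).pos (D.node i).dir ∨
      D.cut j ⊆ antiSide (D.node i).pos (D.node i).dir) : ∃ D', MutateAnti D i D' := by
  classical
  refine ⟨⟨(D.region ∩ clockSide (D.node i).pos (D.node i).dir) ∪
      phiInv (D.node i).pos (D.node i).dir ''
        (D.region ∩ antiSide (D.node i).pos (D.node i).dir),
    fun j => if j = i then ⟨(D.node i).pos, -(D.node i).dir⟩ else
      if D.cut j ⊆ clockSide (D.node i).pos (D.node i).dir then D.node j else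
        ⟨phiInv (D.node i).pos (D.node i).dir (D.node j).pos,
          monoInvZ (D.node i).dir (D.node j).dir⟩⟩, rfl, ?_, ?_⟩
  · simp
  · intro j hj
    by_cases hc : D.cut j ⊆ clockSide (D.node i).pos (D.node i).dir
    · left
      exact ⟨hc, by simp [hj, hc]⟩
    · right
      rcases h j hj with h' | h'
      · exact absurd h' hc
      · exact ⟨h', by simp [hj, hc]⟩

end Pool.Agent.MP_fafc5c_gt
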