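import Pool.Agent.MP_fafc5c_gt.Defs
import Pool.Agent.MP_fafc5c_gt.Descent

set_option autoImplicit false

namespace Pool.Agent.MP_fafc5c_gt

/-- The combinatorial data of a quadrilateral with T1 corners (signs of the `p k` are free). -/
structure T1 (h e : Fin 4 → ℤ × ℤ) (p : Fin 4 → ℤ) : Prop where
  hprim : ∀ k, IsCoprime (h k).1 (h k).2
  eprim : ∀ k, IsCoprime (e k).1 (e k).2
  pne : ∀ k, p k ≠ 0
  hdiff : ∀ k, h (k + 1) = h k + p (k + 1) • e (k + 1)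
  hdet : ∀ k, detZ (h k) (h (k + 1)) = p (k + 1) ^ 2

/-- the Noether expression of the data -/
def noeth (h : Fin 4 → ℤ × ℤ) (p : Fin 4 → ℤ) : ℤ :=
  noether (p 0 ^ 2) (p 1 ^ 2) (p 2 ^ 2) (p 3 ^ 2) (detZ (h 0) (h 2)) (detZ (h 1) (h 3))

lemma parallel_prim {u v : ℤ × ℤ} (hu : IsCoprime u.1 u.2) (hv : IsCoprime v.1 v.2)
    (h : detZ u v = 0) : v = u ∨ v = -u := by
  obtain ⟨s, r, hs⟩ := hu
  obtain ⟨s', r', hs'⟩ := hv
  unfold detZ at h
  have e1 : v.1 = u.1 * (s * v.1 + r * v.2) := by linear_combination (-v.1) * hs - r * h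
  have e2 : v.2 = u.2 * (s * v.1 + r * v.2) := by linear_combination (-v.2) * hs + s * h
  set t := s * v.1 + r * v.2 with ht
  have ht1 : t * (s' * u.1 + r' * u.2) = 1 := by
    linear_combination hs' - s' * e1 - r' * e2
  have hunit : IsUnit t := IsUnit.of_mul_eq_one _ ht1
  rcases Int.isUnit_iff.mp hunit with h1 | h1
  · left
    rw [h1] at e1 e2
    ext <;> simp [e1, e2]
  · right
    rw [h1] at e1 e2
    ext <;> simp [e1, e2]

lemma prim_not_dvd {u : ℤ × ℤ} (hu : IsCoprime u.1 u.2) {q : ℤ} (h1 : q ∣ u.1) (h2 : q ∣ u.2) :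
    q ∣ 1 := by
  obtain ⟨s, r, hs⟩ := hu
  rw [← hs]
  exact dvd_add (Dvd.dvd.mul_left h1 s) (Dvd.dvd.mul_left h2 r)

lemma detZ_add_left (u v w : ℤ × ℤ) : detZ (u + v) w = detZ u w + detZ v w := by
  simp only [detZ, Prod.fst_add, Prod.snd_add]; ring
lemma detZ_add_right (u v w : ℤ × ℤ) : detZ u (v + w) = detZ u v + detZ u w := by
  simp only [detZ, Prod.fst_add, Prod.snd_add]; ring
lemma detZ_sub_left (u v w : ℤ × ℤ) : detZ (u - v) w = detZ u w - detZ v w := by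
  simp only [detZ, Prod.fst_sub, Prod.snd_sub]; ring
lemma detZ_sub_right (u v w : ℤ × ℤ) : detZ u (v - w) = detZ u v - detZ u w := by
  simp only [detZ, Prod.fst_sub, Prod.snd_sub]; ring
lemma detZ_smul_left (t : ℤ) (u w : ℤ × ℤ) : detZ (t • u) w = t * detZ u w := by
  simp only [detZ, Prod.smul_fst, Prod.smul_snd, smul_eq_mul]; ring
lemma detZ_smul_right (t : ℤ) (u w : ℤ × ℤ) : detZ u (t • w) = t * detZ u w := by
  simp only [detZ, Prod.smul_fst, Prod.smul_snd, smul_eq_mul]; ring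
lemma detZ_neg_left (u w : ℤ × ℤ) : detZ (-u) w = -detZ u w := by
  simp only [detZ, Prod.fst_neg, Prod.snd_neg]; ring
lemma detZ_neg_right (u w : ℤ × ℤ) : detZ u (-w) = -detZ u w := by
  simp only [detZ, Prod.fst_neg, Prod.snd_neg]; ring
lemma detZ_self (u : ℤ × ℤ) : detZ u u = 0 := by
  simp only [detZ]; ring
lemma detZ_swap (u v : ℤ × ℤ) : detZ u v = -detZ v u := by
  simp only [detZ]; ring

namespace T1

variable {h e : Fin 4 → ℤ × ℤ} {p : Fin 4 → ℤ}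

lemma rot (T : T1 h e p) : T1 (fun k => h (k + 1)) (fun k => e (k + 1)) (fun k => p (k + 1)) where
  hprim k := T.hprim _
  eprim k := T.eprim _
  pne k := T.pne _
  hdiff k := T.hdiff _
  hdet k := T.hdet _

lemma h0 (T : T1 h e p) : p 0 • e 0 = h 0 - h 3 := by
  have := T.hdiff 3
  simp only [Fin.reduceAdd] at this
  rw [this]; abel
lemma h1 (T : T1 h e p) : p 1 • e 1 = h 1 - h 0 := by
  have := T.hdiff 0
  simp only [Fin.reduceAdd, zero_add] at this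
  rw [this]; abel
lemma h2 (T : T1 h e p) : p 2 • e 2 = h 2 - h 1 := by
  have := T.hdiff 1
  simp only [Fin.reduceAdd] at this
  rw [this]; abel
lemma h3 (T : T1 h e p) : p 3 • e 3 = h 3 - h 2 := by
  have := T.hdiff 2
  simp only [Fin.reduceAdd] at this
  rw [this]; abel

lemma d01 (T : T1 h e p) : detZ (h 0) (h 1) = p 1 ^ 2 := by simpa using T.hdet 0
lemma d12 (T : T1 h e p) : detZ (h 1) (h 2) = p 2 ^ 2 := by simpa using T.hdet 1
lemma d23 (T : T1 h e p) : detZ (h 2) (h 3) = p 3 ^ 2 := by simpa using T.hdet 2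
lemma d30 (T : T1 h e p) : detZ (h 3) (h 0) = p 0 ^ 2 := by simpa using T.hdet 3

lemma pluecker (T : T1 h e p) :
    detZ (h 0) (h 2) * detZ (h 1) (h 3) = p 1 ^ 2 * p 3 ^ 2 - p 0 ^ 2 * p 2 ^ 2 := by
  rw [← T.d01, ← T.d12, ← T.d23, ← T.d30]
  simp only [detZ]; ring

/-- `p₀ det(e₀,h₁) = b + y` -/
lemma PL0 (T : T1 h e p) : p 0 * detZ (e 0) (h 1) = p 1 ^ 2 + detZ (h 1) (h 3) := by
  rw [← detZ_smul_left, T.h0, detZ_sub_left, T.d01, detZ_swap (h 3) (h 1)]; ring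
lemma PR0 (T : T1 h e p) : p 0 * detZ (e 0) (h 2) = detZ (h 0) (h 2) + p 3 ^ 2 := by
  rw [← detZ_smul_left, T.h0, detZ_sub_left, detZ_swap (h 3) (h 2), T.d23]; ring
lemma PL1 (T : T1 h e p) : p 1 * detZ (e 1) (h 2) = p 2 ^ 2 - detZ (h 0) (h 2) := by
  rw [← detZ_smul_left, T.h1, detZ_sub_left, T.d12]
lemma PR1 (T : T1 h e p) : p 1 * detZ (e 1) (h 3) = detZ (h 1) (h 3) + p 0 ^ 2 := by
  rw [← detZ_smul_left, T.h1, detZ_sub_left, detZ_swap (h 0) (h 3), T.d30]; ring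
lemma PL2 (T : T1 h e p) : p 2 * detZ (e 2) (h 3) = p 3 ^ 2 - detZ (h 1) (h 3) := by
  rw [← detZ_smul_left, T.h2, detZ_sub_left, T.d23]
lemma PR2 (T : T1 h e p) : p 2 * detZ (e 2) (h 0) = p 1 ^ 2 - detZ (h 0) (h 2) := by
  rw [← detZ_smul_left, T.h2, detZ_sub_left, detZ_swap (h 1) (h 0), T.d01,
    detZ_swap (h 2) (h 0)]; ring
lemma PL3 (T : T1 h e p) : p 3 * detZ (e 3) (h 0) = p 0 ^ 2 + detZ (h 0) (h 2) := by
  rw [← detZ_smul_left, T.h3, detZ_sub_left, T.d30, detZ_swap (h 2) (h 0)]; ring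
lemma PR3 (T : T1 h e p) : p 3 * detZ (e 3) (h 1) = p 2 ^ 2 - detZ (h 1) (h 3) := by
  rw [← detZ_smul_left, T.h3, detZ_sub_left, detZ_swap (h 2) (h 1), T.d12,
    detZ_swap (h 3) (h 1)]; ring

/-- `det(h_k,e_k) = p_k` -/
lemma dhe0 (T : T1 h e p) : detZ (h 0) (e 0) = p 0 := by
  apply mul_left_cancel₀ (T.pne 0)
  rw [← detZ_smul_right, T.h0, detZ_sub_right, detZ_self, detZ_swap, T.d30]; ring
lemma dhe3 (T : T1 h e p) : detZ (h 3) (e 0) = p 0 := by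
  apply mul_left_cancel₀ (T.pne 0)
  rw [← detZ_smul_right, T.h0, detZ_sub_right, detZ_self, T.d30]; ring

end T1

end Pool.Agent.MP_fafc5c_gt
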