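import Pool.Agent.MP_fafc5c_gt.T1
import Pool.Agent.MP_fafc5c_gt.Markov

set_option autoImplicit false
set_option linter.unusedVariables false

namespace Pool.Agent.MP_fafc5c_gt

lemma parity_aux {a b c d : ℤ} (h : a * d - b * c = 2 ∨ a * d - b * c = -2)
    (h1 : ¬ (2 ∣ a ∧ 2 ∣ b)) (h2 : ¬ (2 ∣ c ∧ 2 ∣ d)) : 2 ∣ a + c ∧ 2 ∣ b + d := by
  have e1 : (a * d - b * c) % 2 = 0 := by rcases h with h | h <;> rw [h] <;> norm_num
  have ha := Int.emod_two_eq_zero_or_one a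
  have hb := Int.emod_two_eq_zero_or_one b
  have hc := Int.emod_two_eq_zero_or_one c
  have hd := Int.emod_two_eq_zero_or_one d
  rw [Int.sub_emod, Int.mul_emod, Int.mul_emod b c] at e1
  rcases ha with ha | ha <;> rcases hb with hb | hb <;> rcases hc with hc | hc <;>
    rcases hd with hd | hd <;> rw [ha, hb, hc, hd] at e1 <;> norm_num at e1 <;> omega

lemma not_both_even {u : ℤ × ℤ} (hu : IsCoprime u.1 u.2) : ¬ (2 ∣ u.1 ∧ 2 ∣ u.2) := by
  rintro ⟨h1, h2⟩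
  have := prim_not_dvd hu h1 h2
  omega

lemma one_aux {u v e₁ e₂ : ℤ × ℤ} {q₁ q₂ : ℤ} (hu : IsCoprime u.1 u.2)
    (he1 : IsCoprime e₁.1 e₁.2) (he2 : IsCoprime e₂.1 e₂.2)
    (hq : q₁^2 = q₂^2) (h1 : q₁ • e₁ = v - u)
    (h2 : q₂ • e₂ = -u - v) (hdet : detZ u v = q₁^2) : q₁^2 = 1 := by
  have h1a : q₁ * e₁.1 = v.1 - u.1 := by
    have := congrArg Prod.fst h1
    simpa using this
  have h1b : q₁ * e₁.2 = v.2 - u.2 := by
    have := congrArg Prod.snd h1
    simpa using this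
  have h2a : q₂ * e₂.1 = -u.1 - v.1 := by
    have := congrArg Prod.fst h2
    simpa using this
  have h2b : q₂ * e₂.2 = -u.2 - v.2 := by
    have := congrArg Prod.snd h2
    simpa using this
  have hdet' : u.1 * v.2 - u.2 * v.1 = q₁^2 := hdet
  have hq' := sq_eq_sq_iff_eq_or_eq_neg.mp hq
  have hdvd : q₁ ∣ 2 := by
    obtain ⟨s, r, hs⟩ := hu
    have e1 : q₁ ∣ 2 * u.1 := by
      rcases hq' with hh | hh
      · exact ⟨-e₁.1 - e₂.1, by rw [hh] at h1a ⊢; linarith⟩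
      · exact ⟨-e₁.1 + e₂.1, by
          have : q₂ = -q₁ := by linarith
          rw [this] at h2a; linarith⟩
    have e2 : q₁ ∣ 2 * u.2 := by
      rcases hq' with hh | hh
      · exact ⟨-e₁.2 - e₂.2, by rw [hh] at h1b ⊢; linarith⟩
      · exact ⟨-e₁.2 + e₂.2, by
          have : q₂ = -q₁ := by linarith
          rw [this] at h2b; linarith⟩
    have : (2:ℤ) = s * (2 * u.1) + r * (2 * u.2) := by linear_combination (-2) * hs
    rw [this]
    exact dvd_add (Dvd.dvd.mul_left e1 s) (Dvd.dvd.mul_left e2 r)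
  have hle : q₁.natAbs ≤ 2 := by
    have := Int.natAbs_dvd_natAbs.mpr hdvd
    exact Nat.le_of_dvd (by norm_num) this
  have hne : q₁ ≠ 0 := by
    rintro rfl
    norm_num at hdvd
  have hcases : q₁ = 1 ∨ q₁ = -1 ∨ q₁ = 2 ∨ q₁ = -2 := by omega
  rcases hcases with hh | hh | hh | hh
  · rw [hh]; norm_num
  · rw [hh]; norm_num
  · exfalso
    subst hh
    have hv1 : v.1 = u.1 + 2 * e₁.1 := by linarith
    have hv2 : v.2 = u.2 + 2 * e₁.2 := by linarith
    rw [hv1, hv2] at hdet'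
    have hpar := parity_aux (a := u.1) (b := u.2) (c := e₁.1) (d := e₁.2)
      (Or.inl (by linarith)) (not_both_even hu) (not_both_even he1)
    apply not_both_even he2
    rcases hq' with hh | hh
    · rw [← hh] at h2a h2b
      omega
    · have : q₂ = -2 := by linarith
      rw [this] at h2a h2b
      omega
  · exfalso
    subst hh
    have hv1 : v.1 = u.1 - 2 * e₁.1 := by linarith
    have hv2 : v.2 = u.2 - 2 * e₁.2 := by linarith
    rw [hv1, hv2] at hdet'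
    have hpar := parity_aux (a := u.1) (b := u.2) (c := e₁.1) (d := e₁.2)
      (Or.inr (by linarith)) (not_both_even hu) (not_both_even he1)
    apply not_both_even he2
    rcases hq' with hh | hh
    · rw [← hh] at h2a h2b
      omega
    · have : q₂ = 2 := by linarith
      rw [this] at h2a h2b
      omega

namespace T1

variable {h e : Fin 4 → ℤ × ℤ} {p : Fin 4 → ℤ}

/-- `det(h₀,e₁) = p₁` -/
lemma dh0e1 (T : T1 h e p) : detZ (h 0) (e 1) = p 1 := by
  apply mul_left_cancel₀ (T.pne 1)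
  rw [← detZ_smul_right, T.h1, detZ_sub_right, detZ_self, T.d01]; ring
lemma dh2e3 (T : T1 h e p) : detZ (h 2) (e 3) = p 3 := by
  apply mul_left_cancel₀ (T.pne 3)
  rw [← detZ_smul_right, T.h3, detZ_sub_right, detZ_self, T.d23]; ring
lemma dh1e1 (T : T1 h e p) : detZ (h 1) (e 1) = p 1 := by
  apply mul_left_cancel₀ (T.pne 1)
  rw [← detZ_smul_right, T.h1, detZ_sub_right, detZ_self, detZ_swap, T.d01]; ring

lemma k0 (T : T1 h e p) : p 0 * p 1 * detZ (e 0) (e 1) = p 0^2 + p 1^2 + detZ (h 1) (h 3) := by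
  have : p 0 * p 1 * detZ (e 0) (e 1) = detZ (p 0 • e 0) (p 1 • e 1) := by
    rw [detZ_smul_left, detZ_smul_right]; ring
  rw [this, T.h0, T.h1, detZ_sub_left, detZ_sub_right, detZ_sub_right, detZ_self, T.d01, T.d30,
    detZ_swap (h 3) (h 1)]; ring
lemma k1 (T : T1 h e p) : p 1 * p 2 * detZ (e 1) (e 2) = p 1^2 + p 2^2 - detZ (h 0) (h 2) := by
  have : p 1 * p 2 * detZ (e 1) (e 2) = detZ (p 1 • e 1) (p 2 • e 2) := by
    rw [detZ_smul_left, detZ_smul_right]; ring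
  rw [this, T.h1, T.h2, detZ_sub_left, detZ_sub_right, detZ_sub_right, detZ_self, T.d01, T.d12]; ring
lemma k2 (T : T1 h e p) : p 2 * p 3 * detZ (e 2) (e 3) = p 2^2 + p 3^2 - detZ (h 1) (h 3) := by
  have : p 2 * p 3 * detZ (e 2) (e 3) = detZ (p 2 • e 2) (p 3 • e 3) := by
    rw [detZ_smul_left, detZ_smul_right]; ring
  rw [this, T.h2, T.h3, detZ_sub_left, detZ_sub_right, detZ_sub_right, detZ_self, T.d12, T.d23]; ring
lemma k3 (T : T1 h e p) : p 3 * p 0 * detZ (e 3) (e 0) = p 3^2 + p 0^2 + detZ (h 0) (h 2) := by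
  have : p 3 * p 0 * detZ (e 3) (e 0) = detZ (p 3 • e 3) (p 0 • e 0) := by
    rw [detZ_smul_left, detZ_smul_right]; ring
  rw [this, T.h3, T.h0, detZ_sub_left, detZ_sub_right, detZ_sub_right, detZ_self, T.d23, T.d30,
    detZ_swap (h 2) (h 0)]; ring

/-- if `det(h₀,h₂) = 0` then `h₂ = -h₀` -/
lemma neg_of_x_zero (T : T1 h e p) (hx : detZ (h 0) (h 2) = 0) : h 2 = -h 0 := by
  rcases parallel_prim (T.hprim 0) (T.hprim 2) hx with h' | h'
  · exfalso
    have h1 := T.d12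
    rw [h', detZ_swap, T.d01] at h1
    have := T.pne 1
    have h2 : 0 < p 1 ^ 2 := by positivity
    have h3 : 0 ≤ p 2 ^ 2 := sq_nonneg _
    linarith
  · exact h'

/-- if `det(h₀,h₂) = 0` all corners are smooth -/
lemma one_of_x_zero (T : T1 h e p) (hx : detZ (h 0) (h 2) = 0) :
    p 0 ^ 2 = 1 ∧ p 1 ^ 2 = 1 ∧ p 2 ^ 2 = 1 ∧ p 3 ^ 2 = 1 := by
  have hneg := T.neg_of_x_zero hx
  have hbc : p 1 ^ 2 = p 2 ^ 2 := by
    rw [← T.d12, hneg, detZ_neg_right, detZ_swap, T.d01]; ring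
  have had : p 3 ^ 2 = p 0 ^ 2 := by
    rw [← T.d23, hneg, detZ_neg_left, detZ_swap, T.d30]; ring
  have r1 : p 1 ^ 2 = 1 := by
    apply one_aux (u := h 0) (v := h 1) (e₁ := e 1) (e₂ := e 2) (q₁ := p 1) (q₂ := p 2)
      (T.hprim 0) (T.eprim 1) (T.eprim 2) hbc T.h1 _ T.d01
    rw [T.h2, hneg]
  have r3 : p 3 ^ 2 = 1 := by
    apply one_aux (u := h 2) (v := h 3) (e₁ := e 3) (e₂ := e 0) (q₁ := p 3) (q₂ := p 0)
      (T.hprim 2) (T.eprim 3) (T.eprim 0) had T.h3 _ T.d23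
    rw [T.h0, hneg, neg_neg]
  exact ⟨by rw [← had, r3], r1, by rw [← hbc, r1], r3⟩

/-- if `det(h₁,h₃) = 0` all corners are smooth -/
lemma one_of_y_zero (T : T1 h e p) (hy : detZ (h 1) (h 3) = 0) :
    p 0 ^ 2 = 1 ∧ p 1 ^ 2 = 1 ∧ p 2 ^ 2 = 1 ∧ p 3 ^ 2 = 1 := by
  have := T.rot.one_of_x_zero (by simpa using hy)
  simp only [Fin.reduceAdd, zero_add] at this
  tauto

end T1

end Pool.Agent.MP_fafc5c_gt
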