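import Pool.Agent.MP_fafc5c_gt.Affine

set_option autoImplicit false
set_option linter.unusedVariables false

namespace Pool.Agent.MP_fafc5c_gt

open MeasureTheory

lemma volume_affine_image (α β γ δ : ℤ) (hdet : α * δ - β * γ = 1 ∨ α * δ - β * γ = -1)
    (c : ℝ × ℝ) (S : Set (ℝ × ℝ)) :
    volume ((fun v : ℝ × ℝ => (v.1 * α + v.2 * γ + c.1, v.1 * β + v.2 * δ + c.2)) '' S) =
      volume S := by
  set L : (ℝ × ℝ) →ₗ[ℝ] (ℝ × ℝ) :=
    Matrix.toLin (Module.Basis.finTwoProd ℝ) (Module.Basis.finTwoProd ℝ)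
      !![(α : ℝ), (γ : ℝ); (β : ℝ), (δ : ℝ)] with hL
  have h1 : (fun v : ℝ × ℝ => (v.1 * α + v.2 * γ + c.1, v.1 * β + v.2 * δ + c.2)) '' S =
      (fun v => v + c) '' (L '' S) := by
    rw [Set.image_image]
    congr 1
    funext v
    rw [hL, Matrix.toLin_finTwoProd_apply]
    ext
    · simp only [Prod.fst_add]; ring
    · simp only [Prod.snd_add]; ring
  have h2 : |LinearMap.det L| = 1 := by
    rw [hL, LinearMap.det_toLin, Matrix.det_fin_two]
    simp only [Matrix.of_apply, Matrix.cons_val', Matrix.cons_val_zero, Matrix.cons_val_one,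
      Matrix.cons_val_fin_one]
    rcases hdet with h | h
    · have : (α : ℝ) * δ - γ * β = 1 := by
        have : α * δ - γ * β = 1 := by linarith
        exact_mod_cast this
      rw [this, abs_one]
    · have : (α : ℝ) * δ - γ * β = -1 := by
        have : α * δ - γ * β = -1 := by linarith
        exact_mod_cast this
      rw [this, abs_neg, abs_one]
  rw [h1, Set.image_add_right, measure_preimage_add_right, Measure.addHaar_image_linearMap, h2,
    ENNReal.ofReal_one, one_mul]

lemma SAff.volume_image (T : SAff) (S : Set (ℝ × ℝ)) : volume (T.map '' S) = volume S := by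
  rw [← volume_affine_image T.a T.b T.c T.d (Or.inl T.det) T.t S]
  congr 1

namespace GQuad

variable (G : GQuad)

lemma shf_image_eq (u : ℝ × ℝ) :
    G.shr u = (SAff.ofPhi (G.v 0) (G.e 0)).inv.map u := by
  rw [SAff.ofPhi_inv_map, phiInv, shr, g, det2_swap (toR (G.e 0)), neg_smul]
  exact (sub_eq_add_neg _ _).symm

lemma volume_mutRegion {R' : Set (ℝ × ℝ)} (hR : G.MutRegion R') :
    volume R' = volume G.region := by
  set t : Set (ℝ × ℝ) := {u | 0 ≤ G.g u} with ht
  have hmeas : MeasurableSet t := (isClosed_le continuous_const G.continuous_g).measurableSet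
  have h1 : R' ∩ t = G.region ∩ t := by
    ext u
    simp only [Set.mem_inter_iff, hR u, ht, Set.mem_ofPred_eq]
    constructor
    · rintro ⟨⟨h1, h2⟩ | ⟨h1, h2⟩, h3⟩
      · exact ⟨h2, h3⟩
      · refine ⟨?_, h3⟩
        have : G.g u = 0 := le_antisymm h1 h3
        rw [shf, this, zero_smul, sub_zero] at h2
        exact h2
    · rintro ⟨h1, h2⟩
      exact ⟨Or.inl ⟨h2, h1⟩, h2⟩
  have h2 : R' \ t = (SAff.ofPhi (G.v 0) (G.e 0)).inv.map '' (G.region \ t) := by
    have hm : (SAff.ofPhi (G.v 0) (G.e 0)).inv.map = G.shr :=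
      funext fun u => (G.shf_image_eq u).symm
    rw [hm]
    ext u
    simp only [Set.mem_sdiff, hR u, ht, Set.mem_ofPred_eq, not_le, Set.mem_image]
    constructor
    · rintro ⟨⟨h1, h2⟩ | ⟨h1, h2⟩, h3⟩
      · exact absurd h1 (not_le.mpr h3)
      · exact ⟨G.shf u, ⟨h2, by rw [g_shf]; exact h3⟩, G.shr_shf u⟩
    · rintro ⟨w, ⟨h1, h2⟩, rfl⟩
      rw [g_shr, shf_shr]
      exact ⟨Or.inr ⟨h2.le, h1⟩, h2⟩
  rw [← measure_inter_add_sdiff R' hmeas, ← measure_inter_add_sdiff G.region hmeas, h1, h2,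
    SAff.volume_image]

lemma volume_Lmove {G : GQuad} (C : G.LC) : volume (Lmove C).region = volume G.region :=
  G.volume_mutRegion (mutRegion_L C)
lemma volume_Rmove {G : GQuad} (C : G.RC) : volume (Rmove C).region = volume G.region :=
  G.volume_mutRegion (mutRegion_R C)

end GQuad

/-- a mutation (anticlockwise) of a modelled diagram is modelled, with the same area and affine
perimeter -/
theorem Models.forward_anti' {D D' : Diagram} {G : GQuad} {σ : Equiv.Perm (Fin 4)}
    (M : Models D G σ) {i : Fin 4} (H : MutateAnti D i D') :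
    ∃ (G' : GQuad) (σ' : Equiv.Perm (Fin 4)), Models D' G' σ' ∧ G'.per = G.per ∧
      volume G'.region = volume G.region := by
  obtain ⟨k, rfl⟩ := σ.surjective i
  have M' := M.rotBy k
  have hk : ((Equiv.addRight k).trans σ) 0 = σ k := by simp
  rw [← hk] at H
  rcases (G.rotBy k).LC_or_RC with C | C
  · exact ⟨_, _, M'.forward_L C H, by rw [GQuad.per_Lmove, GQuad.per_rotBy],
      by rw [GQuad.volume_Lmove, GQuad.region_rotBy]⟩
  · exact ⟨_, _, M'.forward_R C H, by rw [GQuad.per_Rmove, GQuad.per_rotBy],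
      by rw [GQuad.volume_Rmove, GQuad.region_rotBy]⟩

/-- every move keeps a modelled diagram modelled, with the same affine perimeter and area -/
theorem forward_step' {D D' : Diagram} {G : GQuad} {σ : Equiv.Perm (Fin 4)} (M : Models D G σ)
    (H : Step D D') : ∃ (G' : GQuad) (σ' : Equiv.Perm (Fin 4)), Models D' G' σ' ∧
      G'.per = G.per ∧ volume G'.region = volume G.region := by
  rcases H with h | ⟨i, h | h⟩
  · exact ⟨G, σ, M.forward_slide h, rfl, rfl⟩
  · exact M.forward_anti' h
  · obtain ⟨G', σ', M', hper, hvol⟩ := M.forward_anti' (SAff.clock_to_anti h)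
    refine ⟨(SAff.ofPhi (D.node i).pos (D.node i).dir).actG G', σ', ?_, hper, ?_⟩
    · have := (SAff.ofPhi (D.node i).pos (D.node i).dir).models_act M'
      rwa [SAff.act_act_inv] at this
    · rw [SAff.region_actG, SAff.volume_image, hvol]

theorem forward_path {D D' : Diagram} (H : Relation.ReflTransGen Step D D')
    {G : GQuad} {σ : Equiv.Perm (Fin 4)} (M : Models D G σ) :
    ∃ (G' : GQuad) (σ' : Equiv.Perm (Fin 4)), Models D' G' σ' ∧
      G'.per = G.per ∧ volume G'.region = volume G.region := by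
  induction H with
  | refl => exact ⟨G, σ, M, rfl, rfl⟩
  | tail _ h ih =>
    obtain ⟨G', σ', M', h1, h2⟩ := ih
    obtain ⟨G'', σ'', M'', h3, h4⟩ := forward_step' M' h
    exact ⟨G'', σ'', M'', h3.trans h1, h4.trans h2⟩

lemma volume_rect (a b : ℝ) (ha : 0 < a) :
    volume (Set.Icc (0:ℝ) a ×ˢ Set.Icc (0:ℝ) b) = ENNReal.ofReal (a * b) := by
  rw [Measure.volume_eq_prod, Measure.prod_prod, Real.volume_Icc, Real.volume_Icc, sub_zero,
    sub_zero, ENNReal.ofReal_mul ha.le]

end Pool.Agent.MP_fafc5c_gt
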